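import Pool.Agent.EXG.Defs

/-!
# EXZ / ChV: integer change of variables

`(x, y) ↦ (B x, y^B)`, `B ∈ GL_n(ℤ)`, `(y^B)_i = ∏_j y_j ^ B i j`.

PROOF.  `K` = fraction field of `ℂ[x, y] / P`, `ξ, η` the classes of the variables (`η_j ≠ 0`). `P'` = kernel of `ℂ[x, y] → K`,
`x_i ↦ ∑ B i j ξ_j`, `y_i ↦ ∏ η_j ^ B i j`. Prime, no `y_i`. `trdeg`: the fields generated by the two tuples coincide (`B⁻¹` integer).
`F' = F(B⁻¹ x)`. `P' ∩ ℂ[x]`: `f(B ξ) = 0 ↔ F ∣ f(B x) ↔ F' ∣ f`. `w` extends to `K`, pulled back to `ℂ[x, y]`: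
`w'(y_i) = ∏ w(y_j)^(B i j) = exp (-∑ B i j v_j)`. For `h ∉ P`: `h(B⁻¹ x, y^(B⁻¹))` times a monomial in `y` is a polynomial `h'`, `h' ∉ P'`;
`z'` for `h'`, `z = B⁻¹ z'`: `exp z = (exp z')^(B⁻¹)`; for `f ∈ P` the same with `f`.
-/

set_option autoImplicit false

namespace Pool.Agent.EXZ

open MvPolynomial

/-- clearing the denominators of `f(B' x, y^B')` -/
theorem chv_star {n : ℕ} (B' : Matrix (Fin n) (Fin n) ℤ) (f : MvPolynomial (Fin n ⊕ Fin n) ℂ) :
    ∃ (N : ℕ) (g : MvPolynomial (Fin n ⊕ Fin n) ℂ), ∀ (L : Type) [Field L] [Algebra ℂ L]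
      (s t : Fin n → L), (∀ j, t j ≠ 0) →
      aeval (Sum.elim s t) g = (∏ j, t j) ^ N *
        aeval (Sum.elim (fun i => ∑ j, (B' i j : L) * s j) (fun i => ∏ j, t j ^ B' i j)) f := by
  classical
  induction f using MvPolynomial.induction_on with
  | C a =>
    refine ⟨0, C a, fun L _ _ s t ht => ?_⟩
    rw [aeval_C, aeval_C, pow_zero, one_mul]
  | add p q hp hq =>
    obtain ⟨N1, g1, h1⟩ := hp
    obtain ⟨N2, g2, h2⟩ := hq
    refine ⟨N1 + N2, (∏ j, X (Sum.inr j)) ^ N2 * g1 + (∏ j, X (Sum.inr j)) ^ N1 * g2,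
      fun L _ _ s t ht => ?_⟩
    rw [map_add, map_mul, map_mul, map_pow, map_pow, map_prod, h1 L s t ht, h2 L s t ht, map_add]
    simp only [aeval_X, Sum.elim_inr]
    ring
  | mul_X p i hp =>
    obtain ⟨N, g, h⟩ := hp
    rcases i with i | i
    · refine ⟨N, g * ∑ j, (B' i j : ℂ) • X (Sum.inl j), fun L _ _ s t ht => ?_⟩
      rw [map_mul, map_mul, h L s t ht, map_sum, aeval_X, Sum.elim_inl, mul_assoc]
      congr 2
      refine Finset.sum_congr rfl fun j _ => ?_
      rw [map_smul, aeval_X, Sum.elim_inl, Algebra.smul_def, map_intCast]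
    · set E : ℕ := ∑ j, (B' i j).natAbs with hE
      have hE1 : ∀ j, 0 ≤ (E : ℤ) + B' i j := by
        intro j
        have h1 : (B' i j).natAbs ≤ E :=
          Finset.single_le_sum (f := fun j => (B' i j).natAbs) (fun _ _ => Nat.zero_le _)
            (Finset.mem_univ j)
        omega
      refine ⟨N + E, g * ∏ j, X (Sum.inr j) ^ ((E : ℤ) + B' i j).toNat, fun L _ _ s t ht => ?_⟩
      rw [map_mul, map_mul, h L s t ht, map_prod, aeval_X, Sum.elim_inr]
      have h2 : ∏ j, (aeval (Sum.elim s t)) (X (R := ℂ) (Sum.inr j) ^ ((E : ℤ) + B' i j).toNat) =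
          (∏ j, t j) ^ E * ∏ j, t j ^ B' i j := by
        rw [← Finset.prod_pow, ← Finset.prod_mul_distrib]
        refine Finset.prod_congr rfl fun j _ => ?_
        rw [map_pow, aeval_X, Sum.elim_inr, ← zpow_natCast, Int.toNat_of_nonneg (hE1 j),
          zpow_add₀ (ht j), zpow_natCast]
      rw [h2]
      ring

theorem chv_sum {n : ℕ} {B B' : Matrix (Fin n) (Fin n) ℤ} (h : B' * B = 1) {L : Type}
    [Field L] (s : Fin n → L) (i : Fin n) :
    ∑ j, (B' i j : L) * ∑ l, (B j l : L) * s l = s i := by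
  classical
  simp only [Finset.mul_sum]
  rw [Finset.sum_comm]
  have h1 : ∀ l, ∑ j, (B' i j : L) * ((B j l : L) * s l) = if i = l then s l else 0 := by
    intro l
    have h2 := congrFun (congrFun h i) l
    rw [Matrix.mul_apply, Matrix.one_apply] at h2
    have h3 : ∑ j, (B' i j : L) * (B j l : L) = if i = l then 1 else 0 := by
      have h4 := congrArg (fun z : ℤ => (z : L)) h2
      push_cast at h4
      rw [h4]
    calc ∑ j, (B' i j : L) * ((B j l : L) * s l) = (∑ j, (B' i j : L) * (B j l : L)) * s l := by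
          rw [Finset.sum_mul]
          exact Finset.sum_congr rfl fun j _ => by ring
      _ = _ := by rw [h3]; split_ifs <;> simp
  rw [Finset.sum_congr rfl fun l _ => h1 l, Finset.sum_ite_eq, if_pos (Finset.mem_univ i)]

theorem chv_prod {n : ℕ} {B B' : Matrix (Fin n) (Fin n) ℤ} (h : B' * B = 1) {L : Type}
    [Field L] (t : Fin n → L) (ht : ∀ j, t j ≠ 0) (i : Fin n) :
    ∏ j, (∏ l, t l ^ B j l) ^ B' i j = t i := by
  classical
  have h1 : ∀ j, (∏ l, t l ^ B j l) ^ B' i j = ∏ l, t l ^ (B' i j * B j l) := by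
    intro j
    rw [← Finset.prod_zpow]
    refine Finset.prod_congr rfl fun l _ => ?_
    rw [← zpow_mul, mul_comm]
  rw [Finset.prod_congr rfl fun j _ => h1 j, Finset.prod_comm]
  have h2 : ∀ l, ∏ j, t l ^ (B' i j * B j l) = if i = l then t l else 1 := by
    intro l
    have h3 := congrFun (congrFun h i) l
    rw [Matrix.mul_apply, Matrix.one_apply] at h3
    have h4 : ∏ j, t l ^ (B' i j * B j l) = t l ^ (∑ j, B' i j * B j l) := by
      have : ∀ s : Finset (Fin n), ∏ j ∈ s, t l ^ (B' i j * B j l) =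
          t l ^ (∑ j ∈ s, B' i j * B j l) := by
        intro s
        induction s using Finset.induction_on with
        | empty => simp
        | insert a s ha ih => rw [Finset.prod_insert ha, Finset.sum_insert ha, ih,
            zpow_add₀ (ht l)]
      exact this _
    rw [h4, h3]
    split_ifs <;> simp
  rw [Finset.prod_congr rfl fun l _ => h2 l, Finset.prod_ite_eq, if_pos (Finset.mem_univ i)]

theorem chv_exp {n : ℕ} (s : Finset (Fin n)) (c v : Fin n → ℤ) :
    ∏ j ∈ s, (WithZero.exp (-(v j)) : WithZero (Multiplicative ℤ)) ^ c j =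
      WithZero.exp (-(∑ j ∈ s, c j * v j)) := by
  classical
  induction s using Finset.induction_on with
  | empty => simp
  | insert a s ha ih =>
    rw [Finset.prod_insert ha, Finset.sum_insert ha, ih, ← WithZero.exp_zsmul, ← WithZero.exp_add]
    congr 1
    simp only [smul_eq_mul]
    ring

theorem change_vars {n : ℕ} (B B' : Matrix (Fin n) (Fin n) ℤ) (hBB' : B * B' = 1)
    (P : Ideal (MvPolynomial (Fin n ⊕ Fin n) ℂ)) (hP : P.IsPrime)
    (hY : ∀ j : Fin n, (X (Sum.inr j) : MvPolynomial (Fin n ⊕ Fin n) ℂ) ∉ P)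
    (hdim : Algebra.trdeg ℂ (MvPolynomial (Fin n ⊕ Fin n) ℂ ⧸ P) = n)
    (F : MvPolynomial (Fin n) ℂ)
    (hF : ∀ f : MvPolynomial (Fin n) ℂ, rename Sum.inl f ∈ P ↔ F ∣ f)
    (w : Valuation (MvPolynomial (Fin n ⊕ Fin n) ℂ) (WithZero (Multiplicative ℤ)))
    (hw : ∀ f, w f = 0 ↔ f ∈ P)
    (hwx : ∀ f : MvPolynomial (Fin n) ℂ, ¬ F ∣ f → w (rename Sum.inl f) = 1)
    (v : Fin n → ℤ) (hwv : ∀ j, w (X (Sum.inr j)) = WithZero.exp (-(v j))) :
    ∃ (P' : Ideal (MvPolynomial (Fin n ⊕ Fin n) ℂ))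
      (w' : Valuation (MvPolynomial (Fin n ⊕ Fin n) ℂ) (WithZero (Multiplicative ℤ))),
      P'.IsPrime ∧ (∀ j : Fin n, (X (Sum.inr j) : MvPolynomial (Fin n ⊕ Fin n) ℂ) ∉ P') ∧
      Algebra.trdeg ℂ (MvPolynomial (Fin n ⊕ Fin n) ℂ ⧸ P') = n ∧
      (∀ f : MvPolynomial (Fin n) ℂ, rename Sum.inl f ∈ P' ↔
        aeval (fun i => ∑ j, (B' i j : ℂ) • (X j : MvPolynomial (Fin n) ℂ)) F ∣ f) ∧
      (∀ f, w' f = 0 ↔ f ∈ P') ∧
      (∀ f : MvPolynomial (Fin n) ℂ,
        ¬ aeval (fun i => ∑ j, (B' i j : ℂ) • (X j : MvPolynomial (Fin n) ℂ)) F ∣ f →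
        w' (rename Sum.inl f) = 1) ∧
      (∀ i, w' (X (Sum.inr i)) = WithZero.exp (-(∑ j, B i j * v j))) ∧
      ((∀ h' : MvPolynomial (Fin n ⊕ Fin n) ℂ, h' ∉ P' → ∃ z : Fin n → ℂ,
        (∀ f ∈ P', eval (Sum.elim z fun j => Complex.exp (z j)) f = 0) ∧
        eval (Sum.elim z fun j => Complex.exp (z j)) h' ≠ 0) →
       ∀ h : MvPolynomial (Fin n ⊕ Fin n) ℂ, h ∉ P → ∃ z : Fin n → ℂ,
        (∀ f ∈ P, eval (Sum.elim z fun j => Complex.exp (z j)) f = 0) ∧
        eval (Sum.elim z fun j => Complex.exp (z j)) h ≠ 0) := by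
  classical
  have hB'B : B' * B = 1 := mul_eq_one_comm.1 hBB'
  have := hP
  let A := MvPolynomial (Fin n ⊕ Fin n) ℂ ⧸ P
  let K := FractionRing A
  let cl : MvPolynomial (Fin n ⊕ Fin n) ℂ →ₐ[ℂ] K :=
    (Algebra.ofId A K).restrictScalars ℂ |>.comp (Ideal.Quotient.mkₐ ℂ P)
  have hcl : ∀ f, cl f = 0 ↔ f ∈ P := by
    intro f
    change algebraMap A K (Ideal.Quotient.mk P f) = 0 ↔ _
    rw [map_eq_zero_iff _ (IsFractionRing.injective A K), Ideal.Quotient.eq_zero_iff_mem]
  let ξ : Fin n → K := fun j => cl (X (Sum.inl j))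
  let η : Fin n → K := fun j => cl (X (Sum.inr j))
  have hη : ∀ j, η j ≠ 0 := fun j h0 => hY j ((hcl _).1 h0)
  let s : Fin n → K := fun i => ∑ j, (B i j : K) * ξ j
  let t : Fin n → K := fun i => ∏ j, η j ^ B i j
  have ht : ∀ i, t i ≠ 0 := fun i => Finset.prod_ne_zero_iff.2 fun j _ => zpow_ne_zero _ (hη j)
  let Φ : MvPolynomial (Fin n ⊕ Fin n) ℂ →ₐ[ℂ] K := aeval (Sum.elim s t)
  let P' : Ideal (MvPolynomial (Fin n ⊕ Fin n) ℂ) := RingHom.ker Φ.toRingHom
  have hP' : ∀ f, f ∈ P' ↔ Φ f = 0 := fun f => RingHom.mem_ker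
  -- the valuation
  have hsupp : P ≤ w.supp := fun f hf => (Valuation.mem_supp_iff _ _).2 ((hw f).2 hf)
  let wA : Valuation A (WithZero (Multiplicative ℤ)) := w.onQuot hsupp
  have hwA : ∀ f, wA (Ideal.Quotient.mk P f) = w f := fun f => rfl
  have hS : nonZeroDivisors A ≤ wA.supp.primeCompl := by
    intro a ha
    obtain ⟨f, rfl⟩ := Ideal.Quotient.mk_surjective a
    intro h1
    have h2 : w f = 0 := (Valuation.mem_supp_iff _ _).1 h1
    have h3 : Ideal.Quotient.mk P f = 0 := Ideal.Quotient.eq_zero_iff_mem.2 ((hw f).1 h2)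
    exact nonZeroDivisors.ne_zero ha h3
  let wK : Valuation K (WithZero (Multiplicative ℤ)) := wA.extendToLocalization hS K
  have hwK : ∀ f, wK (cl f) = w f := fun f => wA.extendToLocalization_apply_map_apply hS K _
  let w' := wK.comap Φ.toRingHom
  have hw' : ∀ f, w' f = wK (Φ f) := fun f => rfl
  -- the coordinates `x`
  let fB : MvPolynomial (Fin n) ℂ →ₐ[ℂ] MvPolynomial (Fin n) ℂ :=
    aeval (fun i => ∑ j, (B i j : ℂ) • (X j : MvPolynomial (Fin n) ℂ))
  let fB' : MvPolynomial (Fin n) ℂ →ₐ[ℂ] MvPolynomial (Fin n) ℂ :=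
    aeval (fun i => ∑ j, (B' i j : ℂ) • (X j : MvPolynomial (Fin n) ℂ))
  have hlin : ∀ (C1 C2 : Matrix (Fin n) (Fin n) ℤ), C1 * C2 = 1 → ∀ f : MvPolynomial (Fin n) ℂ,
      aeval (fun i => ∑ j, (C2 i j : ℂ) • (X j : MvPolynomial (Fin n) ℂ))
        (aeval (fun i => ∑ j, (C1 i j : ℂ) • (X j : MvPolynomial (Fin n) ℂ)) f) = f := by
    intro C1 C2 hC f
    rw [← AlgHom.comp_apply]
    conv_rhs => rw [← AlgHom.id_apply (R := ℂ) f]
    congr 1
    refine MvPolynomial.algHom_ext fun i => ?_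
    rw [AlgHom.comp_apply, aeval_X, map_sum, AlgHom.id_apply]
    simp only [map_smul, aeval_X, Finset.smul_sum]
    rw [Finset.sum_comm]
    have h1 : ∀ l, ∑ j, (C1 i j : ℂ) • (C2 j l : ℂ) • (X l : MvPolynomial (Fin n) ℂ) =
        if i = l then X l else 0 := by
      intro l
      simp only [smul_smul]
      rw [← Finset.sum_smul]
      have h2 := congrFun (congrFun hC i) l
      rw [Matrix.mul_apply, Matrix.one_apply] at h2
      have h3 : ∑ j, (C1 i j : ℂ) * (C2 j l : ℂ) = if i = l then 1 else 0 := by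
        have h4 := congrArg (fun z : ℤ => (z : ℂ)) h2
        push_cast at h4
        rw [h4]
      rw [h3]
      split_ifs <;> simp
    rw [Finset.sum_congr rfl fun l _ => h1 l, Finset.sum_ite_eq, if_pos (Finset.mem_univ i)]
  have hdvd : ∀ f, F ∣ fB f ↔ fB' F ∣ f := by
    intro f
    constructor
    · intro h
      have h1 : fB' F ∣ fB' (fB f) := map_dvd fB' h
      rwa [show fB' (fB f) = f from hlin B B' hBB' f] at h1
    · intro h
      have h1 : fB (fB' F) ∣ fB f := map_dvd fB h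
      rwa [show fB (fB' F) = F from hlin B' B hB'B F] at h1
  have hΦx : ∀ f : MvPolynomial (Fin n) ℂ, Φ (rename Sum.inl f) = cl (rename Sum.inl (fB f)) := by
    intro f
    have h1 : Φ.comp (rename Sum.inl) = (cl.comp (rename Sum.inl)).comp fB := by
      refine MvPolynomial.algHom_ext fun i => ?_
      simp only [AlgHom.comp_apply, rename_X, aeval_X, Φ, fB, Sum.elim_inl, map_sum, map_smul, s, ξ]
      refine Finset.sum_congr rfl fun j _ => ?_
      rw [Algebra.smul_def, map_intCast]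
    exact congrArg (fun φ => φ f) h1
  -- the point `(ξ, η)` from `(s, t)`
  have hst1 : (fun i => ∑ j, (B' i j : K) * s j) = ξ := funext fun i => chv_sum hB'B ξ i
  have hst2 : (fun i => ∏ j, t j ^ B' i j) = η := funext fun i => chv_prod hB'B η hη i
  have hclf : ∀ f, aeval (Sum.elim ξ η) f = cl f := by
    intro f
    have h1 : (aeval (Sum.elim ξ η) : MvPolynomial (Fin n ⊕ Fin n) ℂ →ₐ[ℂ] K) = cl := by
      refine MvPolynomial.algHom_ext fun i => ?_
      rcases i with i | i
      · rw [aeval_X]; rfl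
      · rw [aeval_X]; rfl
    rw [h1]
  have hprime : P'.IsPrime := RingHom.ker_isPrime _
  refine ⟨P', w', hprime, ?_, ?_, ?_, ?_, ?_, ?_, ?_⟩
  · intro j hj
    have h1 := (hP' _).1 hj
    rw [aeval_X] at h1
    exact ht j h1
  · -- transcendence degree
    let S' : Subalgebra ℂ K := Φ.range
    have hfs : FaithfulSMul ℂ S' := (faithfulSMul_iff_algebraMap_injective ℂ S').2
      (algebraMap ℂ S').injective
    have hfs2 : FaithfulSMul S' K := (faithfulSMul_iff_algebraMap_injective S' K).2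
      Subtype.val_injective
    have hmem : ∀ f, Φ f ∈ S' := fun f => ⟨f, rfl⟩
    have halg0 : ∀ f, IsAlgebraic S' (Φ f) := fun f =>
      isAlgebraic_algebraMap (A := K) (⟨Φ f, hmem f⟩ : S')
    have hs : ∀ i, IsAlgebraic S' (s i) := fun i => by
      have h1 := halg0 (X (Sum.inl i))
      rwa [show Φ (X (Sum.inl i)) = s i from aeval_X _ _] at h1
    have ht' : ∀ i, IsAlgebraic S' (t i) := fun i => by
      have h1 := halg0 (X (Sum.inr i))
      rwa [show Φ (X (Sum.inr i)) = t i from aeval_X _ _] at h1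
    have hint : ∀ z : ℤ, IsAlgebraic S' (z : K) := fun z => by
      have h1 := isAlgebraic_algebraMap (A := K) (z : S')
      rwa [map_intCast] at h1
    have hzpow : ∀ (y : K) (z : ℤ), IsAlgebraic S' y → IsAlgebraic S' (y ^ z) := by
      intro y z hy
      cases z with
      | ofNat m =>
        rw [Int.ofNat_eq_natCast, zpow_natCast]
        exact hy.pow m
      | negSucc m =>
        rw [zpow_negSucc]
        exact (hy.pow _).inv
    have hsum : ∀ (r : Finset (Fin n)) (g : Fin n → K), (∀ j, IsAlgebraic S' (g j)) →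
        IsAlgebraic S' (∑ j ∈ r, g j) := by
      intro r g hg
      induction r using Finset.induction_on with
      | empty => rw [Finset.sum_empty]; exact isAlgebraic_zero
      | insert a r ha ih => rw [Finset.sum_insert ha]; exact (hg a).add ih
    have hprod : ∀ (r : Finset (Fin n)) (g : Fin n → K), (∀ j, IsAlgebraic S' (g j)) →
        IsAlgebraic S' (∏ j ∈ r, g j) := by
      intro r g hg
      induction r using Finset.induction_on with
      | empty => rw [Finset.prod_empty]; exact isAlgebraic_one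
      | insert a r ha ih => rw [Finset.prod_insert ha]; exact (hg a).mul ih
    have hξa : ∀ i, IsAlgebraic S' (ξ i) := by
      intro i
      rw [← hst1]
      exact hsum _ _ fun j => (hint _).mul (hs j)
    have hηa : ∀ i, IsAlgebraic S' (η i) := by
      intro i
      rw [← hst2]
      exact hprod _ _ fun j => hzpow _ _ (ht' j)
    have hcla : ∀ f, IsAlgebraic S' (cl f) := by
      intro f
      induction f using MvPolynomial.induction_on with
      | C a =>
        have h1 := halg0 (C a)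
        have h2 : Φ (C a) = cl (C a) := by
          rw [← algebraMap_eq, AlgHom.commutes, AlgHom.commutes]
        rwa [h2] at h1
      | add p q hp hq => rw [map_add]; exact hp.add hq
      | mul_X p i hp =>
        rw [map_mul]
        rcases i with i | i
        · exact hp.mul (hξa i)
        · exact hp.mul (hηa i)
    have halg : Algebra.IsAlgebraic S' K := by
      refine ⟨fun y => ?_⟩
      obtain ⟨p, q, -, rfl⟩ := IsFractionRing.div_surjective (A := A) y
      obtain ⟨f, rfl⟩ := Ideal.Quotient.mk_surjective p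
      obtain ⟨g, rfl⟩ := Ideal.Quotient.mk_surjective q
      rw [div_eq_mul_inv]
      exact (hcla f).mul (hcla g).inv
    have h1 : Algebra.trdeg ℂ S' = Algebra.trdeg ℂ K := by
      have h2 := trdeg_add_eq (R := ℂ) (S := S') (A := K)
      rwa [trdeg_eq_zero (R := S') (A := K), add_zero] at h2
    have h3 : Algebra.trdeg ℂ A = Algebra.trdeg ℂ K := by
      have : Algebra.IsAlgebraic A K := by
        refine ⟨fun y => ?_⟩
        obtain ⟨p, q, -, rfl⟩ := IsFractionRing.div_surjective (A := A) y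
        rw [div_eq_mul_inv]
        exact (isAlgebraic_algebraMap p).mul (isAlgebraic_algebraMap q).inv
      have : FaithfulSMul ℂ A := (faithfulSMul_iff_algebraMap_injective ℂ A).2
        (algebraMap ℂ A).injective
      have h2 := trdeg_add_eq (R := ℂ) (S := A) (A := K)
      rwa [trdeg_eq_zero (R := A) (A := K), add_zero] at h2
    have e : (MvPolynomial (Fin n ⊕ Fin n) ℂ ⧸ P') ≃ₐ[ℂ] S' :=
      Ideal.quotientKerEquivRange Φ
    rw [e.trdeg_eq, h1, ← h3]
    exact hdim
  · intro f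
    rw [hP', hΦx, hcl, hF]
    exact hdvd f
  · intro f
    rw [hw', Valuation.zero_iff, hP']
  · intro f hf
    rw [hw', hΦx, hwK]
    exact hwx _ fun h => hf ((hdvd f).1 h)
  · intro i
    rw [hw', show Φ (X (Sum.inr i)) = t i from aeval_X _ _]
    change wK (∏ j, η j ^ B i j) = _
    rw [map_prod]
    have h1 : ∀ j, wK (η j ^ B i j) = (WithZero.exp (-(v j))) ^ B i j := by
      intro j
      rw [map_zpow₀, hwK, hwv]
    rw [Finset.prod_congr rfl fun j _ => h1 j]
    exact chv_exp _ _ _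
  · intro H h hh
    have hstar : ∀ (f : MvPolynomial (Fin n ⊕ Fin n) ℂ) (N : ℕ)
        (g : MvPolynomial (Fin n ⊕ Fin n) ℂ), Φ g = (∏ j, t j) ^ N *
        aeval (Sum.elim (fun i => ∑ j, (B' i j : K) * s j) (fun i => ∏ j, t j ^ B' i j)) f →
        (g ∈ P' ↔ f ∈ P) := by
      intro f N g hg
      rw [hP', hg, hst1, hst2, hclf, mul_eq_zero, ← hcl]
      constructor
      · rintro (h1 | h1)
        · exact absurd h1 (pow_ne_zero _ (Finset.prod_ne_zero_iff.2 fun j _ => ht j))
        · exact h1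
      · exact Or.inr
    obtain ⟨N, g, hg⟩ := chv_star B' h
    obtain ⟨z', hz1, hz2⟩ := H g (fun h1 => hh ((hstar h N g (hg K s t ht)).1 h1))
    refine ⟨fun i => ∑ j, (B' i j : ℂ) * z' j, ?_, ?_⟩
    all_goals
      have hexp : (fun i => ∏ j, Complex.exp (z' j) ^ B' i j) =
          fun i => Complex.exp (∑ j, (B' i j : ℂ) * z' j) := by
        funext i
        rw [Complex.exp_sum]
        refine Finset.prod_congr rfl fun j _ => ?_
        rw [Complex.exp_int_mul]
    · intro f hf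
      obtain ⟨N1, g1, hg1⟩ := chv_star B' f
      have h1 := hz1 g1 ((hstar f N1 g1 (hg1 K s t ht)).2 hf)
      have h2 := hg1 ℂ z' (fun j => Complex.exp (z' j)) (fun j => Complex.exp_ne_zero _)
      rw [hexp, aeval_eq_eval, aeval_eq_eval] at h2
      have h3 : eval (Sum.elim z' fun j => Complex.exp (z' j)) g1 = 0 := h1
      have h4 : (0 : ℂ) = _ := h3.symm.trans h2
      rcases mul_eq_zero.1 h4.symm with h5 | h5
      · exact absurd h5 (pow_ne_zero _ (Finset.prod_ne_zero_iff.2 fun j _ =>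
          Complex.exp_ne_zero _))
      · exact h5
    · intro h1
      have h2 := hg ℂ z' (fun j => Complex.exp (z' j)) (fun j => Complex.exp_ne_zero _)
      rw [hexp, aeval_eq_eval, aeval_eq_eval] at h2
      apply hz2
      exact h2.trans (mul_eq_zero_of_right _ h1)

end Pool.Agent.EXZ
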