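import Pool.Agent.EXP.Fibre

/-!
# EXZ / FibreZ: the curve in the fibre, with a prescribed nonconstant coordinate

PROOF.  `b_i` is transcendental over `k(a)`: `w` is trivial on `ℂ[x]` outside `(F)` (`hwx`), so on everything algebraic over it, but
`w(y_i) = exp (-v_i) ≠ 1` (a relation `∑ c_l(x) y_i^l ∈ P` with `c_l ∉ (F)` for some `l`: the terms with `c_l ∉ (F)` have pairwise different
`w`-values `exp (-l v_i)`, so the sum has a nonzero value, against `w = 0` on `P`). Then the construction of `EXP.fibre_curve` with `j1 = i`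
(`fibre_aux0`): `X i ↦ T` transcendental over `ℂ`, so `X i - C e` is not in the kernel.
-/

set_option autoImplicit false

namespace Pool.Agent.EXZ

open MvPolynomial Topology Pool.Agent.EXL Pool.Agent.EXI Pool.Agent.EXK Pool.Agent.EXP

/-- a family stays independent after adding a transcendental element -/
private lemma fz_option (k : Subfield ℂ) {n : ℕ} {x : Fin n → ℂ} (hx : AlgebraicIndependent k x)
    {y : ℂ} (hy : ¬ IsAlgebraic (Algebra.adjoin k (Set.range x)) y) :
    AlgebraicIndependent k (Fin.snoc x y : Fin (n + 1) → ℂ) := by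
  have h3 : AlgebraicIndependent k (fun o : Option (Fin n) => o.elim y x) :=
    (hx.option_iff_transcendental y).2 hy
  have h4 := h3.comp finSuccEquivLast (finSuccEquivLast (n := n)).injective
  have e : (Fin.snoc x y : Fin (n + 1) → ℂ) =
      (fun o : Option (Fin n) => o.elim y x) ∘ finSuccEquivLast := by
    funext i
    refine Fin.lastCases ?_ (fun j => ?_) i
    · simp
    · simp
  rw [e]
  exact h4

/-- an element is algebraic if the transcendence degree does not allow one more -/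
private lemma fz_alg (k : Subfield ℂ) {n : ℕ} {x : Fin n → ℂ} (hx : AlgebraicIndependent k x)
    {ι : Type} [Fintype ι] (z : ι → ℂ) (hz : td (k : Set ℂ) z ≤ n) {y : ℂ}
    (h : ∀ D ∈ DerOver (k : Set ℂ), (∀ i, D (z i) = 0) → (∀ i, D (x i) = 0) ∧ D y = 0) :
    IsAlgebraic (Algebra.adjoin k (Set.range x)) y := by
  by_contra hna
  have h3 := (ind_iff k _).1 (fz_option k hx hna)
  have h5 : td (k : Set ℂ) (Fin.snoc x y : Fin (n + 1) → ℂ) ≤ td (k : Set ℂ) z := by
    refine rk_le_of_dep _ _ _ ?_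
    intro D hD hzD i
    obtain ⟨h6, h7⟩ := h D hD hzD
    refine Fin.lastCases ?_ (fun j => ?_) i
    · rw [Fin.snoc_last]
      exact h7
    · rw [Fin.snoc_castSucc]
      exact h6 j
  rw [h3] at h5
  omega

private theorem fz_aux0 {n : ℕ} (Ω : Type) [Field Ω] [Algebra ℂ Ω] [IsAlgClosed Ω] (T : Ω)
    (hT : Transcendental ℂ T) (ka : Subfield ℂ) (θ : ka →+* ℂ) (b : Fin n → ℂ)
    (hb : ∀ j, b j ≠ 0)
    (j1 : Fin n) (hbt : AlgebraicIndependent ka (fun _ : Fin 1 => b j1))
    (hbk : ∀ j, IsAlgebraic (Algebra.adjoin ka (Set.range fun _ : Fin 1 => b j1)) (b j)) :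
    ∃ Q : Ideal (MvPolynomial (Fin n) ℂ), Q.IsPrime ∧
      (∀ j : Fin n, (X j : MvPolynomial (Fin n) ℂ) ∉ Q) ∧
      Algebra.trdeg ℂ (MvPolynomial (Fin n) ℂ ⧸ Q) = 1 ∧
      (∀ e : ℂ, (X j1 - C e : MvPolynomial (Fin n) ℂ) ∉ Q) ∧
      ∀ g : MvPolynomial (Fin n) ka, aeval b g = 0 → map θ g ∈ Q := by
  classical
  have hTi : AlgebraicIndependent ℂ (fun _ : Fin 1 => T) :=
    (algebraicIndependent_unique_type_iff (ι := Fin 1)).2 hT
  let t : Fin 1 → ℂ := fun _ => b j1
  let ψ : ka →+* Ω := (algebraMap ℂ Ω).comp θ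
  have hθ : Function.Injective θ := θ.injective
  obtain ⟨κ, hκc, hκt⟩ := base_of_inj t hbt ψ (fun _ => T) (by
    intro f hf h0
    have h1 : aeval (fun _ : Fin 1 => T) (map θ f) = 0 := by
      rw [aeval_def, eval₂_map]
      exact h0
    have h2 := (algebraicIndependent_iff.1 hTi) _ h1
    exact hf ((map_injective _ hθ) (by rw [h2, map_zero])))
  let F : IntermediateField (IntermediateField.adjoin ka (Set.range t)) ℂ :=
    IntermediateField.adjoin (IntermediateField.adjoin ka (Set.range t)) (Set.range b)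
  have hle := IntermediateField.algebra_adjoin_le_adjoin ka (Set.range t)
  have hfd : FiniteDimensional (IntermediateField.adjoin ka (Set.range t)) F := by
    refine IntermediateField.finiteDimensional_adjoin ?_
    rintro x ⟨j, rfl⟩
    have h2 : IsAlgebraic (IntermediateField.adjoin ka (Set.range t)) (b j) := by
      obtain ⟨p, hp0, hp⟩ := hbk j
      refine ⟨p.map (Subalgebra.inclusion hle).toRingHom,
        (Polynomial.map_ne_zero_iff (Subalgebra.inclusion_injective hle)).2 hp0, ?_⟩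
      rw [Polynomial.aeval_def, Polynomial.eval₂_map]
      exact hp
    exact h2.isIntegral
  let _ : Algebra (IntermediateField.adjoin ka (Set.range t)) Ω := κ.toAlgebra
  have hint : Algebra.IsAlgebraic (IntermediateField.adjoin ka (Set.range t)) F :=
    Algebra.IsAlgebraic.of_finite _ _
  let φ : F →ₐ[IntermediateField.adjoin ka (Set.range t)] Ω := IsAlgClosed.lift
  let bF : Fin n → F := fun j => ⟨b j, IntermediateField.subset_adjoin _ _ ⟨j, rfl⟩⟩
  let β : Fin n → Ω := fun j => φ (bF j)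
  have hβt : β j1 = T := by
    have h1 : bF j1 = algebraMap (IntermediateField.adjoin ka (Set.range t)) F
        ⟨t 0, IntermediateField.subset_adjoin ka _ ⟨0, rfl⟩⟩ := rfl
    change φ (bF j1) = T
    rw [h1, φ.commutes]
    exact hκt 0
  let ιF : ka →+* F := (algebraMap (IntermediateField.adjoin ka (Set.range t)) F).comp
    (algebraMap ka (IntermediateField.adjoin ka (Set.range t)))
  have hφc : ∀ c : ka, φ (ιF c) = ψ c := by
    intro c
    change φ (algebraMap (IntermediateField.adjoin ka (Set.range t)) F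
      (algebraMap ka (IntermediateField.adjoin ka (Set.range t)) c)) = _
    rw [φ.commutes]
    exact hκc c
  -- relations over `ka` are transported by `φ`
  have hrel : ∀ {ι : Type} (z : ι → F) (f : MvPolynomial ι ka),
      aeval (fun i => (z i : ℂ)) f = 0 → aeval (fun i => φ (z i)) (map θ f) = 0 := by
    intro ι z f hf
    have h1 : ((eval₂ ιF z f : F) : ℂ) = aeval (fun i => (z i : ℂ)) f := by
      have h3 := MvPolynomial.eval₂_comp_left F.subtype ιF z f
      exact h3
    have h2 : eval₂ ιF z f = 0 := Subtype.ext (h1.trans hf)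
    have h4 := MvPolynomial.eval₂_comp_left φ.toRingHom ιF z f
    have h5 : φ.toRingHom.comp ιF = ψ := RingHom.ext hφc
    rw [h5, h2, map_zero] at h4
    rw [aeval_def, eval₂_map]
    exact h4.symm
  let Φ : MvPolynomial (Fin n) ℂ →ₐ[ℂ] Ω := aeval β
  let Q : Ideal (MvPolynomial (Fin n) ℂ) := RingHom.ker Φ
  have hQ : Q.IsPrime := RingHom.ker_isPrime Φ
  have hdom : IsDomain (MvPolynomial (Fin n) ℂ ⧸ Q) := (Ideal.Quotient.isDomain_iff_prime Q).2 hQ
  refine ⟨Q, hQ, ?_, ?_, ?_, ?_⟩
  · intro j hj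
    have h1 : Φ (X j) = 0 := hj
    have h2 : β j = 0 := by
      rw [← h1]
      exact (aeval_X _ _).symm
    have h3 : bF j = 0 := (map_eq_zero φ).1 h2
    exact hb j (congrArg Subtype.val h3)
  · -- transcendence degree
    let ι : (MvPolynomial (Fin n) ℂ ⧸ Q) →ₐ[ℂ] Ω := Ideal.kerLiftAlg Φ
    have hι : Function.Injective ι := Ideal.kerLiftAlg_injective Φ
    have hιX : ∀ j, ι (Ideal.Quotient.mk Q (X j)) = β j := by
      intro j
      change Ideal.kerLiftAlg Φ (Ideal.Quotient.mk Q (X j)) = β j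
      rw [Ideal.kerLiftAlg_mk]
      exact aeval_X _ _
    have hA : AlgebraicIndependent ℂ (fun _ : Fin 1 => Ideal.Quotient.mk Q (X j1)) := by
      apply AlgebraicIndependent.of_comp ι
      have : (ι ∘ fun _ : Fin 1 => Ideal.Quotient.mk Q (X j1)) = fun _ : Fin 1 => T := by
        funext _
        rw [Function.comp_apply, hιX, hβt]
      rw [this]
      exact hTi
    have hB : ∀ i : Fin n, IsAlgebraic (Algebra.adjoin ℂ
        (Set.range fun _ : Fin 1 => Ideal.Quotient.mk Q (X j1))) (Ideal.Quotient.mk Q (X i)) := by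
      intro i
      by_contra hna
      have h1 : AlgebraicIndependent ℂ (fun o : Option (Fin 1) =>
          o.elim (Ideal.Quotient.mk Q (X i)) fun _ : Fin 1 => Ideal.Quotient.mk Q (X j1)) :=
        (hA.option_iff_transcendental _).2 hna
      have h2 := h1.map' (f := ι) hι
      have h3 : (ι ∘ fun o : Option (Fin 1) =>
          o.elim (Ideal.Quotient.mk Q (X i)) fun _ : Fin 1 => Ideal.Quotient.mk Q (X j1)) =
          fun o : Option (Fin 1) => φ (o.elim (bF i) fun _ : Fin 1 => bF j1) := by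
        funext o
        cases o with
        | none => exact hιX i
        | some l => exact hιX j1
      rw [h3] at h2
      have h4 : ¬ AlgebraicIndependent ka
          (fun o : Option (Fin 1) => o.elim (b i) (fun _ : Fin 1 => b j1)) := by
        intro h5
        exact ((hbt.option_iff_transcendental (b i)).1 h5) (hbk i)
      apply h4
      rw [algebraicIndependent_iff]
      intro f hf
      have h6 : aeval (fun o : Option (Fin 1) =>
          ((o.elim (bF i) (fun _ : Fin 1 => bF j1) : F) : ℂ)) f = 0 := by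
        rw [← hf]
        congr 2
        funext o
        cases o <;> rfl
      have h7 := hrel _ f h6
      have h8 := (algebraicIndependent_iff.1 h2) _ h7
      exact (map_injective _ hθ) (by rw [h8, map_zero])
    have hC : Algebra.IsAlgebraic (Algebra.adjoin ℂ
        (Set.range fun _ : Fin 1 => Ideal.Quotient.mk Q (X j1))) (MvPolynomial (Fin n) ℂ ⧸ Q) := by
      refine ⟨fun q => ?_⟩
      obtain ⟨f, rfl⟩ := Ideal.Quotient.mk_surjective q
      have h1 : ∀ f : MvPolynomial (Fin n) ℂ, Ideal.Quotient.mk Q f ∈ Subalgebra.algebraicClosure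
          (Algebra.adjoin ℂ (Set.range fun _ : Fin 1 => Ideal.Quotient.mk Q (X j1)))
          (MvPolynomial (Fin n) ℂ ⧸ Q) := by
        intro f
        induction f using MvPolynomial.induction_on with
        | C a =>
          rw [Subalgebra.mem_algebraicClosure]
          exact isAlgebraic_algebraMap (algebraMap ℂ (Algebra.adjoin ℂ
            (Set.range fun _ : Fin 1 => Ideal.Quotient.mk Q (X j1))) a)
        | add f g hf hg =>
          rw [map_add]
          exact add_mem hf hg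
        | mul_X f i hf =>
          rw [map_mul]
          exact mul_mem hf (hB i)
      exact h1 f
    have hD := hA.isTranscendenceBasis_iff_isAlgebraic.2 hC
    have hE := hD.cardinalMk_eq_trdeg
    rw [← hE, Cardinal.mk_fintype, Fintype.card_fin]
    norm_num
  · intro e he
    have h1 : Φ (X j1 - C e) = 0 := he
    rw [map_sub] at h1
    have h2 : Φ (X j1) = T := (aeval_X _ _).trans hβt
    have h3 : Φ (C e) = algebraMap ℂ Ω e := aeval_C _ _
    rw [h2, h3, sub_eq_zero] at h1
    exact hT (by rw [h1]; exact isAlgebraic_algebraMap e)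
  · intro g hg
    have h1 := hrel bF g hg
    exact h1

private theorem fz_omega : ∃ (Ω : Type) (_ : Field Ω) (_ : Algebra ℂ Ω) (_ : IsAlgClosed Ω)
    (T : Ω), Transcendental ℂ T :=
  ⟨AlgebraicClosure (RatFunc ℂ), inferInstance, inferInstance, inferInstance,
    algebraMap (RatFunc ℂ) (AlgebraicClosure (RatFunc ℂ)) RatFunc.X,
    (transcendental_algebraMap_iff (algebraMap (RatFunc ℂ)
      (AlgebraicClosure (RatFunc ℂ))).injective).2 RatFunc.transcendental_X⟩

private theorem fz_le {k ka : Subfield ℂ} (S1 : Subalgebra k ℂ) (S2 : Subalgebra ka ℂ)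
    (h : ∀ y ∈ S1, y ∈ S2) (x : ℂ) (hx : IsAlgebraic S1 x) : IsAlgebraic S2 x := by
  let g : S1 →+* S2 :=
    { toFun := fun y => ⟨y, h y y.2⟩
      map_one' := rfl
      map_mul' := fun _ _ => rfl
      map_zero' := rfl
      map_add' := fun _ _ => rfl }
  have hg : Function.Injective g := by
    intro y z hyz
    exact Subtype.ext (congrArg (fun w : S2 => (w : ℂ)) hyz)
  obtain ⟨q, hq0, hq⟩ := hx
  refine ⟨q.map g, (Polynomial.map_ne_zero_iff hg).2 hq0, ?_⟩
  rw [Polynomial.aeval_def, Polynomial.eval₂_map]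
  have : (algebraMap S2 ℂ).comp g = algebraMap S1 ℂ := RingHom.ext fun _ => rfl
  rw [this]
  exact hq

private theorem fz_adj {k ka : Subfield ℂ} (h : ∀ c ∈ k, c ∈ ka) (Y : Set ℂ)
    (S2 : Subalgebra ka ℂ) (hY : ∀ y ∈ Y, y ∈ S2) (y : ℂ) (hy : y ∈ Algebra.adjoin k Y) :
    y ∈ S2 := by
  induction hy using Algebra.adjoin_induction with
  | mem y hy => exact hY y hy
  | algebraMap r => exact S2.algebraMap_mem ⟨(r : ℂ), h _ r.2⟩
  | add y z _ _ h1 h2 => exact add_mem h1 h2
  | mul y z _ _ h1 h2 => exact mul_mem h1 h2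

/-- the valuation of a polynomial in `y` with coefficients of value `0` or `1` -/
private theorem fz_val {R : Type} [CommRing R]
    (w : Valuation R (WithZero (Multiplicative ℤ))) (S : Finset ℕ) (g : ℕ → R) (y : R) (v : ℤ)
    (hv : v ≠ 0) (hy : w y = WithZero.exp (-v)) (hg : ∀ l ∈ S, w (g l) = 0 ∨ w (g l) = 1)
    (hne : ∃ l ∈ S, w (g l) = 1) : w (∑ l ∈ S, g l * y ^ l) ≠ 0 := by
  classical
  obtain ⟨l0, hl0, hmax⟩ := Finset.exists_max_image (S.filter fun l => w (g l) = 1)
    (fun l : ℕ => -((l : ℤ) * v)) (by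
      obtain ⟨l, hl, hl1⟩ := hne
      exact ⟨l, Finset.mem_filter.2 ⟨hl, hl1⟩⟩)
  obtain ⟨hl0S, hl01⟩ := Finset.mem_filter.1 hl0
  have hterm : ∀ l : ℕ, w (g l) = 1 → w (g l * y ^ l) = WithZero.exp (-((l : ℤ) * v)) := by
    intro l hl
    rw [map_mul, map_pow, hl, one_mul, hy, ← WithZero.exp_nsmul]
    congr 1
    rw [nsmul_eq_mul]
    ring
  have h0 : w (g l0 * y ^ l0) ≠ 0 := by
    rw [hterm l0 hl01]
    exact WithZero.exp_ne_zero
  have hlt : ∀ l ∈ S.erase l0, w (g l * y ^ l) < w (g l0 * y ^ l0) := by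
    intro l hl
    obtain ⟨hne', hlS⟩ := Finset.mem_erase.1 hl
    rcases hg l hlS with h | h
    · rw [map_mul, h, zero_mul]
      exact zero_lt_iff.2 h0
    · have h1 := hmax l (Finset.mem_filter.2 ⟨hlS, h⟩)
      rw [hterm l h, hterm l0 hl01, WithZero.exp_lt_exp]
      refine lt_of_le_of_ne h1 ?_
      intro h2
      apply hne'
      have h3 : (l : ℤ) * v = (l0 : ℤ) * v := by linarith
      exact_mod_cast mul_right_cancel₀ hv h3
  rw [← Finset.add_sum_erase S _ hl0S]
  rw [Valuation.map_add_eq_of_lt_left w (Valuation.map_sum_lt w h0 hlt)]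
  exact h0

/-- `b i` is transcendental over `k(a)` -/
private theorem fz_trans {n m : ℕ} (P : Ideal (MvPolynomial (Fin n ⊕ Fin n) ℂ))
    (F : MvPolynomial (Fin n) ℂ)
    (hF : ∀ f : MvPolynomial (Fin n) ℂ, rename Sum.inl f ∈ P ↔ F ∣ f)
    (w : Valuation (MvPolynomial (Fin n ⊕ Fin n) ℂ) (WithZero (Multiplicative ℤ)))
    (hw : ∀ f, w f = 0 ↔ f ∈ P)
    (hwx : ∀ f : MvPolynomial (Fin n) ℂ, ¬ F ∣ f → w (rename Sum.inl f) = 1)
    (v : Fin n → ℤ) (hwv : ∀ j, w (X (Sum.inr j)) = WithZero.exp (-(v j))) (i : Fin n)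
    (hvi : v i ≠ 0) (k : Subfield ℂ) (p : Fin n ⊕ Fin n → ℂ)
    (hp : ∀ f : MvPolynomial (Fin n ⊕ Fin n) k, aeval p f = 0 ↔ map (algebraMap k ℂ) f ∈ P)
    (s : Fin m → Fin n) (hs : AlgebraicIndependent k fun l => p (Sum.inl (s l))) :
    ¬ IsAlgebraic (Algebra.adjoin k (Set.range fun l => p (Sum.inl (s l)))) (p (Sum.inr i)) := by
  classical
  rintro ⟨q, hq0, hq⟩
  obtain ⟨c, hc⟩ : ∃ c : Polynomial (MvPolynomial (Fin m) k),
      c = q.map (hs.aevalEquiv.symm : _ ≃+* _).toRingHom := ⟨_, rfl⟩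
  have hcq : ∀ l, aeval (fun l => p (Sum.inl (s l))) (c.coeff l) = (q.coeff l : ℂ) := by
    intro l
    have h1 : c.coeff l = hs.aevalEquiv.symm (q.coeff l) := by
      rw [hc, Polynomial.coeff_map]
      rfl
    have h2 : hs.aevalEquiv (c.coeff l) = q.coeff l := by rw [h1, AlgEquiv.apply_symm_apply]
    rw [← h2]
    exact (hs.algebraMap_aevalEquiv _).symm
  have hrel : ∑ l ∈ q.support, aeval (fun l => p (Sum.inl (s l))) (c.coeff l) *
      p (Sum.inr i) ^ l = 0 := by
    rw [Polynomial.aeval_eq_sum_range' (n := q.natDegree + 1) (Nat.lt_succ_self _)] at hq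
    rw [← hq]
    symm
    rw [← Finset.sum_subset (s₁ := q.support) (s₂ := Finset.range (q.natDegree + 1))
      Polynomial.supp_subset_range_natDegree_succ]
    · refine Finset.sum_congr rfl fun l _ => ?_
      rw [hcq, Algebra.smul_def]
      rfl
    · intro l _ hl
      rw [Polynomial.notMem_support_iff.1 hl, zero_smul]
  obtain ⟨G, hG⟩ : ∃ G : MvPolynomial (Fin n ⊕ Fin n) k, G = ∑ l ∈ q.support,
      rename (fun l => Sum.inl (s l)) (c.coeff l) * X (Sum.inr i) ^ l := ⟨_, rfl⟩
  have hG0 : aeval p G = 0 := by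
    rw [hG, map_sum, ← hrel]
    refine Finset.sum_congr rfl fun l _ => ?_
    rw [map_mul, map_pow, aeval_X, aeval_rename]
    rfl
  have hGP := (hp G).1 hG0
  have hGm : map (algebraMap k ℂ) G = ∑ l ∈ q.support,
      rename Sum.inl (map (algebraMap k ℂ) (rename s (c.coeff l))) * X (Sum.inr i) ^ l := by
    rw [hG, map_sum]
    refine Finset.sum_congr rfl fun l _ => ?_
    rw [map_mul, map_pow, map_X, ← map_rename, rename_rename]
    rfl
  have hw0 := (hw _).2 hGP
  rw [hGm] at hw0
  have hco : ∀ l, w (rename Sum.inl (map (algebraMap k ℂ) (rename s (c.coeff l)))) = 1 ∨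
      c.coeff l = 0 := by
    intro l
    by_cases h : c.coeff l = 0
    · exact Or.inr h
    · left
      apply hwx
      intro hd
      have h1 := (hF _).2 hd
      rw [← map_rename, rename_rename] at h1
      have h2 := (hp _).2 h1
      rw [aeval_rename] at h2
      exact h ((algebraicIndependent_iff.1 hs) _ h2)
  refine fz_val w q.support _ _ (v i) hvi (hwv i) ?_ ?_ hw0
  · intro l _
    rcases hco l with h | h
    · exact Or.inr h
    · left
      rw [h, map_zero, map_zero, map_zero, map_zero]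
  · obtain ⟨l, hl⟩ := Polynomial.nonempty_support_iff.2 hq0
    refine ⟨l, hl, ?_⟩
    rcases hco l with h | h
    · exact h
    · exfalso
      apply Polynomial.mem_support_iff.1 hl
      have h1 := hcq l
      rw [h, map_zero] at h1
      exact Subtype.ext h1.symm

theorem fibre_curveZ {n : ℕ} (P : Ideal (MvPolynomial (Fin n ⊕ Fin n) ℂ)) (hP : P.IsPrime)
    (hY : ∀ j : Fin n, (X (Sum.inr j) : MvPolynomial (Fin n ⊕ Fin n) ℂ) ∉ P)
    (hdim : Algebra.trdeg ℂ (MvPolynomial (Fin n ⊕ Fin n) ℂ ⧸ P) = n)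
    (F : MvPolynomial (Fin n) ℂ) (hF0 : F ≠ 0)
    (hF : ∀ f : MvPolynomial (Fin n) ℂ, rename Sum.inl f ∈ P ↔ F ∣ f)
    (w : Valuation (MvPolynomial (Fin n ⊕ Fin n) ℂ) (WithZero (Multiplicative ℤ)))
    (hw : ∀ f, w f = 0 ↔ f ∈ P)
    (hwx : ∀ f : MvPolynomial (Fin n) ℂ, ¬ F ∣ f → w (rename Sum.inl f) = 1)
    (v : Fin n → ℤ) (hwv : ∀ j, w (X (Sum.inr j)) = WithZero.exp (-(v j))) (i : Fin n)
    (hvi : v i ≠ 0)
    (k : Subfield ℂ) (hk : (k : Set ℂ).Countable) (p : Fin n ⊕ Fin n → ℂ)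
    (hp : ∀ f : MvPolynomial (Fin n ⊕ Fin n) k, aeval p f = 0 ↔ map (algebraMap k ℂ) f ∈ P)
    (hx : ∀ x : Fin n ⊕ Fin n → ℂ, (∀ f : MvPolynomial (Fin n ⊕ Fin n) k,
      map (algebraMap k ℂ) f ∈ P → aeval x f = 0) → ∀ f ∈ P, eval x f = 0)
    (x : Fin n → ℂ)
    (hxa : ∀ f : MvPolynomial (Fin n) k, aeval x f = 0 ↔ aeval (fun j => p (Sum.inl j)) f = 0) :
    ∃ Q : Ideal (MvPolynomial (Fin n) ℂ), Q.IsPrime ∧
      (∀ j : Fin n, (X j : MvPolynomial (Fin n) ℂ) ∉ Q) ∧
      Algebra.trdeg ℂ (MvPolynomial (Fin n) ℂ ⧸ Q) = 1 ∧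
      (∀ e : ℂ, (X i - C e : MvPolynomial (Fin n) ℂ) ∉ Q) ∧
      ∀ w : Fin n → ℂ, (∀ g ∈ Q, eval w g = 0) → ∀ f ∈ P, eval (Sum.elim x w) f = 0 := by
  classical
  -- `n = m + 1`
  cases n with
  | zero =>
    exfalso
    apply hP.ne_top
    rw [Ideal.eq_top_iff_one]
    have h0 := eq_C_of_isEmpty F
    have hc : coeff 0 F ≠ 0 := by
      intro h1
      apply hF0
      rw [h0, h1, C_0]
    have h1 : F ∣ 1 := by
      refine ⟨C (coeff 0 F)⁻¹, ?_⟩
      conv_rhs => rw [h0]
      rw [coeff_C, if_pos rfl, ← C_mul, mul_inv_cancel₀ hc, C_1]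
    have h2 := (hF 1).2 h1
    rwa [map_one] at h2
  | succ m =>
  obtain ⟨a, ha⟩ : ∃ a : Fin (m + 1) → ℂ, a = fun j => p (Sum.inl j) := ⟨_, rfl⟩
  obtain ⟨b, hbdef⟩ : ∃ b : Fin (m + 1) → ℂ, b = fun j => p (Sum.inr j) := ⟨_, rfl⟩
  have hpe : Sum.elim a b = p := by
    funext i
    cases i with
    | inl j => rw [Sum.elim_inl, ha]
    | inr j => rw [Sum.elim_inr, hbdef]
  have hb : ∀ j, b j ≠ 0 := by
    intro j h0
    apply hY j
    have h1 := (hp (X (Sum.inr j))).1 (by rw [aeval_X, ← hpe]; exact h0)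
    rwa [map_X] at h1
  have hta : td (k : Set ℂ) a = m := by rw [ha]; exact td_fibre P hP F hF0 hF k hk p hp hx
  have htd : td (k : Set ℂ) (Sum.elim a b) = m + 1 := by
    rw [hpe]
    exact td_of_trdeg P hP k hk p hp hx (m + 1) hdim
  obtain ⟨s, hs, ht, hba⟩ : ∃ s : Fin m → Fin (m + 1), AlgebraicIndependent k (fun i => a (s i)) ∧
      AlgebraicIndependent k (Fin.snoc (fun i => a (s i)) (b i) : Fin (m + 1) → ℂ) ∧
      ∀ j, IsAlgebraic (Algebra.adjoin k
        (Set.range (Fin.snoc (fun i => a (s i)) (b i) : Fin (m + 1) → ℂ))) (b j) := by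
    obtain ⟨s, hs⟩ := td_basis k a hta
    have hs' : AlgebraicIndependent k fun l => p (Sum.inl (s l)) := by
      rw [ha] at hs
      exact hs
    have h1 : ¬ IsAlgebraic (Algebra.adjoin k (Set.range fun l => a (s l))) (b i) := by
      have := fz_trans P F hF w hw hwx v hwv i hvi k p hp s hs'
      rw [ha, hbdef]
      exact this
    have ht := fz_option k hs h1
    refine ⟨s, hs, ht, fun j => ?_⟩
    refine fz_alg k ht (Sum.elim a b) htd.le fun D _ hz => ⟨fun l => ?_, hz (Sum.inr j)⟩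
    refine Fin.lastCases ?_ (fun l => ?_) l
    · rw [Fin.snoc_last]
      exact hz (Sum.inr i)
    · rw [Fin.snoc_castSucc]
      exact hz (Sum.inl (s l))
  rw [← ha] at hxa
  obtain ⟨τ, hτk, hτa⟩ := exists_aut k hk a x (fun f => (hxa f).symm)
  obtain ⟨ka, hka⟩ : ∃ ka : Subfield ℂ, ka = Subfield.closure ((k : Set ℂ) ∪ Set.range a) :=
    ⟨_, rfl⟩
  have hkka : ∀ c ∈ k, c ∈ ka := fun c hc => by rw [hka]; exact Subfield.subset_closure (Or.inl hc)
  have haka : ∀ j, a j ∈ ka := fun j => by rw [hka]; exact Subfield.subset_closure (Or.inr ⟨j, rfl⟩)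
  -- `b i` is transcendental over `ka`
  have hbt : AlgebraicIndependent ka (fun _ : Fin 1 => b i) := by
    refine (algebraicIndependent_unique_type_iff (ι := Fin 1)).2 ?_
    intro halg
    have h1 : td (k : Set ℂ) (Fin.snoc (fun i => a (s i)) (b i) : Fin (m + 1) → ℂ) ≤
        td (k : Set ℂ) a := by
      refine rk_le_of_dep _ _ _ ?_
      intro D hD hz i'
      have hDka : D ∈ DerOver (ka : Set ℂ) := by
        rw [hka, derOver_closure]
        intro y hy
        rcases hy with hy | ⟨j, rfl⟩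
        · exact hD y hy
        · exact hz j
      refine Fin.lastCases ?_ (fun j => ?_) i'
      · rw [Fin.snoc_last]
        exact derOver_algebraic ka D hDka _ halg
      · rw [Fin.snoc_castSucc]
        exact hz _
    rw [(ind_iff k _).1 ht, hta] at h1
    omega
  -- the other `b j` are algebraic over `ka (b i)`
  have hbk : ∀ j, IsAlgebraic (Algebra.adjoin ka (Set.range fun _ : Fin 1 => b i)) (b j) := by
    intro j
    refine fz_le _ _ (fun y hy => fz_adj hkka _ _ ?_ y hy) _ (hba j)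
    rintro y ⟨i', rfl⟩
    refine Fin.lastCases ?_ (fun j => ?_) i'
    · rw [Fin.snoc_last]
      exact Algebra.subset_adjoin ⟨0, rfl⟩
    · rw [Fin.snoc_castSucc]
      exact (Algebra.adjoin ka (Set.range fun _ : Fin 1 => b i)).algebraMap_mem
        ⟨a (s j), haka _⟩
  let θ : ka →+* ℂ := (τ : ℂ →+* ℂ).comp ka.subtype
  obtain ⟨Ω, i1, i2, i3, T, hT⟩ := fz_omega
  obtain ⟨Q, hQ, hQY, hQd, hQe, hQg⟩ := fz_aux0 Ω T hT ka θ b hb i hbt hbk
  refine ⟨Q, hQ, hQY, hQd, hQe, ?_⟩
  clear hw
  intro w hw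
  apply hx
  intro f hf
  have hf0 := (hp f).2 hf
  -- `g = f(a, Y)`
  let incl : k →+* ka := Subfield.inclusion hkka
  obtain ⟨g, hg⟩ : ∃ g : MvPolynomial (Fin (m + 1)) ka, g = eval₂ (C.comp incl)
    (Sum.elim (fun j => C (⟨a j, haka j⟩ : ka)) X) f := ⟨_, rfl⟩
  have h1 : aeval b g = aeval p f := by
    rw [hg, ← coe_eval₂Hom, ← AlgHom.coe_toRingHom, ← RingHom.comp_apply]
    rw [aeval_def]
    have : ((aeval b : MvPolynomial (Fin (m + 1)) ka →ₐ[ka] ℂ).toRingHom).comp
        (eval₂Hom (C.comp incl) (Sum.elim (fun j => C (⟨a j, haka j⟩ : ka)) X)) =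
        eval₂Hom (algebraMap k ℂ) p := by
      apply MvPolynomial.ringHom_ext
      · intro r
        rw [RingHom.comp_apply, eval₂Hom_C, eval₂Hom_C, RingHom.comp_apply]
        exact aeval_C _ _
      · intro i
        rw [RingHom.comp_apply, eval₂Hom_X', eval₂Hom_X', ← hpe]
        cases i with
        | inl j => exact aeval_C _ _
        | inr j => exact aeval_X _ _
    exact congrArg (fun h => h f) this
  have h2 := hQg g (h1.trans hf0)
  have h3 := hw _ h2
  have h4 : eval w (map θ g) = aeval (Sum.elim x w) f := by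
    rw [hg, ← coe_eval₂Hom, ← RingHom.comp_apply, ← RingHom.comp_apply, aeval_def]
    have : ((eval w).comp (map θ)).comp
        (eval₂Hom (C.comp incl) (Sum.elim (fun j => C (⟨a j, haka j⟩ : ka)) X)) =
        eval₂Hom (algebraMap k ℂ) (Sum.elim x w) := by
      apply MvPolynomial.ringHom_ext
      · intro r
        rw [RingHom.comp_apply, eval₂Hom_C, eval₂Hom_C, RingHom.comp_apply, RingHom.comp_apply,
          map_C, eval_C]
        exact hτk r r.2
      · intro i
        rw [RingHom.comp_apply, eval₂Hom_X', eval₂Hom_X']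
        cases i with
        | inl j =>
          rw [Sum.elim_inl, Sum.elim_inl, RingHom.comp_apply, map_C, eval_C]
          exact hτa j
        | inr j =>
          rw [Sum.elim_inr, Sum.elim_inr, RingHom.comp_apply, map_X, eval_X]
    exact congrArg (fun h => h f) this
  rw [← h4]
  exact h3

end Pool.Agent.EXZ
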