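import Mathlib

/-!
# EXZ / Lat: coordinates adapted to the periods of a form

PROOF.  `Λ` = the integer vectors `u` with `G(x + u) = G(x)` for all `x`: a subgroup of `ℤ^n`, saturated (`G(x + t u)` is a polynomial in
`t`, constant on the multiples of `l`, so constant; `l u ∈ Λ → u ∈ Λ`), so `ℤ^n / Λ` is free and there is a basis `g_1, .., g_n` of `ℤ^n` with
`Λ = span (g_{N+1}, .., g_n)`. `B'` = matrix with columns `g_j` (so `x = B' x'`), `B = B'⁻¹`. `G(B' x')` does not depend on
`x'_{N+1}, .., x'_n`: it is `rename (castLE)` of `G'`; an integer period `u'` of `G'` gives the period `B' (u', 0)` of `G`, in `Λ`, so `u' = 0`.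
`N ≥ 1` because `0 ≠ G` homogeneous of positive degree. If `N = 1`, `G = e ((first row of B) · x)^r`, irreducible, so `r = 1`: against `hlin`.
-/

set_option autoImplicit false

namespace Pool.Agent.EXZ

open MvPolynomial

/-- translations which do not change `G` -/
private def per {n : ℕ} (G : MvPolynomial (Fin n) ℂ) : AddSubmonoid (Fin n → ℂ) where
  carrier := {w | ∀ x : Fin n → ℂ, eval (x + w) G = eval x G}
  zero_mem' := by intro x; rw [add_zero]
  add_mem' := by
    intro a b ha hb x
    rw [← add_assoc, hb, ha]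

private theorem lat_eval {m n : ℕ} (g : Fin n → MvPolynomial (Fin m) ℂ) (G : MvPolynomial (Fin n) ℂ)
    (y : Fin m → ℂ) : eval y (aeval g G) = eval (fun i => eval y (g i)) G := by
  rw [← coe_aeval_eq_eval, ← coe_aeval_eq_eval]
  have h : (aeval y).comp (aeval g) = aeval (fun i => (aeval y : _ →ₐ[ℂ] ℂ) (g i)) :=
    comp_aeval g (aeval y)
  exact AlgHom.congr_fun h G

private theorem per_smul {n : ℕ} {G : MvPolynomial (Fin n) ℂ} {w : Fin n → ℂ} (hw : w ∈ per G)
    (t : ℂ) : t • w ∈ per G := by
  intro x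
  set p : Polynomial ℂ :=
    aeval (fun j => Polynomial.C (x j) + Polynomial.C (w j) * Polynomial.X) G -
      Polynomial.C (eval x G) with hp
  have hev : ∀ s : ℂ, p.eval s = eval (x + s • w) G - eval x G := by
    intro s
    rw [hp, Polynomial.eval_sub, Polynomial.eval_C]
    congr 1
    have h : (Polynomial.aeval s).comp
        (aeval (fun j => Polynomial.C (x j) + Polynomial.C (w j) * Polynomial.X)) =
        (aeval (x + s • w) : MvPolynomial (Fin n) ℂ →ₐ[ℂ] ℂ) := by
      apply algHom_ext
      intro j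
      rw [AlgHom.comp_apply, aeval_X, aeval_X]
      simp only [map_add, map_mul, Polynomial.aeval_C, Polynomial.aeval_X, Pi.add_apply,
        Pi.smul_apply, smul_eq_mul, Algebra.algebraMap_self, RingHom.id_apply]
      ring
    have h2 := AlgHom.congr_fun h G
    rw [AlgHom.comp_apply, Polynomial.coe_aeval_eq_eval] at h2
    refine h2.trans ?_
    rw [← coe_aeval_eq_eval]
    rfl
  have hz : p = 0 := by
    refine Polynomial.eq_zero_of_infinite_isRoot p (Set.Infinite.mono ?_
      (Set.infinite_range_of_injective (Nat.cast_injective (R := ℂ))))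
    rintro _ ⟨k, rfl⟩
    show p.IsRoot (k : ℂ)
    rw [Polynomial.IsRoot, hev]
    have h : ((k : ℂ) • w) ∈ per G := by
      rw [Nat.cast_smul_eq_nsmul]
      exact AddSubmonoid.nsmul_mem _ hw k
    rw [h x, sub_self]
  have h3 := hev t
  rw [hz, Polynomial.eval_zero] at h3
  exact sub_eq_zero.1 h3.symm

private theorem lat_smul {n r : ℕ} {P : MvPolynomial (Fin n) ℂ} (hP : P.IsHomogeneous r)
    (w : Fin n → ℂ) (t : ℂ) : eval (t • w) P = t ^ r * eval w P := by
  rw [eval_eq, eval_eq, Finset.mul_sum]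
  refine Finset.sum_congr rfl fun d hd => ?_
  have h1 : ∑ i ∈ d.support, d i = r := by
    have h2 := hP (mem_support_iff.1 hd)
    rw [Finsupp.weight_apply] at h2
    simpa [Finsupp.sum] using h2
  simp_rw [Pi.smul_apply, smul_eq_mul, mul_pow]
  rw [Finset.prod_mul_distrib, Finset.prod_pow_eq_pow_sum, h1]
  ring

/-- the lattice of integer periods -/
private def lat {n : ℕ} (G : MvPolynomial (Fin n) ℂ) : Submodule ℤ (Fin n → ℤ) where
  carrier := {u | (fun j => (u j : ℂ)) ∈ per G}
  zero_mem' := by
    have h : (fun j : Fin n => (((0 : Fin n → ℤ) j : ℤ) : ℂ)) = 0 := by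
      funext j
      simp
    show (fun j : Fin n => (((0 : Fin n → ℤ) j : ℤ) : ℂ)) ∈ per G
    rw [h]
    exact (per G).zero_mem
  add_mem' := by
    intro a b ha hb
    have h : (fun j : Fin n => (((a + b) j : ℤ) : ℂ)) = (fun j => (a j : ℂ)) + fun j => (b j : ℂ) := by
      funext j
      simp
    show (fun j : Fin n => (((a + b) j : ℤ) : ℂ)) ∈ per G
    rw [h]
    exact (per G).add_mem ha hb
  smul_mem' := by
    intro c a ha
    have h : (fun j : Fin n => (((c • a) j : ℤ) : ℂ)) = (c : ℂ) • fun j => (a j : ℂ) := by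
      funext j
      simp
    show (fun j : Fin n => (((c • a) j : ℤ) : ℂ)) ∈ per G
    rw [h]
    exact per_smul ha _

private theorem mem_lat {n : ℕ} {G : MvPolynomial (Fin n) ℂ} {u : Fin n → ℤ} :
    u ∈ lat G ↔ (fun j => (u j : ℂ)) ∈ per G := Iff.rfl

/-- a basis adapted to the lattice of periods -/
private theorem exists_basis {n : ℕ} (G : MvPolynomial (Fin n) ℂ) :
    ∃ (N : ℕ) (_ : N ≤ n) (b : Module.Basis (Fin n) ℤ (Fin n → ℤ)),
      (∀ j : Fin n, N ≤ j.1 → b j ∈ lat G) ∧
      ∀ v ∈ lat G, ∀ j : Fin n, j.1 < N → b.repr v j = 0 := by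
  classical
  obtain ⟨k, S⟩ := Submodule.smithNormalForm (Pi.basisFun ℤ (Fin n)) (lat G)
  have ha : ∀ i, S.a i ≠ 0 := by
    intro i h0
    have h1 := S.snf i
    rw [h0, zero_smul] at h1
    exact S.bN.ne_zero i (Subtype.ext h1)
  have hf : ∀ i, S.bM (S.f i) ∈ lat G := by
    intro i
    have h1 : (S.bN i : Fin n → ℤ) ∈ lat G := (S.bN i).2
    rw [S.snf i] at h1
    rw [mem_lat] at h1 ⊢
    have h2 := per_smul h1 ((S.a i : ℂ)⁻¹)
    have h3 : ((S.a i : ℂ)⁻¹ • fun j => (((S.a i • S.bM (S.f i)) j : ℤ) : ℂ)) =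
        fun j => ((S.bM (S.f i) j : ℤ) : ℂ) := by
      funext j
      have h4 : (S.a i : ℂ) ≠ 0 := by exact_mod_cast ha i
      simp only [Pi.smul_apply, smul_eq_mul, Int.cast_mul]
      rw [← mul_assoc, inv_mul_cancel₀ h4, one_mul]
    rw [h3] at h2
    exact h2
  set N := Fintype.card {j : Fin n // j ∉ Set.range S.f} with hN
  have hNn : N ≤ n := by
    have := Fintype.card_subtype_le (fun j : Fin n => j ∉ Set.range S.f)
    rwa [Fintype.card_fin] at this
  let e : {j : Fin n // j ∉ Set.range S.f} ≃ {j : Fin n // j.1 < N} :=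
    (Fintype.equivFin _).trans (Fin.castLEOrderIso hNn).toEquiv
  refine ⟨N, hNn, S.bM.reindex e.extendSubtype, ?_, ?_⟩
  · intro j hj
    rw [Module.Basis.reindex_apply]
    by_contra hcon
    have h1 : e.extendSubtype.symm j ∉ Set.range S.f := by
      rintro ⟨i, hi⟩
      rw [← hi] at hcon
      exact hcon (hf i)
    have h2 := e.extendSubtype_mem _ h1
    rw [Equiv.apply_symm_apply] at h2
    omega
  · intro v hv j hj
    rw [Module.Basis.repr_reindex_apply]
    have h1 : e.extendSubtype.symm j ∉ Set.range S.f := by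
      intro h1
      have h2 := e.extendSubtype_not_mem _ (not_not.2 h1)
      rw [Equiv.apply_symm_apply] at h2
      exact h2 hj
    exact S.repr_eq_zero_of_notMem_range ⟨v, hv⟩ h1

theorem adapted {n : ℕ} (G : MvPolynomial (Fin n) ℂ) (r : ℕ) (hGh : G.IsHomogeneous r)
    (hG : Irreducible G)
    (hlin : ∀ (e : ℂ) (a : Fin n → ℤ), G ≠ C e * ∑ j, (a j : ℂ) • (X j : MvPolynomial (Fin n) ℂ)) :
    ∃ (N : ℕ) (hN : N ≤ n) (B B' : Matrix (Fin n) (Fin n) ℤ) (G' : MvPolynomial (Fin N) ℂ),
      2 ≤ N ∧ B * B' = 1 ∧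
      aeval (fun i => ∑ j, (B' i j : ℂ) • (X j : MvPolynomial (Fin n) ℂ)) G =
        rename (Fin.castLE hN) G' ∧
      ∀ v : Fin N → ℤ, v ≠ 0 → ∃ x : Fin N → ℂ, eval (fun l => x l + v l) G' ≠ eval x G' := by
  classical
  obtain ⟨N, hN, b, hb1, hb2⟩ := exists_basis G
  set B' : Matrix (Fin n) (Fin n) ℤ := (Pi.basisFun ℤ (Fin n)).toMatrix b with hB'
  set B : Matrix (Fin n) (Fin n) ℤ := b.toMatrix (Pi.basisFun ℤ (Fin n)) with hB
  have hBB' : B * B' = 1 := Module.Basis.toMatrix_mul_toMatrix_flip _ _
  have hB'B : B' * B = 1 := mul_eq_one_comm.1 hBB'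
  have hB'e : ∀ i j, B' i j = b j i := fun i j => by
    rw [hB', Module.Basis.toMatrix_apply]
    simp
  set M' : Matrix (Fin n) (Fin n) ℂ := B'.map (Int.castRingHom ℂ) with hM'
  set M : Matrix (Fin n) (Fin n) ℂ := B.map (Int.castRingHom ℂ) with hM
  have hM'M : M' * M = 1 := by
    rw [hM', hM, ← Matrix.map_mul, hB'B]
    exact Matrix.map_one _ (map_zero _) (map_one _)
  have hback : ∀ x : Fin n → ℂ, M'.mulVec (M.mulVec x) = x := by
    intro x
    rw [Matrix.mulVec_mulVec, hM'M, Matrix.one_mulVec]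
  have hM'v : ∀ z : Fin n → ℂ, M'.mulVec z = ∑ j, z j • fun i => ((b j i : ℤ) : ℂ) := by
    intro z
    funext i
    rw [Finset.sum_apply]
    simp only [Matrix.mulVec, dotProduct, Pi.smul_apply, smul_eq_mul]
    refine Finset.sum_congr rfl fun j _ => ?_
    rw [hM', Matrix.map_apply, hB'e, mul_comm]
    rfl
  have hper : ∀ z : Fin n → ℂ, (∀ j : Fin n, j.1 < N → z j = 0) → M'.mulVec z ∈ per G := by
    intro z hz
    rw [hM'v]
    refine AddSubmonoid.sum_mem _ fun j _ => ?_
    by_cases hj : j.1 < N
    · rw [hz j hj, zero_smul]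
      exact (per G).zero_mem
    · exact per_smul (mem_lat.1 (hb1 j (not_lt.1 hj))) _
  -- the polynomial in the new coordinates
  set G1 : MvPolynomial (Fin n) ℂ :=
    aeval (fun i => ∑ j, (B' i j : ℂ) • (X j : MvPolynomial (Fin n) ℂ)) G with hG1
  have hG1e : ∀ y : Fin n → ℂ, eval y G1 = eval (M'.mulVec y) G := by
    intro y
    rw [hG1, lat_eval]
    congr 2
    funext i
    simp [Matrix.mulVec, dotProduct, hM', smul_eval]
  have hdep : ∀ y y' : Fin n → ℂ, (∀ j : Fin n, j.1 < N → y j = y' j) →
      eval y G1 = eval y' G1 := by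
    intro y y' h
    have h1 := hper (y' - y) (fun j hj => by rw [Pi.sub_apply, h j hj, sub_self])
    rw [hG1e, hG1e, ← h1 (M'.mulVec y), ← Matrix.mulVec_add, add_sub_cancel]
  set G' : MvPolynomial (Fin N) ℂ :=
    aeval (fun j : Fin n => if h : j.1 < N then (X ⟨j.1, h⟩ : MvPolynomial (Fin N) ℂ) else 0) G1
    with hG'
  have hG'e : ∀ x : Fin N → ℂ, eval x G' =
      eval (fun j : Fin n => if h : j.1 < N then x ⟨j.1, h⟩ else 0) G1 := by
    intro x
    rw [hG', lat_eval]
    congr 2
    funext j
    by_cases h : j.1 < N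
    · simp [h]
    · simp [h]
  have hG'y : ∀ y : Fin n → ℂ, eval (fun l => y (Fin.castLE hN l)) G' = eval y G1 := by
    intro y
    rw [hG'e]
    refine hdep _ _ fun j hj => ?_
    simp only [hj, dif_pos]
    rfl
  refine ⟨N, hN, B, B', G', ?_, hBB', ?_, ?_⟩
  · by_contra hN2
    obtain h0 | h1 : N = 0 ∨ N = 1 := by omega
    · -- `G` is constant
      have hc : G = C (eval 0 G) := by
        apply MvPolynomial.funext
        intro x
        rw [eval_C]
        have h2 := hper (M.mulVec x) (fun j hj => by omega)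
        rw [hback] at h2
        have h3 := h2 0
        rwa [zero_add] at h3
      by_cases hc0 : eval 0 G = 0
      · rw [hc0, map_zero] at hc
        exact hG.ne_zero hc
      · apply hG.not_isUnit
        rw [hc]
        exact (isUnit_iff_ne_zero.2 hc0).map C
    · have hn : 0 < n := by omega
      set i0 : Fin n := ⟨0, hn⟩ with hi0
      set x0 : Fin n → ℂ := M'.mulVec (Pi.single i0 1) with hx0
      set L : MvPolynomial (Fin n) ℂ := ∑ j, (B i0 j : ℂ) • (X j : MvPolynomial (Fin n) ℂ) with hL
      have hLe : ∀ x : Fin n → ℂ, eval x L = M.mulVec x i0 := by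
        intro x
        simp [hL, hM, Matrix.mulVec, dotProduct, smul_eval]
      have hc : G = C (eval x0 G) * L ^ r := by
        apply MvPolynomial.funext
        intro x
        rw [map_mul, eval_C, map_pow, hLe]
        set z := M.mulVec x with hz
        have h2 := hper (z - z i0 • Pi.single i0 1) (fun j hj => by
          have : j = i0 := by
            apply Fin.ext
            rw [hi0]
            show j.1 = 0
            omega
          subst this
          simp)
        rw [Matrix.mulVec_sub, Matrix.mulVec_smul, hz, hback, ← hz, ← hx0] at h2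
        have h3 := h2 (z i0 • x0)
        rw [add_sub_cancel] at h3
        rw [h3, lat_smul hGh, mul_comm]
      have hLu : ¬ IsUnit L := by
        intro hu
        have h4 : IsUnit (eval 0 L) := hu.map (eval 0)
        rw [hLe, Matrix.mulVec_zero] at h4
        simp at h4
      rcases r with _ | _ | r
      · rw [pow_zero, mul_one] at hc
        by_cases hc0 : eval x0 G = 0
        · rw [hc0, map_zero] at hc
          exact hG.ne_zero hc
        · apply hG.not_isUnit
          rw [hc]
          exact (isUnit_iff_ne_zero.2 hc0).map C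
      · rw [zero_add, pow_one] at hc
        exact hlin _ _ hc
      · rw [pow_succ', ← mul_assoc] at hc
        rcases hG.isUnit_or_isUnit hc with h | h
        · exact hLu (isUnit_of_mul_isUnit_right h)
        · exact hLu (isUnit_pow_succ_iff.1 h)
  · apply MvPolynomial.funext
    intro y
    rw [eval_rename, ← hG'y y]
    rfl
  · intro v hv
    by_contra hcon
    push Not at hcon
    apply hv
    -- the period of `G`
    set z : Fin n → ℤ := fun j => if h : j.1 < N then v ⟨j.1, h⟩ else 0 with hz
    set u : Fin n → ℤ := ∑ j, z j • b j with hu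
    have hzl : ∀ l : Fin N, z (Fin.castLE hN l) = v l := by
      intro l
      simp [hz]
    have hu1 : (fun i => (u i : ℂ)) = M'.mulVec (fun j => (z j : ℂ)) := by
      rw [hM'v]
      funext i
      rw [hu, Finset.sum_apply, Finset.sum_apply]
      push_cast
      refine Finset.sum_congr rfl fun j _ => ?_
      simp
    have hul : u ∈ lat G := by
      rw [mem_lat, hu1]
      intro x
      rw [← hback x, ← Matrix.mulVec_add, ← hG1e, ← hG1e, ← hG'y, ← hG'y]
      have h := hcon (fun l => M.mulVec x (Fin.castLE hN l))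
      rw [← h]
      congr 2
      funext l
      rw [Pi.add_apply, hzl]
    funext l
    have h1 := hb2 u hul (Fin.castLE hN l) l.2
    rw [hu, b.repr_sum_self] at h1
    rw [hzl] at h1
    rw [h1]
    rfl

end Pool.Agent.EXZ
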