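import Mathlib

/-!
# EXZ / BddO: growth of the other coordinates (helper43)

`P = ∑_l p_l(X', Z) Y^l`. The numbers `‖p_l(I T β, y_T)‖`, `p_l ≠ 0`, are between `T^{-K}` and `T^K`. Two of
the terms `p_l v^l` have comparable norms, so `|l - l'| |log ‖v‖| = O(log T)`.
-/

set_option autoImplicit false

namespace Pool.Agent.EXZ

open MvPolynomial Topology Filter

private lemma dom {ι : Type*} (S : Finset ι) (w : ι → ℂ) (hS : S.Nonempty)
    (hw : ∀ i ∈ S, w i ≠ 0) (h : ∑ i ∈ S, w i = 0) :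
    ∃ i ∈ S, ∃ j ∈ S, i ≠ j ∧ |Real.log ‖w i‖ - Real.log ‖w j‖| ≤ Real.log S.card := by
  classical
  obtain ⟨i, hi, hmax⟩ := Finset.exists_max_image S (fun i => ‖w i‖) hS
  have hci : 0 < ‖w i‖ := norm_pos_iff.2 (hw i hi)
  have hcard : 0 < S.card := Finset.card_pos.2 hS
  have hex : ∃ j ∈ S, i ≠ j ∧ ‖w i‖ ≤ S.card * ‖w j‖ := by
    by_contra hcon
    push Not at hcon
    have h1 : ‖w i‖ ≤ ∑ j ∈ S.erase i, ‖w j‖ := by
      have h2 : w i = -∑ j ∈ S.erase i, w j := by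
        rw [← Finset.add_sum_erase S w hi] at h
        exact eq_neg_of_add_eq_zero_left h
      rw [h2, norm_neg]
      exact norm_sum_le _ _
    have h3 : (S.card : ℝ) * ‖w i‖ ≤ ∑ j ∈ S.erase i, ‖w i‖ := by
      calc (S.card : ℝ) * ‖w i‖ ≤ S.card * ∑ j ∈ S.erase i, ‖w j‖ :=
            mul_le_mul_of_nonneg_left h1 (Nat.cast_nonneg _)
        _ = ∑ j ∈ S.erase i, S.card * ‖w j‖ := Finset.mul_sum _ _ _
        _ ≤ _ := by
            refine Finset.sum_le_sum fun j hj => ?_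
            obtain ⟨hj1, hj2⟩ := Finset.mem_erase.1 hj
            exact (hcon j hj2 hj1.symm).le
    rw [Finset.sum_const, Finset.card_erase_of_mem hi, nsmul_eq_mul,
      Nat.cast_sub (Nat.one_le_iff_ne_zero.2 hcard.ne')] at h3
    push_cast at h3
    nlinarith
  obtain ⟨j, hj, hij, hle⟩ := hex
  refine ⟨i, hi, j, hj, hij, ?_⟩
  have hcj : 0 < ‖w j‖ := norm_pos_iff.2 (hw j hj)
  have h1 : Real.log ‖w j‖ ≤ Real.log ‖w i‖ := Real.log_le_log hcj (hmax j hj)
  have h2 : Real.log ‖w i‖ ≤ Real.log S.card + Real.log ‖w j‖ := by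
    rw [← Real.log_mul (by exact_mod_cast hcard.ne') hcj.ne']
    exact Real.log_le_log hci hle
  rw [abs_of_nonneg (by linarith)]
  linarith

private lemma log_ge_one : ∀ᶠ T : ℕ in atTop, (1 : ℝ) ≤ Real.log T := by
  have h1 : Tendsto (fun T : ℕ => Real.log (T : ℝ)) atTop atTop :=
    Real.tendsto_log_atTop.comp tendsto_natCast_atTop_atTop
  exact h1.eventually_ge_atTop 1

/-- the index of the variables -/
private def idx (m : ℕ) : Fin m ⊕ Fin 2 → Option (Fin m ⊕ Unit)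
  | .inl l => some (.inl l)
  | .inr j => if j = 0 then some (.inr ()) else none

private lemma idx_inj (m : ℕ) : Function.Injective (idx m) := by
  rintro (a | a) (b | b) h
  · simpa [idx] using h
  · fin_cases b <;> simp [idx] at h
  · fin_cases a <;> simp [idx] at h
  · fin_cases a <;> fin_cases b <;> simp [idx] at h ⊢

private lemma eval_split {m : ℕ} {k : Subfield ℂ} (P : MvPolynomial (Fin m ⊕ Fin 2) k)
    (x : Fin m → ℂ) (y v : ℂ) :
    aeval (Sum.elim x ![y, v]) P = Polynomial.eval₂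
      ((aeval (Sum.elim x fun _ => y) : MvPolynomial (Fin m ⊕ Unit) k →ₐ[k] ℂ) :
        MvPolynomial (Fin m ⊕ Unit) k →+* ℂ) v
      (optionEquivLeft k (Fin m ⊕ Unit) (rename (idx m) P)) := by
  induction P using MvPolynomial.induction_on with
  | C a => simp
  | add p q hp hq => rw [map_add, hp, hq, map_add, map_add, Polynomial.eval₂_add]
  | mul_X p i hp =>
    rw [map_mul, hp, map_mul, map_mul, Polynomial.eval₂_mul]
    congr 1
    rcases i with i | i
    · simp [idx]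
    · fin_cases i <;> simp [idx]

/-- polynomial growth -/
private lemma up {m : ℕ} {k : Subfield ℂ} (β : Fin m → ℝ) (𝒰 : Filter ℕ)
    (h𝒰 : 𝒰 ≤ atTop) (y : ℕ → ℂ) (C : ℝ) (hy : ∀ᶠ T : ℕ in 𝒰, ‖y T‖ ≤ (T : ℝ) ^ C)
    (N : MvPolynomial (Fin m ⊕ Unit) k) : ∃ K : ℝ, ∀ᶠ T : ℕ in 𝒰,
      ‖aeval (Sum.elim (fun l => Complex.I * (T : ℂ) * (β l : ℂ)) fun _ => y T) N‖ ≤
        (T : ℝ) ^ K := by
  have hge : ∀ c : ℝ, ∀ᶠ T : ℕ in 𝒰, c ≤ T := fun c =>
    ((tendsto_natCast_atTop_atTop (R := ℝ)).eventually_ge_atTop c).filter_mono h𝒰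
  induction N using MvPolynomial.induction_on with
  | C a =>
    refine ⟨1, ?_⟩
    filter_upwards [hge ‖(a : ℂ)‖] with T hT
    rw [Real.rpow_one, aeval_C]
    exact hT
  | add p q hp hq =>
    obtain ⟨K₁, h₁⟩ := hp
    obtain ⟨K₂, h₂⟩ := hq
    refine ⟨max K₁ K₂ + 1, ?_⟩
    filter_upwards [h₁, h₂, hge 2] with T h₁ h₂ hT
    have hT1 : (1 : ℝ) ≤ T := by linarith
    have hT0 : (0 : ℝ) < T := by linarith
    rw [map_add, Real.rpow_add hT0, Real.rpow_one]
    have h3 := Real.rpow_le_rpow_of_exponent_le hT1 (le_max_left K₁ K₂)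
    have h4 := Real.rpow_le_rpow_of_exponent_le hT1 (le_max_right K₁ K₂)
    have h5 : 0 ≤ (T : ℝ) ^ max K₁ K₂ := Real.rpow_nonneg hT0.le _
    refine (norm_add_le _ _).trans ?_
    nlinarith
  | mul_X p i hp =>
    obtain ⟨K, h⟩ := hp
    rcases i with i | i
    · refine ⟨K + 2, ?_⟩
      filter_upwards [h, hge |β i|, hge 1] with T h hT hT1
      have hT0 : (0 : ℝ) < T := by linarith
      rw [map_mul, norm_mul, Real.rpow_add hT0]
      refine mul_le_mul h ?_ (norm_nonneg _) (Real.rpow_nonneg hT0.le _)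
      simp only [aeval_X, Sum.elim_inl, norm_mul, Complex.norm_I, one_mul, Complex.norm_natCast,
        Complex.norm_real, Real.norm_eq_abs]
      have h3 : (T : ℝ) ^ (2 : ℝ) = T * T := by
        rw [Real.rpow_two, sq]
      rw [h3]
      exact mul_le_mul_of_nonneg_left hT hT0.le
    · refine ⟨K + C, ?_⟩
      filter_upwards [h, hy, hge 1] with T h hT hT1
      have hT0 : (0 : ℝ) < T := by linarith
      rw [map_mul, norm_mul, Real.rpow_add hT0]
      refine mul_le_mul h ?_ (norm_nonneg _) (Real.rpow_nonneg hT0.le _)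
      simpa using hT

theorem bdd_other {m : ℕ} (k : Subfield ℂ) (β : Fin m → ℝ)
    (𝒰 : Ultrafilter ℕ) (h𝒰 : (𝒰 : Filter ℕ) ≤ atTop) (y v : ℕ → ℂ)
    (hv : ∀ᶠ T : ℕ in (𝒰 : Filter ℕ), v T ≠ 0)
    (hlow : ∀ N : MvPolynomial (Fin m ⊕ Unit) k, N ≠ 0 → ∃ K : ℝ, ∀ᶠ T : ℕ in (𝒰 : Filter ℕ),
      (T : ℝ) ^ (-K) ≤
        ‖aeval (Sum.elim (fun l => Complex.I * (T : ℂ) * (β l : ℂ)) fun _ => y T) N‖)
    (C : ℝ) (hy : ∀ᶠ T : ℕ in (𝒰 : Filter ℕ), ‖y T‖ ≤ (T : ℝ) ^ C)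
    (P : MvPolynomial (Fin m ⊕ Fin 2) k) (hP : P ≠ 0)
    (hrel : ∀ᶠ T : ℕ in (𝒰 : Filter ℕ),
      aeval (Sum.elim (fun l => Complex.I * (T : ℂ) * (β l : ℂ)) ![y T, v T]) P = 0) :
    ∃ C' : ℝ, ∀ᶠ T : ℕ in (𝒰 : Filter ℕ), |Real.log ‖v T‖| ≤ C' * Real.log T := by
  classical
  set Q : Polynomial (MvPolynomial (Fin m ⊕ Unit) k) :=
    optionEquivLeft k (Fin m ⊕ Unit) (rename (idx m) P) with hQ
  have hQ0 : Q ≠ 0 := by
    rw [hQ, Ne, EmbeddingLike.map_eq_zero_iff,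
      map_eq_zero_iff _ (rename_injective _ (idx_inj m))]
    exact hP
  have hSne : Q.support.Nonempty := Polynomial.support_nonempty.2 hQ0
  have hgr : ∀ l : ℕ, ∃ K : ℝ, l ∈ Q.support → ∀ᶠ T : ℕ in (𝒰 : Filter ℕ),
      aeval (Sum.elim (fun l => Complex.I * (T : ℂ) * (β l : ℂ)) fun _ => y T) (Q.coeff l) ≠ 0 ∧
      |Real.log ‖aeval (Sum.elim (fun l => Complex.I * (T : ℂ) * (β l : ℂ)) fun _ => y T)
        (Q.coeff l)‖| ≤ K * Real.log T := by
    intro l
    by_cases hl : l ∈ Q.support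
    · obtain ⟨K₁, h₁⟩ := hlow (Q.coeff l) (Polynomial.mem_support_iff.1 hl)
      obtain ⟨K₂, h₂⟩ := up β (𝒰 : Filter ℕ) h𝒰 y C hy (Q.coeff l)
      refine ⟨max K₁ K₂, fun _ => ?_⟩
      filter_upwards [h₁, h₂, log_ge_one.filter_mono h𝒰, (eventually_ge_atTop 1).filter_mono h𝒰]
        with T h₁ h₂ hlog hT1
      have hT0 : (0 : ℝ) < T := by exact_mod_cast hT1
      have hpos := (Real.rpow_pos_of_pos hT0 (-K₁)).trans_le h₁
      refine ⟨norm_pos_iff.1 hpos, ?_⟩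
      have h3 := Real.log_le_log (Real.rpow_pos_of_pos hT0 (-K₁)) h₁
      have h4 := Real.log_le_log hpos h₂
      rw [Real.log_rpow hT0] at h3 h4
      have h5 : K₁ * Real.log T ≤ max K₁ K₂ * Real.log T :=
        mul_le_mul_of_nonneg_right (le_max_left _ _) (by linarith)
      have h6 : K₂ * Real.log T ≤ max K₁ K₂ * Real.log T :=
        mul_le_mul_of_nonneg_right (le_max_right _ _) (by linarith)
      rw [abs_le]
      constructor <;> linarith
    · exact ⟨0, fun h => absurd h hl⟩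
  choose K hK using hgr
  have hall : ∀ᶠ T : ℕ in (𝒰 : Filter ℕ), ∀ l ∈ Q.support,
      aeval (Sum.elim (fun l => Complex.I * (T : ℂ) * (β l : ℂ)) fun _ => y T) (Q.coeff l) ≠ 0 ∧
      |Real.log ‖aeval (Sum.elim (fun l => Complex.I * (T : ℂ) * (β l : ℂ)) fun _ => y T)
        (Q.coeff l)‖| ≤ K l * Real.log T := by
    rw [Filter.eventually_all_finset]
    intro l hl
    exact hK l hl
  refine ⟨Real.log Q.support.card + 2 * ∑ l ∈ Q.support, |K l|, ?_⟩
  filter_upwards [hrel, hall, log_ge_one.filter_mono h𝒰, hv] with T h1 h2 h3 hvT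
  rw [eval_split, ← hQ, Polynomial.eval₂_eq_sum, Polynomial.sum_def] at h1
  obtain ⟨l, hl, l', hl', hne, hle⟩ := dom Q.support _ hSne (fun l hl => by
    exact mul_ne_zero (h2 l hl).1 (pow_ne_zero _ hvT)) h1
  have hw : ∀ l ∈ Q.support, Real.log
      ‖((aeval (Sum.elim (fun l => Complex.I * (T : ℂ) * (β l : ℂ)) fun _ => y T) :
        MvPolynomial (Fin m ⊕ Unit) k →ₐ[k] ℂ) : MvPolynomial (Fin m ⊕ Unit) k →+* ℂ)
          (Q.coeff l) * v T ^ l‖ =
      Real.log ‖aeval (Sum.elim (fun l => Complex.I * (T : ℂ) * (β l : ℂ)) fun _ => y T)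
        (Q.coeff l)‖ + l * Real.log ‖v T‖ := by
    intro l hl
    rw [RingHom.coe_coe, norm_mul, norm_pow, Real.log_mul (norm_ne_zero_iff.2 (h2 l hl).1)
      (pow_ne_zero _ (norm_ne_zero_iff.2 hvT)), Real.log_pow]
  rw [hw l hl, hw l' hl'] at hle
  have h4 := (h2 l hl).2
  have h5 := (h2 l' hl').2
  have hsum : ∀ l ∈ Q.support, K l * Real.log T ≤ (∑ l ∈ Q.support, |K l|) * Real.log T := by
    intro l hl
    refine mul_le_mul_of_nonneg_right ?_ (by linarith)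
    exact (le_abs_self _).trans
      (Finset.single_le_sum (f := fun l => |K l|) (fun i _ => abs_nonneg _) hl)
  have h6 := hsum l hl
  have h7 := hsum l' hl'
  have h8 : 0 ≤ Real.log Q.support.card := Real.log_natCast_nonneg _
  have h9 : |((l : ℝ) - l') * Real.log ‖v T‖| ≤
      Real.log Q.support.card + 2 * ((∑ l ∈ Q.support, |K l|) * Real.log T) := by
    rw [abs_le] at h4 h5 hle ⊢
    constructor <;> linarith [hle.1, hle.2, h4.1, h4.2, h5.1, h5.2]
  have h10 : (1 : ℝ) ≤ |(l : ℝ) - l'| := by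
    have h11 : (l : ℤ) - l' ≠ 0 := by
      intro h; apply hne; omega
    have h12 := Int.one_le_abs h11
    exact_mod_cast h12
  rw [abs_mul] at h9
  have h13 : |Real.log ‖v T‖| ≤ |(l : ℝ) - l'| * |Real.log ‖v T‖| :=
    le_mul_of_one_le_left (abs_nonneg _) h10
  have h14 : Real.log Q.support.card ≤ Real.log Q.support.card * Real.log T :=
    le_mul_of_one_le_right h8 h3
  linarith

end Pool.Agent.EXZ
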