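import Pool.Agent.EXZ.Defs

/-!
# EXZ / GoodA: consequences of goodness

PROOF.  `good_ne`: `N'` is continuous, `‖N'(z)‖ ≥ 2 δ` for `‖z - w‖ ≤ r`; the last clause of `Good` with `R = ‖w‖ + r`.
`good_low`: the same at `z_T → w`: `‖ν_T N‖ ≥ δ`, so `‖N‖ ≥ δ / ‖ν_T‖ ≥ δ T^{-K} ≥ T^{-K-1}`.
-/

set_option autoImplicit false

namespace Pool.Agent.EXZ

open MvPolynomial Pool.Agent.EXG Topology Filter

theorem good_ne {m : ℕ} (k : Subfield ℂ) (β : Fin m → ℝ) (𝒰 : Ultrafilter ℕ) (u : ℕ → ℂ) (w : ℂ)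
    (hg : Good k β 𝒰 u w) (N : MvPolynomial (Fin m ⊕ Unit) k) (hN : N ≠ 0) :
    ∃ r : ℝ, 0 < r ∧ ∀ᶠ T : ℕ in (𝒰 : Filter ℕ), ∀ (x : Fin m → ℂ) (z : ℂ),
      (∀ j, ‖x j - Complex.I * (T : ℂ) * (β j : ℂ)‖ ≤ √(T : ℝ)) → ‖z - w‖ ≤ r →
      aeval (Sum.elim x fun _ => u T * z) N ≠ 0 := by
  obtain ⟨ν, N', -, hN', -, hlast⟩ := hg N hN
  have hpos : 0 < ‖N'.eval w‖ := norm_pos_iff.mpr hN'
  have hcont : ContinuousAt (fun z : ℂ => ‖N'.eval z‖) w := N'.continuous.norm.continuousAt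
  have hev : ∀ᶠ z in 𝓝 w, ‖N'.eval w‖ / 2 < ‖N'.eval z‖ :=
    hcont.eventually_const_lt (by linarith)
  obtain ⟨r, hr, hball⟩ := Metric.eventually_nhds_iff_ball.mp hev
  refine ⟨r / 2, by positivity, ?_⟩
  filter_upwards [hlast (‖w‖ + r) (‖N'.eval w‖ / 2) (by positivity)] with T hT x z hx hz h0
  have h1 : ‖z‖ ≤ ‖w‖ + r := by
    have h2 : ‖z‖ ≤ ‖w‖ + ‖z - w‖ := by
      calc ‖z‖ = ‖w + (z - w)‖ := by rw [add_sub_cancel]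
        _ ≤ _ := norm_add_le _ _
    linarith
  have h3 := hT x z hx h1
  rw [h0, mul_zero, zero_sub, norm_neg] at h3
  have h4 := hball z (by rw [Metric.mem_ball, dist_eq_norm]; linarith)
  linarith

theorem good_low {m : ℕ} (k : Subfield ℂ) (β : Fin m → ℝ) (𝒰 : Ultrafilter ℕ)
    (h𝒰 : (𝒰 : Filter ℕ) ≤ atTop) (u : ℕ → ℂ) (w : ℂ) (hg : Good k β 𝒰 u w)
    (C : ℝ) (hu : ∀ᶠ T : ℕ in (𝒰 : Filter ℕ), |Real.log ‖u T‖| ≤ C * Real.log T)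
    (z : ℕ → ℂ) (hz : Tendsto z (𝒰 : Filter ℕ) (𝓝 w))
    (N : MvPolynomial (Fin m ⊕ Unit) k) (hN : N ≠ 0) :
    ∃ K : ℝ, ∀ᶠ T : ℕ in (𝒰 : Filter ℕ), (T : ℝ) ^ (-K) ≤
      ‖aeval (Sum.elim (fun l => Complex.I * (T : ℂ) * (β l : ℂ)) fun _ => u T * z T) N‖ := by
  obtain ⟨ν, N', hν, hN', hK, hlast⟩ := hg N hN
  obtain ⟨K, hK⟩ := hK C hu
  have hpos : 0 < ‖N'.eval w‖ := norm_pos_iff.mpr hN'
  have hcont : ContinuousAt (fun z : ℂ => ‖N'.eval z‖) w := N'.continuous.norm.continuousAt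
  have hev : ∀ᶠ z in 𝓝 w, ‖N'.eval w‖ / 2 < ‖N'.eval z‖ :=
    hcont.eventually_const_lt (by linarith)
  have hev2 := hz.eventually hev
  have hzb : ∀ᶠ T in (𝒰 : Filter ℕ), ‖z T‖ < ‖w‖ + 1 :=
    hz.norm.eventually_lt_const (by linarith)
  have hTbig : ∀ᶠ T : ℕ in (𝒰 : Filter ℕ), max 1 (4 / ‖N'.eval w‖) ≤ (T : ℝ) :=
    h𝒰 (tendsto_natCast_atTop_atTop.eventually (eventually_ge_atTop _))
  refine ⟨K + 1, ?_⟩
  filter_upwards [hν, hK, hev2, hzb, hTbig, hlast (‖w‖ + 1) (‖N'.eval w‖ / 4) (by positivity)]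
    with T h1 h2 h3 h4 h5 h6
  have hT1 : 1 ≤ (T : ℝ) := (le_max_left _ _).trans h5
  have hT4 : 4 / ‖N'.eval w‖ ≤ (T : ℝ) := (le_max_right _ _).trans h5
  have hT0 : 0 < (T : ℝ) := by linarith
  have h7 := h6 (fun l => Complex.I * (T : ℂ) * (β l : ℂ)) (z T)
    (fun j => by rw [sub_self, norm_zero]; exact Real.sqrt_nonneg _) h4.le
  set A := aeval (Sum.elim (fun l => Complex.I * (T : ℂ) * (β l : ℂ)) fun _ => u T * z T) N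
    with hA
  have h8 : ‖N'.eval w‖ / 4 ≤ ‖ν T‖ * ‖A‖ := by
    rw [← norm_mul]
    have h9 : ‖N'.eval (z T)‖ ≤ ‖ν T * A‖ + ‖ν T * A - N'.eval (z T)‖ := by
      calc ‖N'.eval (z T)‖ = ‖ν T * A - (ν T * A - N'.eval (z T))‖ := by rw [sub_sub_cancel]
        _ ≤ _ := norm_sub_le _ _
    linarith
  have hν0 : 0 < ‖ν T‖ := norm_pos_iff.mpr h1
  have hTK : 0 < (T : ℝ) ^ K := Real.rpow_pos_of_pos hT0 K
  have h10 : ‖N'.eval w‖ / 4 ≤ (T : ℝ) ^ K * ‖A‖ :=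
    h8.trans (mul_le_mul_of_nonneg_right h2 (norm_nonneg _))
  have h11 : 1 ≤ (T : ℝ) * (‖N'.eval w‖ / 4) := by
    rw [div_le_iff₀ hpos] at hT4
    linarith
  have h12 : (T : ℝ) ^ (-(K + 1)) = ((T : ℝ) ^ K * T)⁻¹ := by
    rw [Real.rpow_neg hT0.le, Real.rpow_add hT0, Real.rpow_one]
  rw [h12, inv_le_iff_one_le_mul₀ (by positivity)]
  have h13 := mul_le_mul_of_nonneg_left h10 hT0.le
  nlinarith

end Pool.Agent.EXZ
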