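import Pool.Agent.EXG.Defs

/-!
# EXZ / Lift: points of the fibre over a point of the projected curve

PROOF.  `A = ℂ[Y] / Q`, `ϑ` = class of `pr.Q(x, Y)`. The relations `M((x', Y_i), Q(x, Y)) = 0`,
`Dl(x', Y_i) Y_j = B_(inr j)((x', Y_i), Q(x, Y))`, `Dl(x', Y_i) x_0 = B_(inl 0)(..)` hold at the zeros of `Q`, so in `A`
(Nullstellensatz). `lift_root`: with `J = {g ∈ ℂ[Y'][Θ] | g(ι Y', ϑ) = 0}` the ring `ℂ[Y'][Θ] / J` is integral over `ℂ[Y']`; a
maximal ideal over the kernel of the evaluation at `w'` has residue field `ℂ`, so there is `θ₀` with `g(w', θ₀) = 0` for all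
`g ∈ J`. Then `w j = B_(inr j)(u, θ₀) / Dl(u)`, `u = (x', w'_{k1})`.
-/

set_option autoImplicit false

namespace Pool.Agent.EXZ

open MvPolynomial Pool.Agent.EXI Pool.Agent.EXG

private theorem lift_root {S A : Type*} [CommRing S] [CommRing A]
    (φ : S →+* A) (ϑ : A) (Mh : Polynomial S) (hM : Mh.Monic)
    (hMϑ : Mh.eval₂ φ ϑ = 0) (ev : S →+* ℂ) (cc : ℂ →+* S) (hcc : ∀ c, ev (cc c) = c)
    (hw' : ∀ f : S, φ f = 0 → ev f = 0) :
    ∃ θ₀ : ℂ, ∀ g : Polynomial S, g.eval₂ φ ϑ = 0 → g.eval₂ ev θ₀ = 0 := by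
  obtain ⟨J, hJ⟩ : ∃ J : Ideal (Polynomial S),
      J = RingHom.ker (Polynomial.eval₂RingHom φ ϑ) := ⟨_, rfl⟩
  have hmem : ∀ g, g ∈ J ↔ g.eval₂ φ ϑ = 0 := by
    intro g
    rw [hJ, RingHom.mem_ker, Polynomial.coe_eval₂RingHom]
  have hint0 := hM.quotient_isIntegral ((hmem Mh).2 hMϑ)
  have hint : Algebra.IsIntegral S (Polynomial S ⧸ J) := ⟨fun x => hint0 x⟩
  have hpmax : (RingHom.ker ev).IsMaximal :=
    RingHom.ker_isMaximal_of_surjective _ fun c => ⟨cc c, hcc c⟩
  have hker : RingHom.ker (algebraMap S (Polynomial S ⧸ J)) ≤ RingHom.ker ev := by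
    intro f hf
    rw [RingHom.mem_ker] at hf ⊢
    have h1 : Polynomial.C f ∈ J := Ideal.Quotient.eq_zero_iff_mem.1 hf
    rw [hmem, Polynomial.eval₂_C] at h1
    exact hw' f h1
  obtain ⟨P, hPmax, hP⟩ := Ideal.exists_ideal_over_maximal_of_isIntegral _ hker
  -- the residue field
  obtain ⟨π, hπ⟩ : ∃ π : Polynomial S →+* (Polynomial S ⧸ J) ⧸ P,
      π = (Ideal.Quotient.mk P).comp (Ideal.Quotient.mk J) := ⟨_, rfl⟩
  obtain ⟨κ, hκ⟩ : ∃ κ : ℂ →+* (Polynomial S ⧸ J) ⧸ P,
      κ = (π.comp Polynomial.C).comp cc := ⟨_, rfl⟩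
  have hfac : π.comp Polynomial.C = κ.comp ev := by
    refine RingHom.ext fun s => ?_
    have h1 : s - cc (ev s) ∈ Ideal.comap (algebraMap S (Polynomial S ⧸ J)) P := by
      rw [hP, RingHom.mem_ker, map_sub, hcc, sub_self]
    rw [Ideal.mem_comap] at h1
    have h2 := Ideal.Quotient.eq_zero_iff_mem.2 h1
    have h3 : π (Polynomial.C (s - cc (ev s))) = 0 := by
      rw [hπ]
      exact h2
    rw [map_sub, map_sub, sub_eq_zero] at h3
    rw [RingHom.comp_apply, h3, hκ]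
    rfl
  have hκint : κ.IsIntegral := by
    refine RingHom.IsIntegral.tower_top ev κ ?_
    rw [← hfac]
    have h1 : π.comp Polynomial.C = (Ideal.Quotient.mk P).comp
        (algebraMap S (Polynomial S ⧸ J)) := by
      rw [hπ]
      rfl
    rw [h1]
    exact RingHom.IsIntegral.trans _ _ (fun x => hint0 x)
      (RingHom.isIntegral_of_surjective _ Ideal.Quotient.mk_surjective)
  have hdom : IsDomain ((Polynomial S ⧸ J) ⧸ P) := Ideal.Quotient.isDomain P
  obtain ⟨θ₀, hθ₀⟩ := (IsAlgClosed.ringHom_bijective_of_isIntegral κ hκint).2 (π Polynomial.X)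
  refine ⟨θ₀, fun g hg => ?_⟩
  have hcomp : π = κ.comp (Polynomial.eval₂RingHom ev θ₀) := by
    refine Polynomial.ringHom_ext (fun s => ?_) ?_
    · have := congrArg (fun f => f s) hfac
      simp only [RingHom.comp_apply] at this ⊢
      rw [this, Polynomial.coe_eval₂RingHom, Polynomial.eval₂_C]
    · rw [RingHom.comp_apply, Polynomial.coe_eval₂RingHom, Polynomial.eval₂_X, hθ₀]
  have h1 : π g = 0 := by
    rw [hπ, RingHom.comp_apply, Ideal.Quotient.eq_zero_iff_mem.2 ((hmem g).2 hg), map_zero]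
  rw [hcomp, RingHom.comp_apply] at h1
  exact (map_eq_zero_iff κ κ.injective).1 h1

theorem lift_pt {k : Subfield ℂ} {m N : ℕ} {a b : Fin (m + 1) → ℂ} {i : Fin (m + 1)}
    (pr : Prim k a b i) (Q : Ideal (MvPolynomial (Fin (m + 1)) ℂ)) (hQ : Q.IsPrime)
    (x : Fin (m + 1) → ℂ)
    (hQs : ∀ w : Fin (m + 1) → ℂ, (∀ g ∈ Q, eval w g = 0) →
      Spec k (Sum.elim a b) (Sum.elim x w))
    (ι : Fin N → Fin (m + 1)) (k1 : Fin N) (hk1 : ι k1 = i) (w' : Fin N → ℂ)
    (hw' : ∀ f : MvPolynomial (Fin N) ℂ, rename ι f ∈ Q → eval w' f = 0)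
    (hD : aeval (cons (w' k1) (fun j => x j.succ) : Option (Fin m) → ℂ) pr.Dl ≠ 0) :
    ∃ w : Fin (m + 1) → ℂ, (∀ l, w (ι l) = w' l) ∧ (∀ j, w j ≠ 0) ∧
      Spec k (Sum.elim a b) (Sum.elim x w) := by
  -- Nullstellensatz
  have hnull : ∀ F : MvPolynomial (Fin (m + 1)) ℂ,
      (∀ w : Fin (m + 1) → ℂ, (∀ g ∈ Q, eval w g = 0) → eval w F = 0) → F ∈ Q := by
    intro F hF
    have h1 : F ∈ vanishingIdeal ℂ (zeroLocus ℂ Q) := by
      rw [mem_vanishingIdeal_iff]
      intro w hw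
      rw [mem_zeroLocus_iff] at hw
      have h2 := hF w (fun g hg => by have := hw g hg; rwa [aeval_eq_eval] at this)
      rwa [aeval_eq_eval]
    rwa [IsPrime.vanishingIdeal_zeroLocus] at h1
  -- the homomorphisms
  obtain ⟨φ, hφ⟩ : ∃ φ : MvPolynomial (Fin N) ℂ →+* MvPolynomial (Fin (m + 1)) ℂ ⧸ Q,
      φ = (Ideal.Quotient.mk Q).comp (rename ι : MvPolynomial (Fin N) ℂ →ₐ[ℂ] _).toRingHom :=
    ⟨_, rfl⟩
  obtain ⟨qY, hqY⟩ : ∃ qY : MvPolynomial (Fin (m + 1)) ℂ,
      qY = aeval (Sum.elim (fun j => C (x j)) (fun j => X j)) pr.Q := ⟨_, rfl⟩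
  obtain ⟨σ, hσ⟩ : ∃ σ : MvPolynomial (Option (Fin m)) k →+* MvPolynomial (Fin N) ℂ,
      σ = (aeval (cons (X k1) (fun j => C (x j.succ))) :
        MvPolynomial (Option (Fin m)) k →ₐ[k] MvPolynomial (Fin N) ℂ).toRingHom := ⟨_, rfl⟩
  obtain ⟨σ', hσ'⟩ : ∃ σ' : MvPolynomial (Option (Fin m)) k →+* MvPolynomial (Fin (m + 1)) ℂ,
      σ' = (aeval (cons (X i) (fun j => C (x j.succ))) :
        MvPolynomial (Option (Fin m)) k →ₐ[k] MvPolynomial (Fin (m + 1)) ℂ).toRingHom := ⟨_, rfl⟩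
  have hφσ : φ.comp σ = (Ideal.Quotient.mk Q).comp σ' := by
    rw [hφ, RingHom.comp_assoc]
    congr 1
    rw [hσ, hσ']
    refine MvPolynomial.ringHom_ext (fun c => ?_) (fun o => ?_)
    · simp
    · cases o with
      | none => simp [cons, hk1]
      | some j => simp [cons]
  have hevσ : (eval w').comp σ = sp k (cons (w' k1) (fun j => x j.succ)) := by
    rw [hσ]
    refine MvPolynomial.ringHom_ext (fun c => ?_) (fun o => ?_)
    · simp [sp]
    · cases o with
      | none => simp [cons, sp]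
      | some j => simp [cons, sp]
  have hevσ' : ∀ w : Fin (m + 1) → ℂ, (eval w).comp σ' = sp k (bs i x w) := by
    intro w
    rw [hσ']
    refine MvPolynomial.ringHom_ext (fun c => ?_) (fun o => ?_)
    · simp [sp]
    · cases o with
      | none => simp [cons, sp, bs]
      | some j => simp [cons, sp, bs]
  have hevq : ∀ w : Fin (m + 1) → ℂ, eval w qY = aeval (Sum.elim x w) pr.Q := by
    intro w
    rw [hqY]
    have h1 : (eval w).comp (aeval (Sum.elim (fun j => C (x j)) (fun j => X j)) :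
        MvPolynomial (Fin (m + 1) ⊕ Fin (m + 1)) k →ₐ[k] MvPolynomial (Fin (m + 1)) ℂ).toRingHom =
        (aeval (Sum.elim x w) :
          MvPolynomial (Fin (m + 1) ⊕ Fin (m + 1)) k →ₐ[k] ℂ).toRingHom := by
      refine MvPolynomial.ringHom_ext (fun c => ?_) (fun o => ?_)
      · simp
      · cases o with
        | inl j => simp
        | inr j => simp
    exact congrArg (fun f => f pr.Q) h1
  -- transfer
  have hevm : ∀ (p : Polynomial (MvPolynomial (Option (Fin m)) k)) (w : Fin (m + 1) → ℂ),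
      eval w (p.eval₂ σ' qY) = evm p (bs i x w) (aeval (Sum.elim x w) pr.Q) := by
    intro p w
    rw [Polynomial.hom_eval₂, hevσ', hevq, evm, Polynomial.eval_map]
  have htr : ∀ p : Polynomial (MvPolynomial (Option (Fin m)) k),
      (p.map σ).eval₂ φ (Ideal.Quotient.mk Q qY) = Ideal.Quotient.mk Q (p.eval₂ σ' qY) := by
    intro p
    rw [Polynomial.eval₂_map, hφσ, Polynomial.hom_eval₂]
  have hev : ∀ (p : Polynomial (MvPolynomial (Option (Fin m)) k)) (θ : ℂ),
      (p.map σ).eval₂ (eval w') θ = evm p (cons (w' k1) (fun j => x j.succ)) θ := by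
    intro p θ
    rw [Polynomial.eval₂_map, hevσ, evm, Polynomial.eval_map]
  have hspw : ∀ (w : Fin (m + 1) → ℂ) (c : MvPolynomial (Option (Fin m)) k),
      eval w (σ' c) = aeval (bs i x w) c := by
    intro w c
    exact congrArg (fun f => f c) (hevσ' w)
  have hspw' : ∀ c : MvPolynomial (Option (Fin m)) k,
      eval w' (σ c) = aeval (cons (w' k1) (fun j => x j.succ) : Option (Fin m) → ℂ) c := by
    intro c
    exact congrArg (fun f => f c) hevσ
  -- the root
  obtain ⟨θ₀, hθ₀⟩ := lift_root φ (Ideal.Quotient.mk Q qY) (pr.M.map σ) (pr.monic.map σ) (by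
    rw [htr, Ideal.Quotient.eq_zero_iff_mem]
    refine hnull _ fun w hw => ?_
    rw [hevm]
    exact pr.root x w (hQs w hw)) (eval w') C (fun c => eval_C c) (by
    intro f hf
    refine hw' f ?_
    rw [hφ] at hf
    exact Ideal.Quotient.eq_zero_iff_mem.1 hf)
  obtain ⟨u, hu⟩ : ∃ u : Option (Fin m) → ℂ, u = cons (w' k1) (fun j => x j.succ) := ⟨_, rfl⟩
  rw [← hu] at hD
  have hroot : evm pr.M u θ₀ = 0 := by
    rw [hu, ← hev]
    refine hθ₀ _ ?_
    rw [htr, Ideal.Quotient.eq_zero_iff_mem]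
    refine hnull _ fun w hw => ?_
    rw [hevm]
    exact pr.root x w (hQs w hw)
  have h1 : ∀ l, aeval u pr.Dl * w' l = evm (pr.B (Sum.inr (ι l))) u θ₀ := by
    intro l
    have h2 := hθ₀ (Polynomial.C (σ pr.Dl * X l) - (pr.B (Sum.inr (ι l))).map σ) (by
      rw [Polynomial.eval₂_sub, Polynomial.eval₂_C, htr]
      have h3 : φ (σ pr.Dl * X l) = Ideal.Quotient.mk Q (σ' pr.Dl * X (ι l)) := by
        rw [map_mul, map_mul]
        congr 1
        · exact congrArg (fun f => f pr.Dl) hφσ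
        · rw [hφ]
          simp
      rw [h3, ← map_sub, Ideal.Quotient.eq_zero_iff_mem]
      refine hnull _ fun w hw => ?_
      rw [map_sub, map_mul, hevm, hspw, eval_X, sub_eq_zero]
      exact pr.coord x w (hQs w hw) (Sum.inr (ι l)))
    rw [Polynomial.eval₂_sub, Polynomial.eval₂_C, hev, map_mul, hspw', eval_X, ← hu,
      sub_eq_zero] at h2
    exact h2
  have h0 : aeval u pr.Dl * x 0 = evm (pr.B (Sum.inl 0)) u θ₀ := by
    have h2 := hθ₀ (Polynomial.C (σ pr.Dl * C (x 0)) - (pr.B (Sum.inl 0)).map σ) (by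
      rw [Polynomial.eval₂_sub, Polynomial.eval₂_C, htr]
      have h3 : φ (σ pr.Dl * C (x 0)) = Ideal.Quotient.mk Q (σ' pr.Dl * C (x 0)) := by
        rw [map_mul, map_mul]
        congr 1
        · exact congrArg (fun f => f pr.Dl) hφσ
        · rw [hφ]
          simp
      rw [h3, ← map_sub, Ideal.Quotient.eq_zero_iff_mem]
      refine hnull _ fun w hw => ?_
      rw [map_sub, map_mul, hevm, hspw, eval_C, sub_eq_zero]
      exact pr.coord x w (hQs w hw) (Sum.inl 0))
    rw [Polynomial.eval₂_sub, Polynomial.eval₂_C, hev, map_mul, hspw', eval_C, ← hu,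
      sub_eq_zero] at h2
    exact h2
  refine ⟨fun j => evm (pr.B (Sum.inr j)) u θ₀ / aeval u pr.Dl, fun l => ?_, fun j => ?_, ?_⟩
  · show evm (pr.B (Sum.inr (ι l))) u θ₀ / aeval u pr.Dl = w' l
    rw [← h1 l, mul_div_cancel_left₀ _ hD]
  · exact div_ne_zero (pr.ne_zero u θ₀ hD hroot j) hD
  · have h3 := pr.spec u θ₀ hD hroot
    have h4 : (fun q => evm (pr.B q) u θ₀ / aeval u pr.Dl) =
        Sum.elim x (fun j => evm (pr.B (Sum.inr j)) u θ₀ / aeval u pr.Dl) := by
      funext q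
      rcases q with j | j
      · show evm (pr.B (Sum.inl j)) u θ₀ / aeval u pr.Dl = x j
        refine Fin.cases ?_ (fun l => ?_) j
        · rw [← h0, mul_div_cancel_left₀ _ hD]
        · rw [pr.Bx l]
          have h5 : evm (Polynomial.C (pr.Dl * X (some l))) u θ₀ = aeval u pr.Dl * x l.succ := by
            unfold evm
            rw [Polynomial.map_C, Polynomial.eval_C]
            show aeval u (pr.Dl * X (some l)) = _
            rw [map_mul, aeval_X, hu]
            rfl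
          rw [h5, mul_div_cancel_left₀ _ hD]
      · rfl
    rw [h4] at h3
    exact h3

end Pool.Agent.EXZ
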