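import Pool.Agent.EXZ.Defs
import Pool.Agent.EXG.Lim

/-!
# EXZ / PairG: pair relations at a good point (helper97)

PROOF.  Fix `j ≠ i`. `EXG.lim` for `P j` (`κ = Fin 2`, scales `b T i`, `b T j`): `ν`, `Q(z, ζ) ≠ 0`. Write `P j = ∑_l p_l(X', Z) Y^l`.
By `Good` for `p_l`: `ν^l_T p_l(x, b_i z) → p'_l(z)`, `p'_l(w_i) ≠ 0`. If `Q(w_i, ζ) = 0` for all `ζ`, then all
`ν_T b_j^l p_l(x, b_i w_i)` tend to `0`, so `ν_T b_j^l / ν^l_T` tends to `0`, so `Q = 0`. So `Q(w_i, ·)` has finitely many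
roots; choose `δ' < δ` different from all `‖root - w j‖`; compactness (as `EXG.exists_bad`, part (2)).
-/

set_option autoImplicit false

namespace Pool.Agent.EXZ

open MvPolynomial Pool.Agent.EXG Topology Filter

private lemma pg_split {k : Subfield ℂ} {m : ℕ} (P : MvPolynomial (Fin m ⊕ Fin 2) k) :
    ∃ (L : ℕ) (p : ℕ → MvPolynomial (Fin m ⊕ Unit) k), ∀ (x : Fin m → ℂ) (s t : ℂ),
      aeval (Sum.elim x ![s, t]) P =
        ∑ l ∈ Finset.range L, aeval (Sum.elim x fun _ => s) (p l) * t ^ l := by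
  set φ : MvPolynomial (Fin m ⊕ Fin 2) k →ₐ[k] Polynomial (MvPolynomial (Fin m ⊕ Unit) k) :=
    aeval (Sum.elim (fun j => Polynomial.C (X (Sum.inl j)))
      ![Polynomial.C (X (Sum.inr ())), Polynomial.X]) with hφ
  refine ⟨(φ P).natDegree + 1, fun l => (φ P).coeff l, fun x s t => ?_⟩
  have h : Polynomial.eval₂ ((aeval (Sum.elim x fun _ => s) :
      MvPolynomial (Fin m ⊕ Unit) k →ₐ[k] ℂ) : MvPolynomial (Fin m ⊕ Unit) k →+* ℂ) t (φ P) =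
      aeval (Sum.elim x ![s, t]) P := by
    have h2 : (Polynomial.eval₂RingHom ((aeval (Sum.elim x fun _ => s) :
        MvPolynomial (Fin m ⊕ Unit) k →ₐ[k] ℂ) : MvPolynomial (Fin m ⊕ Unit) k →+* ℂ) t).comp
          (φ : MvPolynomial (Fin m ⊕ Fin 2) k →+* Polynomial (MvPolynomial (Fin m ⊕ Unit) k)) =
        ((aeval (Sum.elim x ![s, t]) : MvPolynomial (Fin m ⊕ Fin 2) k →ₐ[k] ℂ) :
          MvPolynomial (Fin m ⊕ Fin 2) k →+* ℂ) := by
      apply MvPolynomial.ringHom_ext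
      · intro r
        simp [hφ, Polynomial.algebraMap_eq, MvPolynomial.algebraMap_eq, IsScalarTower.algebraMap_apply k (MvPolynomial (Fin m ⊕ Unit) k) (Polynomial (MvPolynomial (Fin m ⊕ Unit) k))]
      · intro i
        rcases i with j | j
        · simp [hφ]
        · fin_cases j <;> simp [hφ]
    exact DFunLike.congr_fun h2 P
  rw [← h, Polynomial.eval₂_eq_sum_range]
  rfl

private lemma pg_coeff (𝒰 : Filter ℕ) (L : ℕ) (a : ℕ → ℕ → ℂ)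
    (h : ∀ t : ℂ, Tendsto (fun T => ∑ l ∈ Finset.range L, a T l * t ^ l) 𝒰 (𝓝 0)) (l : ℕ)
    (hl : l < L) : Tendsto (fun T => a T l) 𝒰 (𝓝 0) := by
  set V : Matrix (Fin L) (Fin L) ℂ := Matrix.vandermonde (fun i : Fin L => ((i : ℕ) : ℂ)) with hVd
  have hV : IsUnit V.det := by
    rw [isUnit_iff_ne_zero, hVd, Matrix.det_vandermonde_ne_zero_iff]
    intro i j hij
    have h0 : ((i : ℕ) : ℂ) = ((j : ℕ) : ℂ) := hij
    exact Fin.ext (by exact_mod_cast h0)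
  have h1 : Tendsto (fun T => V.mulVec (fun i : Fin L => a T i)) 𝒰 (𝓝 0) := by
    rw [tendsto_pi_nhds]
    intro i
    have h2 := h ((i : ℕ) : ℂ)
    refine h2.congr (fun T => ?_)
    rw [Finset.sum_range]
    simp [Matrix.mulVec, dotProduct, hVd, Matrix.vandermonde_apply, mul_comm]
  have h2 : Continuous (fun v : Fin L → ℂ => V⁻¹.mulVec v) :=
    Continuous.matrix_mulVec continuous_const continuous_id
  have h3 := (h2.tendsto 0).comp h1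
  rw [Matrix.mulVec_zero] at h3
  have h4 := (tendsto_pi_nhds.1 h3) ⟨l, hl⟩
  refine h4.congr (fun T => ?_)
  show (V⁻¹.mulVec (V.mulVec (fun i : Fin L => a T i))) ⟨l, hl⟩ = a T l
  rw [Matrix.mulVec_mulVec, Matrix.nonsing_inv_mul _ hV, Matrix.one_mulVec]

private lemma pg_key {m : ℕ} (k : Subfield ℂ) (β : Fin m → ℝ) (𝒰 : Ultrafilter ℕ) (u v : ℕ → ℂ)
    (w : ℂ) (hg : Good k β 𝒰 u w) (P : MvPolynomial (Fin m ⊕ Fin 2) k) (ν : ℕ → ℂ)
    (Q : MvPolynomial (Fin 2) ℂ) (hQ : Q ≠ 0)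
    (hlim : ∀ R δ : ℝ, 0 < δ → ∀ᶠ T : ℕ in (𝒰 : Filter ℕ), ∀ (x : Fin m → ℂ) (w : Fin 2 → ℂ),
        (∀ j, ‖x j - Complex.I * (T : ℂ) * (β j : ℂ)‖ ≤ √(T : ℝ)) → (∀ j, ‖w j‖ ≤ R) →
        ‖ν T * aeval (Sum.elim x fun l => ![u T, v T] l * w l) P - eval w Q‖ ≤ δ) :
    ∃ ζ, eval ![w, ζ] Q ≠ 0 := by
  by_contra hcon
  push Not at hcon
  obtain ⟨L, p, hp⟩ := pg_split P
  set x0 : ℕ → Fin m → ℂ := fun T j => Complex.I * (T : ℂ) * (β j : ℂ) with hx0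
  have hx : ∀ (T : ℕ) (j : Fin m), ‖x0 T j - Complex.I * (T : ℂ) * (β j : ℂ)‖ ≤ √(T : ℝ) := by
    intro T j
    simp only [hx0, sub_self, norm_zero]
    positivity
  -- the sequences
  have hpt : ∀ z ζ : ℂ, Tendsto (fun T => ν T * aeval (Sum.elim (x0 T) ![u T * z, v T * ζ]) P)
      (𝒰 : Filter ℕ) (𝓝 (eval ![z, ζ] Q)) := by
    intro z ζ
    rw [Metric.tendsto_nhds]
    intro ε hε
    filter_upwards [hlim (‖z‖ + ‖ζ‖) (ε / 2) (by positivity)] with T hT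
    have h1 := hT (x0 T) ![z, ζ] (hx T) (fun l => by
      fin_cases l
      · show ‖z‖ ≤ ‖z‖ + ‖ζ‖
        linarith [norm_nonneg ζ]
      · show ‖ζ‖ ≤ ‖z‖ + ‖ζ‖
        linarith [norm_nonneg z])
    have h11 : (fun l => ![u T, v T] l * ![z, ζ] l) = ![u T * z, v T * ζ] := by
      funext l
      fin_cases l <;> rfl
    rw [h11] at h1
    rw [dist_eq_norm]
    linarith
  have h1 : ∀ l : ℕ, ∃ (ν' : ℕ → ℂ) (N' : Polynomial ℂ), p l ≠ 0 →
      ((∀ᶠ T : ℕ in (𝒰 : Filter ℕ), ν' T ≠ 0) ∧ N'.eval w ≠ 0 ∧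
        ∀ z, Tendsto (fun T => ν' T * aeval (Sum.elim (x0 T) fun _ => u T * z) (p l))
          (𝒰 : Filter ℕ) (𝓝 (N'.eval z))) := by
    intro l
    by_cases h0 : p l = 0
    · exact ⟨0, 0, fun h => absurd h0 h⟩
    obtain ⟨ν', N', h2, h3, -, h4⟩ := hg (p l) h0
    refine ⟨ν', N', fun _ => ⟨h2, h3, fun z => ?_⟩⟩
    rw [Metric.tendsto_nhds]
    intro ε hε
    filter_upwards [h4 ‖z‖ (ε / 2) (by positivity)] with T hT
    have h5 := hT (x0 T) z (hx T) le_rfl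
    rw [dist_eq_norm]
    linarith
  choose ν' N' hN using h1
  have hsum : ∀ (z ζ : ℂ) (T : ℕ), ν T * aeval (Sum.elim (x0 T) ![u T * z, v T * ζ]) P =
      ∑ l ∈ Finset.range L,
        (ν T * v T ^ l * aeval (Sum.elim (x0 T) fun _ => u T * z) (p l)) * ζ ^ l := by
    intro z ζ T
    rw [hp, Finset.mul_sum]
    refine Finset.sum_congr rfl fun l _ => ?_
    ring
  have hc0 : ∀ l < L, Tendsto
      (fun T => ν T * v T ^ l * aeval (Sum.elim (x0 T) fun _ => u T * w) (p l))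
      (𝒰 : Filter ℕ) (𝓝 0) := by
    intro l hl
    refine pg_coeff (𝒰 : Filter ℕ) L
      (fun T l => ν T * v T ^ l * aeval (Sum.elim (x0 T) fun _ => u T * w) (p l)) (fun t => ?_) l hl
    have h2 := hpt w t
    rw [hcon t] at h2
    exact h2.congr (fun T => hsum w t T)
  have hc : ∀ l < L, p l ≠ 0 → Tendsto (fun T => ν T * v T ^ l / ν' l T)
      (𝒰 : Filter ℕ) (𝓝 0) := by
    intro l hl h0
    obtain ⟨h2, h3, h4⟩ := hN l h0
    have h5 := (hc0 l hl).div (h4 w) h3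
    rw [zero_div] at h5
    refine h5.congr' ?_
    filter_upwards [h2, (h4 w).eventually_ne h3] with T h6 h7
    have h8 : aeval (Sum.elim (x0 T) fun _ => u T * w) (p l) ≠ 0 := right_ne_zero_of_mul h7
    show ν T * v T ^ l * aeval (Sum.elim (x0 T) fun _ => u T * w) (p l) /
      (ν' l T * aeval (Sum.elim (x0 T) fun _ => u T * w) (p l)) = ν T * v T ^ l / ν' l T
    rw [mul_div_mul_right _ _ h8]
  have hall : ∀ z ζ : ℂ, Tendsto
      (fun T => ν T * aeval (Sum.elim (x0 T) ![u T * z, v T * ζ]) P) (𝒰 : Filter ℕ) (𝓝 0) := by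
    intro z ζ
    simp_rw [hsum z ζ]
    rw [← Finset.sum_const_zero (s := Finset.range L) (M := ℂ)]
    refine tendsto_finsetSum _ fun l hl => ?_
    by_cases h0 : p l = 0
    · simp [h0]
    obtain ⟨h2, h3, h4⟩ := hN l h0
    have h5 := ((hc l (Finset.mem_range.1 hl) h0).mul (h4 z)).mul_const (ζ ^ l)
    rw [zero_mul, zero_mul] at h5
    refine h5.congr' ?_
    filter_upwards [h2] with T h6
    show ν T * v T ^ l / ν' l T * (ν' l T * aeval (Sum.elim (x0 T) fun _ => u T * z) (p l)) * ζ ^ l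
      = ν T * v T ^ l * aeval (Sum.elim (x0 T) fun _ => u T * z) (p l) * ζ ^ l
    rw [← mul_assoc (ν T * v T ^ l / ν' l T), div_mul_cancel₀ _ h6]
  apply hQ
  apply MvPolynomial.funext
  intro y
  have h2 : ![y 0, y 1] = y := by
    funext i
    fin_cases i <;> rfl
  have h3 := tendsto_nhds_unique (hpt (y 0) (y 1)) (hall (y 0) (y 1))
  rw [h2] at h3
  rw [h3, map_zero]

private lemma pg_slice' (Q : MvPolynomial (Fin 2) ℂ) (w : ℂ) :
    ∃ q : Polynomial ℂ, ∀ ζ, q.eval ζ = eval ![w, ζ] Q := by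
  refine ⟨aeval ![Polynomial.C w, (Polynomial.X : Polynomial ℂ)] Q, fun ζ => ?_⟩
  have h2 : ((Polynomial.evalRingHom ζ).comp
      (aeval ![Polynomial.C w, (Polynomial.X : Polynomial ℂ)] :
        MvPolynomial (Fin 2) ℂ →ₐ[ℂ] Polynomial ℂ).toRingHom) =
      (eval ![w, ζ] : MvPolynomial (Fin 2) ℂ →+* ℂ) := by
    apply MvPolynomial.ringHom_ext
    · intro r
      simp [Polynomial.algebraMap_eq]
    · intro i
      fin_cases i <;> simp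
  rw [← h2]
  rfl

private lemma pg_cont (Q : MvPolynomial (Fin 2) ℂ) :
    Continuous (fun p : ℂ × ℂ => eval ![p.1, p.2] Q) := by
  have h1 : Continuous (fun x : Fin 2 → ℂ => eval x Q) := MvPolynomial.continuous_eval Q
  refine h1.comp ?_
  refine continuous_pi (fun i => ?_)
  fin_cases i
  · exact continuous_fst
  · exact continuous_snd

private lemma pg_compact (G : ℂ → ℂ → ℂ) (hG : Continuous (fun p : ℂ × ℂ => G p.1 p.2))
    (a b : ℂ) (δ : ℝ) (hδ : 0 < δ) (h : ∀ ζ ∈ Metric.sphere b δ, G a ζ ≠ 0) :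
    ∃ η : ℝ, 0 < η ∧ ∀ᶠ z in 𝓝 a, ∀ ζ ∈ Metric.sphere b δ, η < ‖G z ζ‖ := by
  have hK : IsCompact (Metric.sphere b δ) := isCompact_sphere _ _
  have hKn : (Metric.sphere b δ).Nonempty := NormedSpace.sphere_nonempty.2 hδ.le
  have hc : Continuous (fun p : ℂ × ℂ => ‖G p.1 p.2‖) := hG.norm
  have hc1 : Continuous (fun ζ : ℂ => ‖G a ζ‖) :=
    hc.comp (continuous_const.prodMk continuous_id)
  obtain ⟨ζ0, hζ0, hmin⟩ := hK.exists_isMinOn hKn hc1.continuousOn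
  have h8 : 0 < ‖G a ζ0‖ := norm_pos_iff.2 (h ζ0 hζ0)
  refine ⟨‖G a ζ0‖ / 2, by positivity, ?_⟩
  refine hK.eventually_forall_of_forall_eventually (P := fun z ζ => ‖G a ζ0‖ / 2 < ‖G z ζ‖) ?_
  intro ζ hζ
  have h9 : ‖G a ζ0‖ ≤ ‖G a ζ‖ := hmin hζ
  refine (hc.continuousAt (x := (a, ζ))).eventually_const_lt ?_
  show ‖G a ζ0‖ / 2 < ‖G a ζ‖
  linarith

theorem pair_good {m n : ℕ} (k : Subfield ℂ) (β : Fin m → ℝ)
    (hβ : AlgebraicIndependent k (fun j => Complex.I * (β j : ℂ)))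
    (𝒰 : Ultrafilter ℕ) (h𝒰 : (𝒰 : Filter ℕ) ≤ atTop) (b : ℕ → Fin n → ℂ)
    (hb : ∀ T j, b T j ≠ 0) (w : Fin n → ℂ) (i : Fin n)
    (hg : Good k β 𝒰 (fun T => b T i) (w i))
    (P : Fin n → MvPolynomial (Fin m ⊕ Fin 2) k) (hP : ∀ j, j ≠ i → P j ≠ 0)
    (δ : ℝ) (hδ : 0 < δ) :
    ∃ δ' r : ℝ, 0 < δ' ∧ δ' < δ ∧ 0 < r ∧
      ∀ᶠ T : ℕ in (𝒰 : Filter ℕ), ∀ j, j ≠ i → ∀ (x : Fin m → ℂ) (z ζ : ℂ),
        (∀ l, ‖x l - Complex.I * (T : ℂ) * (β l : ℂ)‖ ≤ √(T : ℝ)) → ‖z - w i‖ ≤ r →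
        ‖ζ - w j‖ = δ' → aeval (Sum.elim x ![b T i * z, b T j * ζ]) (P j) ≠ 0 := by
  classical
  have h2 : ∀ j : Fin n, ∃ (ν : ℕ → ℂ) (Q : MvPolynomial (Fin 2) ℂ), j ≠ i → (Q ≠ 0 ∧
      ∀ R δ : ℝ, 0 < δ → ∀ᶠ T : ℕ in (𝒰 : Filter ℕ), ∀ (x : Fin m → ℂ) (w : Fin 2 → ℂ),
        (∀ j, ‖x j - Complex.I * (T : ℂ) * (β j : ℂ)‖ ≤ √(T : ℝ)) → (∀ j, ‖w j‖ ≤ R) →
        ‖ν T * aeval (Sum.elim x fun l => ![b T i, b T j] l * w l) (P j) - eval w Q‖ ≤ δ) := by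
    intro j
    by_cases hij : j = i
    · exact ⟨0, 0, fun h => absurd hij h⟩
    · obtain ⟨ν, N', -, h3, h4⟩ := lim k β hβ (P j) (hP j hij) 𝒰 h𝒰
        (fun T => ![b T i, b T j]) (fun T l => by
          fin_cases l
          · exact hb T i
          · exact hb T j)
      exact ⟨ν, N', fun _ => ⟨h3, h4⟩⟩
  choose ν2 Q2 hQ2 using h2
  have h3 : ∀ j : Fin n, j ≠ i → ∃ ζ, eval ![w i, ζ] (Q2 j) ≠ 0 := by
    intro j hj
    exact pg_key k β 𝒰 (fun T => b T i) (fun T => b T j) (w i) hg (P j) (ν2 j) (Q2 j)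
      (hQ2 j hj).1 (hQ2 j hj).2
  -- the roots
  have h4 : ∀ j : Fin n, j ≠ i → {ζ : ℂ | eval ![w i, ζ] (Q2 j) = 0}.Finite := by
    intro j hj
    obtain ⟨q, hq⟩ := pg_slice' (Q2 j) (w i)
    have hq0 : q ≠ 0 := by
      rintro rfl
      obtain ⟨ζ, hζ⟩ := h3 j hj
      rw [← hq, Polynomial.eval_zero] at hζ
      exact hζ rfl
    refine (Polynomial.finite_setOfPred_isRoot hq0).subset ?_
    intro ζ hζ
    show q.eval ζ = 0
    rw [hq]
    exact hζ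
  have h5 : (⋃ j : {j : Fin n // j ≠ i},
      (fun ζ => ‖ζ - w j.1‖) '' {ζ : ℂ | eval ![w i, ζ] (Q2 j.1) = 0}).Finite :=
    Set.finite_iUnion fun j => (h4 j.1 j.2).image _
  obtain ⟨δ', hδ'1, hδ'2⟩ : ∃ δ' ∈ Set.Ioo 0 δ, δ' ∉ (⋃ j : {j : Fin n // j ≠ i},
      (fun ζ => ‖ζ - w j.1‖) '' {ζ : ℂ | eval ![w i, ζ] (Q2 j.1) = 0}) :=
    (Set.Ioo_infinite hδ).exists_notMem_finite h5
  have hδ0 : 0 < δ' := hδ'1.1
  have h6 : ∀ j : Fin n, j ≠ i → ∀ ζ ∈ Metric.sphere (w j) δ', eval ![w i, ζ] (Q2 j) ≠ 0 := by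
    intro j hj ζ hζ h7
    apply hδ'2
    refine Set.mem_iUnion.2 ⟨⟨j, hj⟩, ζ, h7, ?_⟩
    rw [mem_sphere_iff_norm] at hζ
    exact hζ
  -- the lower bound on the circle
  have h7 : ∀ j : Fin n, ∃ η : ℝ, 0 < η ∧ (j ≠ i → ∀ᶠ z in 𝓝 (w i),
      ∀ ζ ∈ Metric.sphere (w j) δ', η < ‖eval ![z, ζ] (Q2 j)‖) := by
    intro j
    by_cases hj : j = i
    · exact ⟨1, one_pos, fun h => absurd hj h⟩
    obtain ⟨η, h8, h9⟩ := pg_compact (fun z ζ => eval ![z, ζ] (Q2 j)) (pg_cont (Q2 j))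
      (w i) (w j) δ' hδ0 (h6 j hj)
    exact ⟨η, h8, fun _ => h9⟩
  choose η hη0 hη using h7
  have h8 : ∀ᶠ z in 𝓝 (w i), ∀ j : Fin n, j ≠ i →
      ∀ ζ ∈ Metric.sphere (w j) δ', η j < ‖eval ![z, ζ] (Q2 j)‖ := by
    rw [Filter.eventually_all]
    intro j
    by_cases hj : j = i
    · exact Filter.Eventually.of_forall fun z h => absurd hj h
    · filter_upwards [hη j hj] with z hz _
      exact hz
  obtain ⟨r0, hr0, h9⟩ := Metric.eventually_nhds_iff.1 h8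
  refine ⟨δ', r0 / 2, hδ0, hδ'1.2, by positivity, ?_⟩
  rw [Filter.eventually_all]
  intro j
  by_cases hj : j = i
  · exact Filter.Eventually.of_forall fun T h => absurd hj h
  filter_upwards [(hQ2 j hj).2 (‖w i‖ + ‖w j‖ + r0 + δ') (η j) (hη0 j)] with
    T hT _ x z ζ hx hz hζ
  have h6 : ‖z‖ ≤ ‖w i‖ + ‖w j‖ + r0 + δ' := by
    calc ‖z‖ = ‖w i + (z - w i)‖ := by rw [add_sub_cancel]
      _ ≤ ‖w i‖ + ‖z - w i‖ := norm_add_le _ _
      _ ≤ ‖w i‖ + ‖w j‖ + r0 + δ' := by linarith [norm_nonneg (w j)]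
  have h6' : ‖ζ‖ ≤ ‖w i‖ + ‖w j‖ + r0 + δ' := by
    calc ‖ζ‖ = ‖w j + (ζ - w j)‖ := by rw [add_sub_cancel]
      _ ≤ ‖w j‖ + ‖ζ - w j‖ := norm_add_le _ _
      _ ≤ ‖w i‖ + ‖w j‖ + r0 + δ' := by linarith [norm_nonneg (w i)]
  have h10 := hT x ![z, ζ] hx (fun l => by
    fin_cases l
    · exact h6
    · exact h6')
  have h11 : (fun l => ![b T i, b T j] l * ![z, ζ] l) = ![b T i * z, b T j * ζ] := by
    funext l
    fin_cases l <;> rfl
  rw [h11] at h10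
  have h12 := h9 (y := z) (by rw [dist_eq_norm]; linarith) j hj ζ
    (by rw [mem_sphere_iff_norm]; exact hζ)
  intro h13
  rw [h13, mul_zero, zero_sub, norm_neg] at h10
  linarith

end Pool.Agent.EXZ
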