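import Pool.Agent.EXG.CoreB

/-!
# EXZ / PhasesZ: the phases, `c` supported in the coordinates `ι`

PROOF.  As `EXG.phases` (CoreB on main): `κ^0_j = log (s j) + ηi j + 2 π i l^0_j` for all `j`; the correction `l^1` from `EXG.densu` for `c ∘ ι`
only in the coordinates `ι l` (`l^1 = 0` for the others).
-/

set_option autoImplicit false

namespace Pool.Agent.EXZ

theorem phasesZ {n N : ℕ} (hN : 2 ≤ N) (ι : Fin N → Fin n) (hι : Function.Injective ι)
    (c : Fin n → ℝ) (hcι : ∀ v : Fin N → ℤ, v ≠ 0 → ∑ l, c (ι l) * v l ≠ 0)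
    (hc0 : ∀ j, j ∉ Set.range ι → c j = 0) (β : Fin n → ℝ)
    (hE : ∑ j, c j * β j = 0) (f0 : ℂ) (θ ε : ℝ) (hε : 0 < ε) :
    ∃ K : ℝ, ∀ (T : ℝ) (s ηi : Fin n → ℂ), (∀ j, s j ≠ 0) →
      ∑ j, c j * Real.log ‖s j‖ = f0.re → ∑ j, (c j : ℂ) * ηi j = Complex.I * θ →
      (∀ j, ‖ηi j‖ ≤ 1) →
      ∃ κ : Fin n → ℂ, (∀ j, Complex.exp (κ j) = s j * Complex.exp (ηi j)) ∧
        ‖∑ j, (c j : ℂ) * κ j - f0‖ ≤ ε ∧
        ∀ j, ‖κ j - Complex.I * T * (β j : ℂ)‖ ≤ |Real.log ‖s j‖| + K := by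
  obtain ⟨L, hL⟩ := Pool.Agent.EXG.densu hN (fun l => c (ι l)) hcι
    (Real.pi * ∑ j, |c j| + |θ| + |f0.im|) ε hε
  refine ⟨Real.pi + 1 + 2 * Real.pi * L, ?_⟩
  intro T s ηi hs hlog hη hη1
  have hpi := Real.pi_pos
  -- the first choice of the branches
  obtain ⟨m, hm⟩ : ∃ m : Fin n → ℤ,
      ∀ j, |(s j).arg + 2 * Real.pi * m j - T * β j| ≤ Real.pi := by
    refine ⟨fun j => round ((T * β j - (s j).arg) / (2 * Real.pi)), fun j => ?_⟩
    have h1 := abs_sub_round ((T * β j - (s j).arg) / (2 * Real.pi))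
    have h2 : (s j).arg + 2 * Real.pi *
        ((round ((T * β j - (s j).arg) / (2 * Real.pi)) : ℤ) : ℝ) - T * β j =
        -((2 * Real.pi) * ((T * β j - (s j).arg) / (2 * Real.pi) -
          ((round ((T * β j - (s j).arg) / (2 * Real.pi)) : ℤ) : ℝ))) := by
      have h3 : (2 * Real.pi) * ((T * β j - (s j).arg) / (2 * Real.pi)) = T * β j - (s j).arg := by
        field_simp
      rw [mul_sub, h3]
      ring
    rw [h2, abs_neg, abs_mul, abs_of_pos (by positivity : 0 < 2 * Real.pi)]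
    nlinarith
  have hsum : |∑ j, c j * ((s j).arg + 2 * Real.pi * m j)| ≤ Real.pi * ∑ j, |c j| := by
    have h1 : ∑ j, c j * ((s j).arg + 2 * Real.pi * m j) =
        ∑ j, c j * ((s j).arg + 2 * Real.pi * m j - T * β j) := by
      have h2 : ∑ j, c j * ((s j).arg + 2 * Real.pi * m j - T * β j) =
          ∑ j, c j * ((s j).arg + 2 * Real.pi * m j) - T * ∑ j, c j * β j := by
        rw [Finset.mul_sum, ← Finset.sum_sub_distrib]
        exact Finset.sum_congr rfl fun j _ => by ring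
      rw [h2, hE, mul_zero, sub_zero]
    rw [h1, Finset.mul_sum]
    refine (Finset.abs_sum_le_sum_abs _ _).trans (Finset.sum_le_sum fun j _ => ?_)
    rw [abs_mul, mul_comm]
    exact mul_le_mul_of_nonneg_right (hm j) (abs_nonneg _)
  obtain ⟨l', hl1', hl2'⟩ := hL (-(∑ j, c j * ((s j).arg + 2 * Real.pi * m j) + θ - f0.im)) (by
    rw [abs_neg]
    refine (abs_sub _ _).trans ?_
    have := abs_add_le (∑ j, c j * ((s j).arg + 2 * Real.pi * m j)) θ
    linarith)
  -- the correction, zero outside the coordinates `ι`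
  obtain ⟨l, hl1, hl2⟩ : ∃ l : Fin n → ℤ, (∀ j, |l j| ≤ L) ∧
      |∑ j, c j * (2 * Real.pi * l j) -
        (-(∑ j, c j * ((s j).arg + 2 * Real.pi * m j) + θ - f0.im))| < ε := by
    refine ⟨Function.extend ι l' 0, fun j => ?_, ?_⟩
    · by_cases hj : j ∈ Set.range ι
      · obtain ⟨i, rfl⟩ := hj
        rw [hι.extend_apply]
        exact hl1' i
      · rw [Function.extend_apply' _ _ _ (fun h => hj h)]
        simp
    · have h1 : ∑ i, c (ι i) * (2 * Real.pi * l' i) =
          ∑ j, c j * (2 * Real.pi * (Function.extend ι l' 0 j : ℤ)) := by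
        refine Finset.sum_of_injOn ι hι.injOn (fun _ _ => Finset.mem_coe.2 (Finset.mem_univ _))
          (fun j _ hj => ?_) (fun i _ => ?_)
        · rw [hc0 j (fun h => hj (by simpa using h)), zero_mul]
        · rw [hι.extend_apply]
      rw [← h1]
      exact hl2'
  refine ⟨fun j => Complex.log (s j) + ηi j + ((m j + l j : ℤ) : ℂ) * (2 * Real.pi * Complex.I),
    fun j => ?_, ?_, fun j => ?_⟩
  · rw [Complex.exp_add, Complex.exp_add, Complex.exp_log (hs j),
      Complex.exp_int_mul_two_pi_mul_I, mul_one]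
  · have e : ∑ j, (c j : ℂ) * (Complex.log (s j) + ηi j +
        ((m j + l j : ℤ) : ℂ) * (2 * Real.pi * Complex.I)) =
        (((∑ j, c j * Real.log ‖s j‖ : ℝ) : ℂ) + ∑ j, (c j : ℂ) * ηi j) +
          (((∑ j, c j * ((s j).arg + 2 * Real.pi * m j) : ℝ) : ℂ) * Complex.I +
          ((∑ j, c j * (2 * Real.pi * l j) : ℝ) : ℂ) * Complex.I) := by
      push_cast
      rw [Finset.sum_mul, Finset.sum_mul, ← Finset.sum_add_distrib, ← Finset.sum_add_distrib,
        ← Finset.sum_add_distrib]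
      refine Finset.sum_congr rfl fun j _ => ?_
      unfold Complex.log
      ring
    rw [e, hlog, hη]
    have e2 : ((f0.re : ℂ) + Complex.I * θ) +
        (((∑ j, c j * ((s j).arg + 2 * Real.pi * m j) : ℝ) : ℂ) * Complex.I +
          ((∑ j, c j * (2 * Real.pi * l j) : ℝ) : ℂ) * Complex.I) - f0 =
        ((∑ j, c j * (2 * Real.pi * l j) -
          (-(∑ j, c j * ((s j).arg + 2 * Real.pi * m j) + θ - f0.im)) : ℝ) : ℂ) * Complex.I := by
      have e3 : f0 = (f0.re : ℂ) + f0.im * Complex.I := (Complex.re_add_im f0).symm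
      conv_lhs => rw [e3]
      simp only [Complex.add_re, Complex.ofReal_re, Complex.mul_re, Complex.I_re, mul_zero,
        Complex.ofReal_im, Complex.I_im, mul_one, sub_self, add_zero]
      push_cast
      ring
    rw [e2, norm_mul, Complex.norm_I, mul_one, Complex.norm_real, Real.norm_eq_abs]
    exact hl2.le
  · have e : Complex.log (s j) + ηi j + ((m j + l j : ℤ) : ℂ) * (2 * Real.pi * Complex.I) -
        Complex.I * T * (β j : ℂ) = ((Real.log ‖s j‖ : ℝ) : ℂ) +
          (((s j).arg + 2 * Real.pi * m j - T * β j : ℝ) : ℂ) * Complex.I + ηi j +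
          ((2 * Real.pi * l j : ℝ) : ℂ) * Complex.I := by
      unfold Complex.log
      push_cast
      ring
    show ‖Complex.log (s j) + ηi j + ((m j + l j : ℤ) : ℂ) * (2 * Real.pi * Complex.I) -
        Complex.I * T * (β j : ℂ)‖ ≤ _
    rw [e]
    have h1 : ‖((Real.log ‖s j‖ : ℝ) : ℂ)‖ = |Real.log ‖s j‖| := by
      rw [Complex.norm_real, Real.norm_eq_abs]
    have h2 : ‖(((s j).arg + 2 * Real.pi * m j - T * β j : ℝ) : ℂ) * Complex.I‖ ≤ Real.pi := by
      rw [norm_mul, Complex.norm_I, mul_one, Complex.norm_real, Real.norm_eq_abs]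
      exact hm j
    have h3 : ‖((2 * Real.pi * l j : ℝ) : ℂ) * Complex.I‖ ≤ 2 * Real.pi * L := by
      rw [norm_mul, Complex.norm_I, mul_one, Complex.norm_real, Real.norm_eq_abs, abs_mul,
        abs_of_pos (by positivity : 0 < 2 * Real.pi)]
      apply mul_le_mul_of_nonneg_left _ (by positivity)
      exact_mod_cast hl1 j
    have h4 := hη1 j
    refine (norm_add_le _ _).trans ?_
    have h5 := norm_add_le (((Real.log ‖s j‖ : ℝ) : ℂ) +
          (((s j).arg + 2 * Real.pi * m j - T * β j : ℝ) : ℂ) * Complex.I) (ηi j)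
    have h6 := norm_add_le ((Real.log ‖s j‖ : ℝ) : ℂ)
          ((((s j).arg + 2 * Real.pi * m j - T * β j : ℝ) : ℂ) * Complex.I)
    linarith

end Pool.Agent.EXZ
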