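import Pool.Agent.EXZ.SelZ
import Pool.Agent.EXZ.PhasesZ
import Pool.Agent.EXG.NiceB2
import Pool.Agent.EXG.PrimA
import Pool.Agent.EXG.PrimB
import Pool.Agent.EXG.CoreA
import Pool.Agent.EXG.Root
import Pool.Agent.EXG.Sol

/-!
# EXZ / CoreZ: assembly of the analytic part, `c` supported in the coordinates `ι`

PROOF.  `EXG.core` (helper36) with three changes: `sel_ptZ` instead of `sel_pt`; `exists_r1` for the coordinates `ι` (`n = N`, `c ∘ ι`,
`P (ι i) (ι j)`, `b' T ∘ ι`, index `l`, `ηi ∘ ι`; `∑ c_j ζ_j = ∑ c (ι l) ζ_(ι l)`); `phasesZ` instead of `phases`.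
-/

set_option autoImplicit false

namespace Pool.Agent.EXZ

open MvPolynomial Pool.Agent.EXL Pool.Agent.EXI Pool.Agent.EXG Topology Filter

private theorem ind_scale {k : Subfield ℂ} {ι : Type} (y : ι → ℂ) (hy : AlgebraicIndependent k y)
    (t : k) (ht : t ≠ 0) : AlgebraicIndependent k (fun j => (t : ℂ) * y j) := by
  rw [algebraicIndependent_iff]
  intro f hf
  have h1 : aeval y (bind₁ (fun j => C t * X j) f) = 0 := by
    rw [aeval_bind₁]
    have h2 : (fun i => aeval y (C t * X i : MvPolynomial ι k)) = fun j => (t : ℂ) * y j := by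
      funext j
      rw [map_mul, aeval_C, aeval_X]
      rfl
    rw [h2]
    exact hf
  have h2 := algebraicIndependent_iff.1 hy _ h1
  have h3 : bind₁ (fun j => C t⁻¹ * X j) (bind₁ (fun j => C t * X j) f) = f := by
    rw [bind₁_bind₁]
    have h4 : (fun i => bind₁ (fun j => (C t⁻¹ * X j : MvPolynomial ι k)) (C t * X i)) =
        (X : ι → MvPolynomial ι k) := by
      funext j
      rw [map_mul, algHom_C, algebraMap_eq, bind₁_X_right, ← mul_assoc, ← C_mul,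
        mul_inv_cancel₀ ht, C_1, one_mul]
    rw [h4]
    exact AlgHom.congr_fun bind₁_X_left f
  rw [← h3, h2, map_zero]

private theorem ev_sqrt (A B D : ℝ) (hD : 0 < D) :
    ∀ᶠ T : ℕ in atTop, A * Real.log T + B ≤ D * √(T : ℝ) := by
  have h1 : (fun x : ℝ => A * Real.log x + B) =o[atTop] fun x : ℝ => x ^ (1 / 2 : ℝ) := by
    apply Asymptotics.IsLittleO.add
    · exact (isLittleO_log_rpow_atTop (by norm_num)).const_mul_left A
    · apply Asymptotics.isLittleO_const_left.2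
      right
      exact tendsto_norm_atTop_atTop.comp (tendsto_rpow_atTop (by norm_num))
  have h2 := (h1.comp_tendsto (tendsto_natCast_atTop_atTop (R := ℝ))).def hD
  filter_upwards [h2] with T hT
  simp only [Function.comp] at hT
  rw [Real.sqrt_eq_rpow]
  refine (le_abs_self _).trans (hT.trans ?_)
  rw [Real.norm_of_nonneg (Real.rpow_nonneg (Nat.cast_nonneg T) _)]

private theorem euler {k : Subfield ℂ} {n : ℕ} (d : ℕ) (L : MvPolynomial (Fin n) k)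
    (hL : L.IsHomogeneous d) (β : Fin n → ℝ) (c : Fin n → ℝ) (μ : ℂ) (hμ : μ ≠ 0)
    (h0 : aeval (fun j => (β j : ℂ)) L = 0)
    (hd : ∀ j, aeval (fun j => (β j : ℂ)) (pderiv j L) = μ * (c j : ℂ)) :
    ∑ j, c j * β j = 0 := by
  have h1 := congrArg (aeval (fun j => (β j : ℂ))) hL.sum_X_mul_pderiv
  rw [map_sum] at h1
  have h2 : ∀ j, aeval (fun j => (β j : ℂ)) (X j * pderiv j L) = μ * ((c j * β j : ℝ) : ℂ) := by
    intro j
    rw [map_mul, aeval_X, hd]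
    push_cast
    ring
  simp only [h2] at h1
  rw [← Finset.mul_sum, map_nsmul, h0, smul_zero] at h1
  have h3 := (mul_eq_zero.1 h1).resolve_left hμ
  exact_mod_cast h3

private theorem aeval_ren {k : Subfield ℂ} {m : ℕ} (x : Fin m → ℂ) (z : ℂ)
    (N : MvPolynomial (Option (Fin m)) k) :
    aeval (Sum.elim x fun _ : Unit => z)
      (rename (fun o : Option (Fin m) => o.elim (Sum.inr ()) Sum.inl) N) =
      aeval (cons z x) N := by
  rw [aeval_rename]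
  congr 2
  funext o
  cases o <;> rfl

private theorem ren_ne {k : Subfield ℂ} {m : ℕ} (N : MvPolynomial (Option (Fin m)) k)
    (hN : N ≠ 0) :
    rename (fun o : Option (Fin m) => o.elim (Sum.inr () : Fin m ⊕ Unit) Sum.inl) N ≠ 0 := by
  intro h
  apply hN
  refine rename_injective _ ?_ (h.trans (map_zero _).symm)
  intro o o' hoo
  cases o <;> cases o' <;> simp_all

private theorem aeval_F {k : Subfield ℂ} {m : ℕ} {a b x y : Fin (m + 1) → ℂ}
    (hxy : Spec k (Sum.elim a b) (Sum.elim x y)) (F : MvPolynomial (Fin (m + 1)) k)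
    (h : aeval a F = 0) : aeval x F = 0 := by
  have h1 := hxy (rename Sum.inl F) (by
    rw [aeval_rename]
    exact h)
  rw [aeval_rename] at h1
  exact h1

/-- a continuous function on a convex set which avoids an interval -/
private theorem ivt {E : Type} [NormedAddCommGroup E] [NormedSpace ℝ E] (Om : Set E)
    (hconv : Convex ℝ Om) (g : E → ℝ) (hg : ContinuousOn g Om) (δ : ℝ) (hδ : 0 < δ)
    (h : ∀ u ∈ Om, g u ≤ δ → g u ≤ δ / 2) (u0 : E) (hu0 : u0 ∈ Om) (h0 : g u0 ≤ δ / 2) :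
    ∀ u ∈ Om, g u ≤ δ := by
  intro u hu
  by_contra hc
  push Not at hc
  obtain ⟨v, hv, hgv⟩ := hconv.isPreconnected.intermediate_value hu0 hu hg
    (show δ ∈ Set.Icc (g u0) (g u) from ⟨by linarith, hc.le⟩)
  have := h v hv hgv.le
  linarith

private theorem core_T {k : Subfield ℂ} {m : ℕ} {a b : Fin (m + 1) → ℂ} {i : Fin (m + 1)}
    (pr : Prim k a b i) (F : MvPolynomial (Fin (m + 1)) k) (haF : aeval a F = 0)
    (P : Fin (m + 1) → Fin (m + 1) → MvPolynomial (Fin m ⊕ Fin 2) k)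
    (hPV : ∀ i j, i ≠ j → ∀ x y : Fin (m + 1) → ℂ, Spec k (Sum.elim a b) (Sum.elim x y) →
      aeval (Sum.elim (fun l : Fin m => x l.succ) ![y i, y j]) (P i j) = 0)
    (h : MvPolynomial (Fin (m + 1) ⊕ Fin (m + 1)) k) (N : MvPolynomial (Option (Fin m)) k)
    (hN : ∀ x y : Fin (m + 1) → ℂ, Spec k (Sum.elim a b) (Sum.elim x y) →
      aeval (Sum.elim x y) h = 0 → aeval (bs i x y) N = 0)
    (c : Fin (m + 1) → ℝ) (hc0 : c 0 ≠ 0) (X : Fin m → ℂ) (X0 f0 : ℂ) (R ε : ℝ) (hR : 0 < R)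
    (hε : 0 < ε) (s : Fin (m + 1) → ℂ) (hs : ∀ j, s j ≠ 0) (x ηT ηi : Fin (m + 1) → ℂ)
    (hx0 : ‖x 0 - X0‖ ≤ ε / 2) (hx : ∀ j : Fin m, x j.succ = X j)
    (hxy : Spec k (Sum.elim a b) (Sum.elim x fun j => s j * Complex.exp (ηT j)))
    (hηT : ‖ηT‖ ≤ 1 / 4) (hηi : ‖ηi‖ ≤ 1 / 4)
    (r0 r1 δ' μ ρ : ℝ) (hr1 : 0 < r1) (hr10 : r1 < r0) (hr0 : r0 ≤ 3 / 16) (hδ' : δ' ≤ 3 / 16)
    (hμ : 0 < μ) (hρ : 0 ≤ ρ) (hR1 : 64 * (m + 1) * (ρ + 1) ≤ R)
    (hR2 : 64 * (m + 1) * (ρ + 1) * (∑ j, |c j|) ≤ R * μ)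
    (hDl : ∀ (x : Fin m → ℂ) (z : ℂ), (∀ j, ‖x j - X j‖ ≤ R) →
      ‖z - Complex.exp (ηi i)‖ ≤ r0 → aeval (cons (s i * z) x) pr.Dl ≠ 0)
    (hNT : ∀ (x : Fin m → ℂ) (z : ℂ), (∀ j, ‖x j - X j‖ ≤ R) →
      ‖z - Complex.exp (ηi i)‖ ≤ r0 → aeval (cons (s i * z) x) N ≠ 0)
    (hP : ∀ j, j ≠ i → ∀ (x : Fin m → ℂ) (z ζ : ℂ), (∀ l, ‖x l - X l‖ ≤ R) →
      ‖z - Complex.exp (ηi i)‖ ≤ r0 → ‖ζ - Complex.exp (ηi j)‖ = δ' →
      aeval (Sum.elim x ![s i * z, s j * ζ]) (P i j) ≠ 0)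
    (hcirc : ∀ ζ : Fin (m + 1) → ℂ, (∀ j, ‖ζ j‖ ≤ 1) →
      (∀ i' j, i' ≠ j → aeval (Sum.elim X
        ![s i' * Complex.exp (ηi i' + ζ i'), s j * Complex.exp (ηi j + ζ j)]) (P i' j) = 0) →
      ‖Complex.exp (ηi i + ζ i) - Complex.exp (ηi i)‖ = r1 → μ ≤ ‖∑ j, (c j : ℂ) * ζ j‖)
    (hsepr : ∀ x : Fin (m + 1) → ℂ, aeval x F = 0 → (∀ j : Fin m, ‖x j.succ - X j‖ ≤ R) →
      ‖x 0 - X0‖ ≤ ε → ‖x 0 - X0‖ ≤ ε / 2)
    (happ : ∀ x : Fin (m + 1) → ℂ, aeval x F = 0 → (∀ j : Fin m, ‖x j.succ - X j‖ ≤ ρ + 1) →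
      ‖x 0 - X0‖ ≤ ε → ‖∑ j, (c j : ℂ) * x j - f0‖ ≤ μ / 8)
    (hηTi : ‖Complex.exp (ηT i) - Complex.exp (ηi i)‖ < r1)
    (hηTj : ∀ j, ‖Complex.exp (ηT j) - Complex.exp (ηi j)‖ < δ')
    (hsum : ‖∑ j, (c j : ℂ) * (ηT j - ηi j)‖ ≤ μ / 8)
    (κ : Fin (m + 1) → ℂ) (hκ1 : ∀ j, Complex.exp (κ j) = s j * Complex.exp (ηi j))
    (hκ2 : ‖∑ j, (c j : ℂ) * κ j - f0‖ ≤ μ / 8) (hκ3 : ∀ j : Fin m, ‖κ j.succ - X j‖ ≤ ρ) :
    ∃ x : Fin (m + 1) → ℂ, Spec k (Sum.elim a b) (Sum.elim x fun j => Complex.exp (x j)) ∧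
      aeval (Sum.elim x fun j => Complex.exp (x j)) h ≠ 0 := by
  have hw : ∀ j, Complex.exp (ηi j) ≠ 0 := fun j => Complex.exp_ne_zero _
  have hwn : ∀ j, 3 / 4 ≤ ‖Complex.exp (ηi j)‖ := by
    intro j
    rw [Complex.norm_exp]
    have h1 : |(ηi j).re| ≤ 1 / 4 :=
      (Complex.abs_re_le_norm _).trans ((norm_le_pi_norm ηi j).trans hηi)
    have h2 := Real.add_one_le_exp (ηi j).re
    have h3 := (abs_le.1 h1).1
    linarith
  obtain ⟨Om, hOm⟩ : ∃ Om : Set (Option (Fin m) → ℂ),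
      Om = {u | (∀ j, ‖u (some j) - X j‖ < R) ∧ ‖u none - Complex.exp (ηi i)‖ < r0} := ⟨_, rfl⟩
  have hyq : ∀ j, s j * Complex.exp (ηT j) / s j = Complex.exp (ηT j) :=
    fun j => mul_div_cancel_left₀ _ (hs j)
  obtain ⟨x0, Λ, hx0d, hΛ, hΛ1, hsp, hΛi, hbx, hby⟩ := sheet_log pr X R r0 δ' hR
    (hr1.trans hr10) s (fun j => Complex.exp (ηi j)) hs hw
    (fun j => by have := hwn j; linarith) (by have := hwn i; linarith)
    (fun u hu1 hu2 => hDl _ _ hu1 hu2) (P i) (fun j hj => hPV i j (Ne.symm hj)) hP x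
    (fun j => s j * Complex.exp (ηT j)) hxy hx (by rw [hyq]; exact hηTi.trans hr10)
    (fun j _ => by rw [hyq]; exact hηTj j) Om hOm
  rw [hyq] at hbx hby
  have hu0 : cons (Complex.exp (ηT i)) X ∈ Om := by
    rw [hOm]
    refine ⟨fun j => ?_, ?_⟩
    · show ‖X j - X j‖ < R
      rw [sub_self, norm_zero]
      exact hR
    · exact hηTi.trans hr10
  have hconv : Convex ℝ Om := by
    have h1 : Om = (⋂ j : Fin m, (fun u : Option (Fin m) → ℂ => u (some j)) ⁻¹'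
        Metric.ball (X j) R) ∩ (fun u : Option (Fin m) → ℂ => u none) ⁻¹'
          Metric.ball (Complex.exp (ηi i)) r0 := by
      rw [hOm]
      ext u
      constructor
      · rintro ⟨h2, h3⟩
        exact ⟨Set.mem_iInter.2 fun j => mem_ball_iff_norm.2 (h2 j), mem_ball_iff_norm.2 h3⟩
      · rintro ⟨h2, h3⟩
        exact ⟨fun j => mem_ball_iff_norm.1 (Set.mem_iInter.1 h2 j), mem_ball_iff_norm.1 h3⟩
    rw [h1]
    refine Convex.inter (convex_iInter fun j => ?_) ?_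
    · exact (convex_ball _ _).is_linear_preimage ⟨fun _ _ => rfl, fun _ _ => rfl⟩
    · exact (convex_ball _ _).is_linear_preimage ⟨fun _ _ => rfl, fun _ _ => rfl⟩
  have hFu : ∀ u ∈ Om, aeval (Fin.cons (x0 u) (fun j => u (some j)) : Fin (m + 1) → ℂ) F = 0 :=
    fun u hu => aeval_F (hsp u hu) F haF
  have hloc : ∀ u ∈ Om, ‖x0 u - X0‖ ≤ ε := by
    refine ivt Om hconv (fun u => ‖x0 u - X0‖) ?_ ε hε ?_ _ hu0 ?_
    · exact (hx0d.continuousOn.sub continuousOn_const).norm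
    · intro u hu hle
      have := hsepr _ (hFu u hu) (fun j => by
        rw [Fin.cons_succ]
        rw [hOm] at hu
        exact (hu.1 j).le) (by rw [Fin.cons_zero]; exact hle)
      rwa [Fin.cons_zero] at this
    · show ‖x0 (cons (Complex.exp (ηT i)) X) - X0‖ ≤ ε / 2
      rw [hbx]
      exact hx0
  have hΛT : ∀ j, Λ j (cons (Complex.exp (ηT i)) X) = ηT j - ηi j := by
    intro j
    have h1 : Complex.exp (Λ j (cons (Complex.exp (ηT i)) X)) = Complex.exp (ηT j - ηi j) := by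
      have h2 := hby j
      rw [mul_assoc] at h2
      have h3 := mul_left_cancel₀ (hs j) h2
      rw [Complex.exp_sub, ← h3, mul_div_cancel_left₀ _ (hw j)]
    have h4 : ‖Λ j (cons (Complex.exp (ηT i)) X)‖ ≤ 1 := hΛ1 j _ hu0
    have h5 : ‖ηT j - ηi j‖ ≤ 1 := by
      refine (norm_sub_le _ _).trans ?_
      have := (norm_le_pi_norm ηT j).trans hηT
      have := (norm_le_pi_norm ηi j).trans hηi
      linarith
    have h6 := abs_le.1 ((Complex.abs_im_le_norm _).trans h4)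
    have h7 := abs_le.1 ((Complex.abs_im_le_norm _).trans h5)
    have h8 := Real.pi_gt_three
    exact Complex.exp_inj_of_neg_pi_lt_of_le_pi (by linarith) (by linarith) (by linarith)
      (by linarith) h1
  obtain ⟨u, hu, hu1, hu2, hu3⟩ := solve c hc0 X (Complex.exp (ηi i)) f0 R r0 ρ μ hρ hμ hR1 hR2
    Om hOm Λ x0 hΛ hx0d hΛ1 κ hκ3 (by
      intro u hu hun
      have h1 := happ _ (hFu u hu) (fun j => by rw [Fin.cons_succ]; exact hun j)
        (by rw [Fin.cons_zero]; exact hloc u hu)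
      rw [Fin.sum_univ_succ, Fin.cons_zero] at h1
      simpa only [Fin.cons_succ] using h1) hκ2 r1 hr1 hr10 (by
      intro u hu hun
      have huO : u ∈ Om := by
        rw [hOm]
        refine ⟨fun j => ?_, ?_⟩
        · rw [hu j, sub_self, norm_zero]
          exact hR
        · rw [hun]
          exact hr10
      have huX : (fun j : Fin m => u (some j)) = X := funext hu
      refine hcirc (fun j => Λ j u) (fun j => hΛ1 j u huO) ?_ ?_
      · intro i' j hij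
        have h1 := hPV i' j hij _ _ (hsp u huO)
        simp only [Fin.cons_succ] at h1
        rw [huX] at h1
        simp only [Complex.exp_add]
        rw [← mul_assoc, ← mul_assoc]
        exact h1
      · rw [Complex.exp_add, hΛi u huO]
        exact hun) (cons (Complex.exp (ηT i)) X) (fun j => rfl) hηTi (by
      simp only [hΛT]
      exact hsum)
  have hsol : ∀ j, Complex.exp ((Fin.cons (x0 u) (fun j => u (some j)) : Fin (m + 1) → ℂ) j) =
      s j * Complex.exp (ηi j) * Complex.exp (Λ j u) := by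
    intro j
    rw [← hκ1, ← Complex.exp_add]
    congr 1
    rcases Fin.eq_zero_or_eq_succ j with rfl | ⟨l, rfl⟩
    · rw [Fin.cons_zero, hu2]
    · rw [Fin.cons_succ, hu1]
  refine ⟨Fin.cons (x0 u) (fun j => u (some j)), ?_, ?_⟩
  · simp only [hsol]
    exact hsp u hu
  · simp only [hsol]
    intro h0
    have h1 := hN _ _ (hsp u hu) h0
    have hu' := hu
    rw [hOm] at hu'
    refine hNT (fun j => u (some j)) (u none) (fun j => (hu'.1 j).le) hu'.2.le ?_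
    have h2 : bs i (Fin.cons (x0 u) (fun j => u (some j)) : Fin (m + 1) → ℂ)
        (fun j => s j * Complex.exp (ηi j) * Complex.exp (Λ j u)) =
        cons (s i * u none) (fun j => u (some j)) := by
      unfold bs
      congr 1
      show s i * Complex.exp (ηi i) * Complex.exp (Λ i u) = s i * u none
      rw [mul_assoc, hΛi u hu]
    rw [← h2]
    exact h1

theorem coreZ (k : Subfield ℂ) (hk : (k : Set ℂ).Countable) {m N : ℕ} (hN : 2 ≤ N)
    (a b : Fin (m + 1) → ℂ) (hb : ∀ j, b j ≠ 0) (F : MvPolynomial (Fin (m + 1)) k)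
    (haF : aeval a F = 0)
    (htd : td (k : Set ℂ) (Sum.elim a b) = m + 1)
    (ι : Fin N → Fin (m + 1)) (hι : Function.Injective ι) (h0ι : ∃ l, ι l = 0) (k0 : Fin N)
    (hfib : ∀ x : Fin (m + 1) → ℂ, AlgebraicIndependent k (fun j : Fin m => x j.succ) →
      aeval x F = 0 → ∃ Q : Ideal (MvPolynomial (Fin (m + 1)) ℂ), Q.IsPrime ∧
      (∀ j : Fin (m + 1), (X j : MvPolynomial (Fin (m + 1)) ℂ) ∉ Q) ∧
      Algebra.trdeg ℂ (MvPolynomial (Fin (m + 1)) ℂ ⧸ Q) = 1 ∧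
      (∀ e : ℂ, (X (ι k0) - C e : MvPolynomial (Fin (m + 1)) ℂ) ∉ Q) ∧
      ∀ w : Fin (m + 1) → ℂ, (∀ g ∈ Q, eval w g = 0) → Spec k (Sum.elim a b) (Sum.elim x w))
    (d : ℕ) (Fc : ℕ → MvPolynomial (Fin (m + 1)) k) (hFc : ∀ i, (Fc i).IsHomogeneous i)
    (hFs : F = ∑ i ∈ Finset.range (d + 1), Fc i)
    (β : Fin (m + 1) → ℝ) (hβ : AlgebraicIndependent k (fun j : Fin m => Complex.I * (β j.succ : ℂ)))
    (c : Fin (m + 1) → ℝ) (hcι : ∀ v : Fin N → ℤ, v ≠ 0 → ∑ l, c (ι l) * v l ≠ 0)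
    (hc0 : ∀ j, j ∉ Set.range ι → c j = 0)
    (μ : ℂ) (hμ : μ ≠ 0) (h0 : aeval (fun j => (β j : ℂ)) (Fc d) = 0)
    (hd : ∀ j, aeval (fun j => (β j : ℂ)) (pderiv j (Fc d)) = μ * (c j : ℂ))
    (h : MvPolynomial (Fin (m + 1) ⊕ Fin (m + 1)) k) (hh : aeval (Sum.elim a b) h ≠ 0) :
    ∃ x : Fin (m + 1) → ℂ,
      Spec k (Sum.elim a b) (Sum.elim x fun j => Complex.exp (x j)) ∧
      aeval (Sum.elim x fun j => Complex.exp (x j)) h ≠ 0 := by
  classical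
  obtain ⟨𝒰, h𝒰⟩ : ∃ 𝒰 : Ultrafilter ℕ, (𝒰 : Filter ℕ) ≤ atTop :=
    ⟨Filter.hyperfilter ℕ, Nat.hyperfilter_le_atTop⟩
  have hc00 : c 0 ≠ 0 := by
    obtain ⟨l, hl⟩ := h0ι
    have h1 := hcι (Pi.single l 1) (by
      intro h2
      have := congrFun h2 l
      simp at this)
    rw [Finset.sum_eq_single l (fun j _ hj => by
      rw [Pi.single_eq_of_ne hj]
      simp) (fun h2 => absurd (Finset.mem_univ _) h2), hl] at h1
    simpa using h1
  have hsumι : ∀ ζ : Fin (m + 1) → ℂ, ∑ j, (c j : ℂ) * ζ j = ∑ l, (c (ι l) : ℂ) * ζ (ι l) := by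
    intro ζ
    rw [← Finset.sum_image (s := Finset.univ) (g := ι) (f := fun j => (c j : ℂ) * ζ j)
      (fun x _ y _ h => hι h)]
    symm
    apply Finset.sum_subset (Finset.subset_univ _)
    intro j _ hj
    have h1 : j ∉ Set.range ι := by
      rintro ⟨l, rfl⟩
      exact hj (Finset.mem_image_of_mem _ (Finset.mem_univ _))
    rw [hc0 j h1]
    simp
  obtain ⟨f0, ε, hε, hex, hsepr, happ⟩ := root_loc k d Fc hFc β c μ hμ h0 hd hc00
  rw [← hFs] at hex hsepr happ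
  obtain ⟨x, hx⟩ := hex.choice
  obtain ⟨P, hP, hPV⟩ : ∃ P : Fin (m + 1) → Fin (m + 1) → MvPolynomial (Fin m ⊕ Fin 2) k,
      (∀ i j, i ≠ j → P i j ≠ 0) ∧ ∀ i j, i ≠ j → ∀ x y : Fin (m + 1) → ℂ,
        Spec k (Sum.elim a b) (Sum.elim x y) →
        aeval (Sum.elim (fun l : Fin m => x l.succ) ![y i, y j]) (P i j) = 0 := by
    refine ⟨fun i j => if h : i ≠ j then (exists_pair k a b htd i j h).choose else 0,
      fun i j hij => ?_, fun i j hij => ?_⟩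
    · simp only [dif_pos hij]
      exact (exists_pair k a b htd i j hij).choose_spec.1
    · simp only [dif_pos hij]
      exact (exists_pair k a b htd i j hij).choose_spec.2
  have hfibT : ∀ᶠ T : ℕ in (𝒰 : Filter ℕ), ∃ Q : Ideal (MvPolynomial (Fin (m + 1)) ℂ),
      Q.IsPrime ∧ (∀ j : Fin (m + 1), (X j : MvPolynomial (Fin (m + 1)) ℂ) ∉ Q) ∧
      Algebra.trdeg ℂ (MvPolynomial (Fin (m + 1)) ℂ ⧸ Q) = 1 ∧
      (∀ e : ℂ, (X (ι k0) - C e : MvPolynomial (Fin (m + 1)) ℂ) ∉ Q) ∧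
      ∀ w : Fin (m + 1) → ℂ, (∀ g ∈ Q, eval w g = 0) →
        Spec k (Sum.elim a b) (Sum.elim (x T) w) := by
    filter_upwards [hx.filter_mono h𝒰, (eventually_ge_atTop 1).filter_mono h𝒰] with T hT hT1
    refine hfib (x T) ?_ hT.1
    have h1 := ind_scale _ hβ ((T : ℕ) : k) (by
      rw [Nat.cast_ne_zero]
      omega)
    have h2 : (fun j : Fin m => x T j.succ) =
        fun j : Fin m => (((T : ℕ) : k) : ℂ) * (Complex.I * (β j.succ : ℂ)) := by
      funext j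
      rw [hT.2.1 j]
      push_cast
      ring
    rw [h2]
    exact h1
  obtain ⟨b', l0, θ, η, ηi, C, hb', hT, hηi, hηiθ, hηt, hN1, hN2⟩ := sel_ptZ k hk a b hb htd P hP
    hPV ι hι k0 c hcι hc0 f0.re (fun j => β j.succ) hβ 𝒰 h𝒰 x (by
      filter_upwards [hx.filter_mono h𝒰] with T hT
      exact hT.2.1) hfibT
  obtain ⟨i, hi⟩ : ∃ i, i = ι l0 := ⟨_, rfl⟩
  rw [← hi] at hN1 hN2
  -- convergence of the exponentials
  have hηe : ∀ j, Tendsto (fun T => Complex.exp (η T j)) (𝒰 : Filter ℕ)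
      (𝓝 (Complex.exp (ηi j))) := fun j =>
    (Complex.continuous_exp.tendsto _).comp ((continuous_apply j).tendsto ηi |>.comp hηt)
  have hηn : ∀ j, ∀ r : ℝ, 0 < r → ∀ᶠ T : ℕ in (𝒰 : Filter ℕ),
      ‖Complex.exp (η T j) - Complex.exp (ηi j)‖ < r := by
    intro j r hr
    filter_upwards [(hηe j).eventually (Metric.ball_mem_nhds _ hr)] with T hT
    exact mem_ball_iff_norm.1 hT
  have hN1' : ∀ N : MvPolynomial (Option (Fin m)) k, N ≠ 0 → ∃ r : ℝ, 0 < r ∧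
      ∀ᶠ T : ℕ in (𝒰 : Filter ℕ), ∀ (x : Fin m → ℂ) (z : ℂ),
        (∀ j, ‖x j - Complex.I * (T : ℂ) * (β j.succ : ℂ)‖ ≤ √(T : ℝ)) →
        ‖z - Complex.exp (ηi i)‖ ≤ r → aeval (cons (b' T i * z) x) N ≠ 0 := by
    intro N hN
    obtain ⟨r, hr, hrT⟩ := hN1 _ (ren_ne N hN)
    refine ⟨r, hr, ?_⟩
    filter_upwards [hrT] with T hT x z hx hz
    have := hT x z hx hz
    rwa [aeval_ren] at this
  have hind : AlgebraicIndependent k (bs i a b) := by
    by_contra hni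
    obtain ⟨N, hN0, hN⟩ := exists_pair1 k a b i hni
    obtain ⟨r, hr, hrT⟩ := hN1' N hN0
    obtain ⟨T, hT1, hT2, hT3, hT4⟩ := (hrT.and ((hx.filter_mono h𝒰).and (hT.and (hηn i r hr)))).exists
    have h1 : aeval (cons (b' T i * Complex.exp (η T i)) (fun j : Fin m => x T j.succ)) N = 0 :=
      hN (x T) (fun j => b' T j * Complex.exp (η T j)) hT3.1
    have h2 : ∀ j : Fin m, ‖(fun j : Fin m => x T j.succ) j -
        Complex.I * (T : ℂ) * (β j.succ : ℂ)‖ ≤ √(T : ℝ) := by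
      intro j
      have h3 : x T j.succ = Complex.I * (T : ℂ) * (β j.succ : ℂ) := hT2.2.1 j
      show ‖x T j.succ - Complex.I * (T : ℂ) * (β j.succ : ℂ)‖ ≤ √(T : ℝ)
      rw [h3, sub_self, norm_zero]
      exact Real.sqrt_nonneg _
    exact hT1 (fun j => x T j.succ) (Complex.exp (η T i)) h2 hT4.le h1
  obtain ⟨pr⟩ := exists_prim k a b hb htd i hind
  obtain ⟨N', hN0', hN'⟩ := exists_norm k a b htd i hind h hh
  obtain ⟨ra, hra, hraT⟩ := hN1' pr.Dl pr.ne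
  obtain ⟨rb, hrb, hrbT⟩ := hN1' N' hN0'
  obtain ⟨δ', rc, hδ', hδ'1, hrc, hrcT⟩ := hN2 (3 / 16) (by norm_num)
  obtain ⟨r0, hr0⟩ : ∃ r0 : ℝ, r0 = min (min ra rb) (min rc (3 / 16)) := ⟨_, rfl⟩
  have hr0pos : 0 < r0 := by
    rw [hr0]
    exact lt_min (lt_min hra hrb) (lt_min hrc (by norm_num))
  have hr0a : r0 ≤ ra := hr0 ▸ (min_le_left _ _).trans (min_le_left _ _)
  have hr0b : r0 ≤ rb := hr0 ▸ (min_le_left _ _).trans (min_le_right _ _)
  have hr0c : r0 ≤ rc := hr0 ▸ (min_le_right _ _).trans (min_le_left _ _)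
  have hr0d : r0 ≤ 3 / 16 := hr0 ▸ (min_le_right _ _).trans (min_le_right _ _)
  obtain ⟨r1, μ', hr1, hr10, hμ', hcirc0⟩ := exists_r1 k (fun j => β j.succ) hβ (fun l => c (ι l))
    hcι (fun l l' => P (ι l) (ι l')) (fun l l' hl => hP _ _ (fun h => hl (hι h))) 𝒰 h𝒰
    (fun T l => b' T (ι l)) (fun T l => hb' T (ι l)) l0 (fun l => ηi (ι l)) r0 hr0pos
  have hcirc : ∀ᶠ T : ℕ in (𝒰 : Filter ℕ), ∀ ζ : Fin (m + 1) → ℂ, (∀ j, ‖ζ j‖ ≤ 1) →
      (∀ i' j, i' ≠ j → aeval (Sum.elim (fun l => Complex.I * (T : ℂ) * (β (Fin.succ l) : ℂ))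
        ![b' T i' * Complex.exp (ηi i' + ζ i'), b' T j * Complex.exp (ηi j + ζ j)]) (P i' j) = 0) →
      ‖Complex.exp (ηi i + ζ i) - Complex.exp (ηi i)‖ = r1 → μ' ≤ ‖∑ j, (c j : ℂ) * ζ j‖ := by
    filter_upwards [hcirc0] with T hT ζ hζ hrel hnorm
    rw [hsumι]
    rw [hi] at hnorm
    exact hT (fun l => ζ (ι l)) (fun l => hζ (ι l))
      (fun l l' hl => hrel _ _ (fun h => hl (hι h))) hnorm
  obtain ⟨K, hK⟩ := phasesZ hN ι hι c hcι hc0 β (euler d (Fc d) (hFc d) β c μ hμ h0 hd) f0 θ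
    (μ' / 8) (by positivity)
  have hsumT : Tendsto (fun T => ∑ j, (c j : ℂ) * (η T j - ηi j)) (𝒰 : Filter ℕ) (𝓝 0) := by
    have h1 : Tendsto (fun T => ∑ j, (c j : ℂ) * (η T j - ηi j)) (𝒰 : Filter ℕ)
        (𝓝 (∑ j, (c j : ℂ) * (ηi j - ηi j))) :=
      tendsto_finsetSum _ fun j _ => (((continuous_apply j).tendsto ηi |>.comp hηt).sub_const
        (ηi j)).const_mul _
    simpa using h1
  have hsum : ∀ᶠ T : ℕ in (𝒰 : Filter ℕ), ‖∑ j, (c j : ℂ) * (η T j - ηi j)‖ ≤ μ' / 8 := by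
    filter_upwards [hsumT.eventually (Metric.ball_mem_nhds _ (show 0 < μ' / 8 by positivity))]
      with T hT
    have h2 : dist (∑ j, (c j : ℂ) * (η T j - ηi j)) 0 < μ' / 8 := hT
    rw [dist_zero_right] at h2
    exact h2.le
  have hall : ∀ᶠ T : ℕ in (𝒰 : Filter ℕ), ∀ j,
      ‖Complex.exp (η T j) - Complex.exp (ηi j)‖ < δ' :=
    Filter.eventually_all.2 fun j => hηn j δ' hδ'
  have hA1 := ev_sqrt (64 * (m + 1) * |C|) (64 * (m + 1) * (|K| + 1)) 1 one_pos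
  have hA2 := ev_sqrt (64 * (m + 1) * |C| * (∑ j, |c j|))
    (64 * (m + 1) * (|K| + 1) * (∑ j, |c j|)) μ' hμ'
  have hlog : ∀ᶠ T : ℕ in atTop, 1 ≤ Real.log T :=
    (Real.tendsto_log_atTop.comp tendsto_natCast_atTop_atTop).eventually_ge_atTop 1
  obtain ⟨T, ⟨⟨⟨hT1, hT2⟩, ⟨hT3, hT4⟩⟩, ⟨⟨hT5, hT6⟩, ⟨hT7, hT8⟩⟩⟩,
      ⟨⟨⟨hT9, hT10⟩, ⟨hT11, hT12⟩⟩, ⟨⟨hT13, hT14⟩, hT15⟩⟩⟩ :=
    ((((hx.filter_mono h𝒰).and hT).and ((hsepr.filter_mono h𝒰).and
      ((happ (|C| + |K| + 1) (μ' / 8) (by positivity)).filter_mono h𝒰))).and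
      ((hraT.and hrbT).and (hrcT.and hcirc)) |>.and
      ((((hηn i r1 hr1).and hall).and (hsum.and (hA1.filter_mono h𝒰))).and
        (((hA2.filter_mono h𝒰).and (hlog.filter_mono h𝒰)).and ((eventually_ge_atTop 1).filter_mono h𝒰)))).exists
  obtain ⟨hxF, hxs, hx0⟩ := hT1
  obtain ⟨hxy, hηT, hηre, hbκ, hblog⟩ := hT2
  have hTpos : (0 : ℝ) < T := by exact_mod_cast hT15
  have hK0 := abs_nonneg K
  have hC0 := abs_nonneg C
  obtain ⟨κ, hκ1, hκ2, hκ3⟩ := hK (T : ℝ) (b' T) ηi (hb' T) hbκ hηiθ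
    (fun j => ((norm_le_pi_norm ηi j).trans hηi).trans (by norm_num))
  have hm0 : (0 : ℝ) ≤ m := Nat.cast_nonneg m
  refine core_T pr F haF P hPV h N' hN' c hc00 (fun j => Complex.I * (T : ℂ) * (β j.succ : ℂ))
    (Complex.I * (T : ℂ) * (β 0 : ℂ)) f0 (√(T : ℝ)) (ε * T) (Real.sqrt_pos.2 hTpos) (by positivity)
    (b' T) (hb' T) (x T) (η T) ηi hx0 hxs hxy hηT hηi r0 r1 δ' μ' (|C| * Real.log T + |K|) hr1 hr10
    hr0d hδ'1.le hμ' (by positivity) (by linarith) (by nlinarith)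
    (fun x z hx hz => hT5 x z hx (hz.trans hr0a)) (fun x z hx hz => hT6 x z hx (hz.trans hr0b))
    (fun j hj x z ζ hx hz hζ => hT7 j hj x z ζ hx (hz.trans hr0c) hζ) hT8 hT3 ?_ hT9 hT10 hT11 κ
    hκ1 hκ2 ?_
  · intro x' hx'F hx' hx'0
    refine hT4 x' hx'F (fun j => (hx' j).trans ?_) hx'0
    nlinarith
  · intro j
    have h1 := hκ3 j.succ
    rw [Complex.ofReal_natCast] at h1
    refine h1.trans ?_
    have h2 := hblog j.succ
    have h3 : C * Real.log T ≤ |C| * Real.log T :=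
      mul_le_mul_of_nonneg_right (le_abs_self C) (by linarith)
    have h4 := le_abs_self K
    linarith

end Pool.Agent.EXZ
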