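import Pool.Agent.EXG.Defs

/-!
# EXZ / Defs
-/

set_option autoImplicit false

namespace Pool.Agent.EXZ

open MvPolynomial Pool.Agent.EXG Topology Filter

/-- The limit of no polynomial `N ≠ 0` over `k` vanishes at `w` (scale `u T` in the last variable). -/
def Good (k : Subfield ℂ) {m : ℕ} (β : Fin m → ℝ) (𝒰 : Ultrafilter ℕ) (u : ℕ → ℂ) (w : ℂ) : Prop :=
  ∀ N : MvPolynomial (Fin m ⊕ Unit) k, N ≠ 0 → ∃ (ν : ℕ → ℂ) (N' : Polynomial ℂ),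
    (∀ᶠ T : ℕ in (𝒰 : Filter ℕ), ν T ≠ 0) ∧ N'.eval w ≠ 0 ∧
    (∀ C : ℝ, (∀ᶠ T : ℕ in (𝒰 : Filter ℕ), |Real.log ‖u T‖| ≤ C * Real.log T) →
      ∃ K : ℝ, ∀ᶠ T : ℕ in (𝒰 : Filter ℕ), ‖ν T‖ ≤ (T : ℝ) ^ K) ∧
    ∀ R δ : ℝ, 0 < δ → ∀ᶠ T : ℕ in (𝒰 : Filter ℕ), ∀ (x : Fin m → ℂ) (z : ℂ),
      (∀ j, ‖x j - Complex.I * (T : ℂ) * (β j : ℂ)‖ ≤ √(T : ℝ)) → ‖z‖ ≤ R →
      ‖ν T * aeval (Sum.elim x fun _ => u T * z) N - N'.eval z‖ ≤ δ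

end Pool.Agent.EXZ
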