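import Pool.Agent.EXZ.CoreZ
import Pool.Agent.EXZ.GradZ
import Pool.Agent.EXZ.FibreZ
import Pool.Agent.EXG.Gz
import Pool.Agent.EXG.Rz
import Pool.Agent.EXK2.Fin
import Pool.Agent.EXP.Main

/-!
# EXZ / FinC: the theorem in adapted coordinates

PROOF.  As `EXG.mainZ` (EXG/Fin.lean). `v` is not a period of `G` (`hvA`, `hper`). If `NonHypC L v`: `EXK2.main2` with
`growth_of_nonhyp`. So `¬ NonHypC L v`; then `G ∣ conj G` (`EXK.nonreal_factor`). `exists_real_zero`, `gradZ`, `coreZ`, `fibre_curveZ`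
(`i = ι l` with `v (ι l) ≠ 0`, `k0 = l`), `gen_zero`.
-/

set_option autoImplicit false

namespace Pool.Agent.EXZ

open MvPolynomial Pool.Agent.EXL Pool.Agent.EXI Pool.Agent.EXK Pool.Agent.EXG

private lemma aeval_eq (k : Subfield ℂ) {ι : Type} (x : ι → ℂ) (f : MvPolynomial ι k) :
    aeval x f = eval x (map (algebraMap k ℂ) f) := by
  rw [eval_map, aeval_def]

private lemma map_hc (k : Subfield ℂ) {ι : Type} (i : ℕ) (f : MvPolynomial ι k) :
    map (algebraMap k ℂ) (homogeneousComponent i f) =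
      homogeneousComponent i (map (algebraMap k ℂ) f) := by
  ext d
  rw [coeff_map, coeff_homogeneousComponent, coeff_homogeneousComponent, coeff_map]
  split_ifs with h
  · rfl
  · exact map_zero _

private lemma tdeg_map (k : Subfield ℂ) {ι : Type} (f : MvPolynomial ι k) :
    (map (algebraMap k ℂ) f).totalDegree = f.totalDegree := by
  rw [totalDegree, totalDegree, support_map_of_injective f (algebraMap k ℂ).injective]

/-- a vector whose `ι`-part is not zero is not a period -/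
private lemma not_period {m N : ℕ} (G : MvPolynomial (Fin (m + 1)) ℂ) (ι : Fin N → Fin (m + 1))
    (hι : Function.Injective ι) (G' : MvPolynomial (Fin N) ℂ) (hG' : G = rename ι G')
    (hper : ∀ v : Fin N → ℤ, v ≠ 0 → ∃ x : Fin N → ℂ, eval (fun l => x l + v l) G' ≠ eval x G')
    (v : Fin (m + 1) → ℤ) (hv : ∃ l, v (ι l) ≠ 0) :
    ∃ x : Fin (m + 1) → ℂ, eval (fun j => x j + v j) G ≠ eval x G := by
  classical
  obtain ⟨l, hl⟩ := hv
  obtain ⟨x, hx⟩ := hper (fun l => v (ι l)) (by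
    intro h
    exact hl (congrFun h l))
  refine ⟨fun j => if h : ∃ l, ι l = j then x h.choose else 0, ?_⟩
  have h1 : ∀ l, (if h : ∃ l', ι l' = ι l then x h.choose else 0) = x l := by
    intro l
    have h : ∃ l', ι l' = ι l := ⟨l, rfl⟩
    rw [dif_pos h]
    exact congrArg x (hι h.choose_spec)
  rw [hG', eval_rename, eval_rename]
  have h2 : ((fun j => (if h : ∃ l, ι l = j then x h.choose else 0) + (v j : ℂ)) ∘ ι) =
      fun l => x l + (v (ι l) : ℂ) := by
    funext l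
    simp only [Function.comp_apply]
    rw [h1]
  have h3 : ((fun j => (if h : ∃ l, ι l = j then x h.choose else 0)) ∘ ι) = x := by
    funext l
    exact h1 l
  rw [h2, h3]
  exact hx

theorem mainC {m N : ℕ} (hN : 2 ≤ N)
    (P : Ideal (MvPolynomial (Fin (m + 1) ⊕ Fin (m + 1)) ℂ)) (hP : P.IsPrime)
    (hY : ∀ j : Fin (m + 1), (X (Sum.inr j) : MvPolynomial (Fin (m + 1) ⊕ Fin (m + 1)) ℂ) ∉ P)
    (hdim : Algebra.trdeg ℂ (MvPolynomial (Fin (m + 1) ⊕ Fin (m + 1)) ℂ ⧸ P) = (m + 1 : ℕ))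
    (F : MvPolynomial (Fin (m + 1)) ℂ) (hF0 : F ≠ 0)
    (hF : ∀ f : MvPolynomial (Fin (m + 1)) ℂ, rename Sum.inl f ∈ P ↔ F ∣ f)
    (w : Valuation (MvPolynomial (Fin (m + 1) ⊕ Fin (m + 1)) ℂ) (WithZero (Multiplicative ℤ)))
    (hw : ∀ f, w f = 0 ↔ f ∈ P)
    (hwx : ∀ f : MvPolynomial (Fin (m + 1)) ℂ, ¬ F ∣ f → w (rename Sum.inl f) = 1)
    (v : Fin (m + 1) → ℤ) (hwv : ∀ j, w (X (Sum.inr j)) = WithZero.exp (-(v j)))
    (G R : MvPolynomial (Fin (m + 1)) ℂ) (r : ℕ)
    (hL : homogeneousComponent F.totalDegree F = G * R)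
    (hGh : G.IsHomogeneous r) (hG : Irreducible G) (hGR : ¬ G ∣ R)
    (ι : Fin N → Fin (m + 1)) (hι : Function.Injective ι) (h0ι : ∃ l, ι l = 0)
    (G' : MvPolynomial (Fin N) ℂ) (hG' : G = rename ι G')
    (hper : ∀ v : Fin N → ℤ, v ≠ 0 → ∃ x : Fin N → ℂ, eval (fun l => x l + v l) G' ≠ eval x G')
    (hvA : ∃ l, v (ι l) ≠ 0)
    (h : MvPolynomial (Fin (m + 1) ⊕ Fin (m + 1)) ℂ) (hh : h ∉ P) :
    ∃ z : Fin (m + 1) → ℂ, (∀ f ∈ P, eval (Sum.elim z fun j => Complex.exp (z j)) f = 0) ∧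
      eval (Sum.elim z fun j => Complex.exp (z j)) h ≠ 0 := by
  classical
  have hv0 : v ≠ 0 := by
    rintro rfl
    obtain ⟨l, hl⟩ := hvA
    exact hl rfl
  have hvper := not_period G ι hι G' hG' hper v hvA
  have hR : R ≠ 0 := by
    rintro rfl
    exact hGR (dvd_zero _)
  by_cases hvN : NonHypC (homogeneousComponent F.totalDegree F) v
  · exact EXK2.main2 P hP hY hdim F hF0 hF w hw hwx v hv0 hwv
      (EXK2.growth_of_nonhyp F v hvN) h hh
  have hconj : G ∣ map (starRingEnd ℂ) G := by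
    by_contra hconj
    apply hvN
    rw [hL]
    exact nonreal_factor G R r hGh hG hconj hR v hvper
  obtain ⟨l0, hl0⟩ := hvA
  obtain ⟨k, hk, p, hC, hp, hx⟩ := exists_generic2 P hP
    (((h.coeffs : Set ℂ) ∪ (F.coeffs : Set ℂ)) ∪
      (((G.coeffs : Set ℂ) ∪ (R.coeffs : Set ℂ)) ∪ {Complex.I}))
    (((Finset.countable_toSet _).union (Finset.countable_toSet _)).union
      (((Finset.countable_toSet _).union (Finset.countable_toSet _)).union
        (Set.countable_singleton _)))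
  have hI : Complex.I ∈ k := hC (Or.inr (Or.inr rfl))
  obtain ⟨h₀, hh₀⟩ := exists_descent k h (fun c hc => hC (Or.inl (Or.inl hc)))
  obtain ⟨F₀, hF₀⟩ := exists_descent k F (fun c hc => hC (Or.inl (Or.inr hc)))
  obtain ⟨G₀, hG₀⟩ := exists_descent k G (fun c hc => hC (Or.inr (Or.inl (Or.inl hc))))
  obtain ⟨R₀, hR₀⟩ := exists_descent k R (fun c hc => hC (Or.inr (Or.inl (Or.inr hc))))
  have hinj : Function.Injective (map (algebraMap k ℂ) :
      MvPolynomial (Fin (m + 1)) k → MvPolynomial (Fin (m + 1)) ℂ) :=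
    map_injective _ (algebraMap k ℂ).injective
  have hpe : Sum.elim (fun j => p (Sum.inl j)) (fun j => p (Sum.inr j)) = p := by
    funext i
    rcases i with i | i <;> rfl
  have hb : ∀ j, p (Sum.inr j) ≠ 0 := by
    intro j h0
    apply hY j
    have h2 := (hp (X (Sum.inr j))).1 (by rw [aeval_X, h0])
    rwa [map_X] at h2
  have hk0 : F₀ ≠ 0 := by
    rintro rfl
    rw [map_zero] at hF₀
    exact hF0 hF₀.symm
  have hker : ∀ f : MvPolynomial (Fin (m + 1)) k,
      aeval (fun j => p (Sum.inl j)) f = 0 ↔ F₀ ∣ f := by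
    intro f
    have h1 : aeval (fun j => p (Sum.inl j)) f = aeval p (rename Sum.inl f) := by
      rw [aeval_rename]
      rfl
    rw [h1, hp, map_rename, hF, ← hF₀]
    exact ⟨dvd_of_map k F₀ f, fun h2 => map_dvd (map (algebraMap k ℂ)) h2⟩
  have htd := td_of_trdeg P hP k hk p hp hx (m + 1) hdim
  -- the leading form
  have hL₀ : homogeneousComponent F₀.totalDegree F₀ = G₀ * R₀ := by
    apply hinj
    rw [map_mul, map_hc, ← tdeg_map, hF₀, hG₀, hR₀, hL]
  have hG₀h : G₀.IsHomogeneous r := by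
    rw [← hG₀] at hGh
    exact IsHomogeneous.of_map (algebraMap k ℂ).injective hGh
  have hirr : Irreducible (map (algebraMap k ℂ) G₀) := by rw [hG₀]; exact hG
  have hGR₀ : ¬ G₀ ∣ R₀ := by
    intro hd
    apply hGR
    rw [← hG₀, ← hR₀]
    exact map_dvd (map (algebraMap k ℂ)) hd
  have hR₀0 : R₀ ≠ 0 := by
    rintro rfl
    exact hGR₀ (dvd_zero _)
  have hconj₀ : map (algebraMap k ℂ) G₀ ∣ map (starRingEnd ℂ) (map (algebraMap k ℂ) G₀) := by
    rw [hG₀]
    exact hconj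
  have hvN₀ : ¬ NonHypC (map (algebraMap k ℂ) (G₀ * R₀)) v := by
    rw [map_mul, hG₀, hR₀, ← hL]
    exact hvN
  obtain ⟨β, hβ⟩ := exists_real_zero k hk G₀ R₀ r hG₀h hirr hR₀0 v (by rw [hG₀]; exact hvper) hvN₀
  obtain ⟨c, μ, hμ, hcι, hc0, hd, hind⟩ := gradZ k hI G₀ R₀ r hG₀h hirr hGR₀ ι hι h0ι G'
    (by rw [hG₀]; exact hG') hper hconj₀ β hβ
  -- independence of `a_1, .., a_m`
  have hdegG : 0 < degreeOf 0 G := by
    by_contra hcon
    have h0 : degreeOf 0 G = 0 := by omega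
    obtain ⟨l, hl⟩ := h0ι
    obtain ⟨x, hxv⟩ := not_period G ι hι G' hG' hper (Pi.single 0 1) ⟨l, by rw [hl]; simp⟩
    apply hxv
    rw [eval_eq, eval_eq]
    refine Finset.sum_congr rfl fun μ hμ => ?_
    congr 1
    refine Finset.prod_congr rfl fun j _ => ?_
    by_cases hj : j = 0
    · subst hj
      have h1 := monomial_le_degreeOf 0 hμ
      have h2 : μ 0 = 0 := by omega
      rw [h2, pow_zero, pow_zero]
    · simp [hj]
  have hdeg : 0 < degreeOf 0 F := EXP.degreeOf_pos_of_top F G R hF0 hdegG hL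
  have ha : AlgebraicIndependent k (fun j : Fin m => p (Sum.inl j.succ)) := by
    rw [algebraicIndependent_iff]
    intro f hf
    by_contra hf0
    have h1 : aeval (fun j => p (Sum.inl j)) (rename Fin.succ f) = 0 := by
      rw [aeval_rename]
      exact hf
    have h2 := (hker _).1 h1
    have h3 : F ∣ rename Fin.succ (map (algebraMap k ℂ) f) := by
      rw [← hF₀, ← map_rename]
      exact map_dvd (map (algebraMap k ℂ)) h2
    refine EXP.not_dvd_rename F hdeg (map (algebraMap k ℂ) f) ?_ h3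
    intro h4
    apply hf0
    exact map_injective _ (algebraMap k ℂ).injective (by rw [h4, map_zero])
  have hfib : ∀ x : Fin (m + 1) → ℂ, AlgebraicIndependent k (fun j : Fin m => x j.succ) →
      aeval x F₀ = 0 → ∃ Q : Ideal (MvPolynomial (Fin (m + 1)) ℂ), Q.IsPrime ∧
      (∀ j : Fin (m + 1), (X j : MvPolynomial (Fin (m + 1)) ℂ) ∉ Q) ∧
      Algebra.trdeg ℂ (MvPolynomial (Fin (m + 1)) ℂ ⧸ Q) = 1 ∧
      (∀ e : ℂ, (X (ι l0) - C e : MvPolynomial (Fin (m + 1)) ℂ) ∉ Q) ∧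
      ∀ w : Fin (m + 1) → ℂ, (∀ g ∈ Q, eval w g = 0) →
        Spec k (Sum.elim (fun j => p (Sum.inl j)) (fun j => p (Sum.inr j))) (Sum.elim x w) := by
    intro x hx' hxF
    obtain ⟨Q, hQ, hQY, hQd, hQe, hQw⟩ := fibre_curveZ P hP hY hdim F hF0 hF w hw hwx v hwv
      (ι l0) hl0 k hk p hp hx x (by
        intro f
        rw [hker f]
        exact gen_zero k F₀ hk0 (fun j => p (Sum.inl j)) hker ha x hx' hxF f)
    refine ⟨Q, hQ, hQY, hQd, hQe, ?_⟩
    intro w hw
    rw [hpe]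
    intro f hf
    rw [aeval_eq]
    exact hQw w hw _ ((hp f).1 hf)
  obtain ⟨x, hsp, hne⟩ := coreZ k hk hN (fun j => p (Sum.inl j)) (fun j => p (Sum.inr j)) hb F₀
    ((hker F₀).2 dvd_rfl) (by rw [hpe]; exact htd) ι hι h0ι l0 hfib F₀.totalDegree
    (fun i => homogeneousComponent i F₀) (fun i => homogeneousComponent_isHomogeneous i F₀)
    (sum_homogeneousComponent F₀).symm β hind c hcι hc0 μ hμ
    (by
      show aeval (fun j => (β j : ℂ)) (homogeneousComponent F₀.totalDegree F₀) = 0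
      rw [hL₀, map_mul, (hβ G₀).2 dvd_rfl, zero_mul])
    (by
      intro j
      show aeval (fun j => (β j : ℂ)) (pderiv j (homogeneousComponent F₀.totalDegree F₀)) = _
      rw [hL₀]
      exact hd j)
    h₀ (by
      rw [hpe]
      intro h0
      exact hh (hh₀ ▸ (hp h₀).1 h0))
  rw [hpe] at hsp
  refine ⟨x, ?_, ?_⟩
  · exact hx _ fun f hf => hsp f ((hp f).2 hf)
  · rw [← hh₀, ← aeval_eq]
    exact hne

end Pool.Agent.EXZ
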