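import Pool.Agent.EXZ.Defs
import Pool.Agent.EXG.Lim

/-!
# EXZ / Lim1: goodness outside a countable set

PROOF.  `lim1`: proof of `EXG.lim` for `κ = Unit` (`N = ∑_e a_e(X') Z^e`, `ν T = (a_{e₀}(I T β) u_T^{e₀})⁻¹` for the index `e₀` of
the maximal term along `𝒰`); the new clause: `‖a_{e₀}(I T β)‖ ≥ T^{-1}` (indeed `~ c T^d`, `d ≥ 0`), `‖u_T‖^{e₀} ≥ T^{-C e₀}`.
`exists_good`: `Z i` = roots of the `N'` of `lim1` for all `N ≠ 0` (`k` countable, so countably many `N`).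
-/

set_option autoImplicit false

namespace Pool.Agent.EXZ

open MvPolynomial Pool.Agent.EXG Topology Filter

private noncomputable def scal {k : Subfield ℂ} {m : ℕ} (a : MvPolynomial (Fin m) k) (τ : ℂ)
    (z : Fin m → ℂ) : ℂ :=
  ∑ s ∈ a.support, (algebraMap k ℂ (coeff s a)) * τ ^ (a.totalDegree - s.degree) * ∏ j, z j ^ s j

private theorem scal_cont {k : Subfield ℂ} {m : ℕ} (a : MvPolynomial (Fin m) k) :
    Continuous (fun p : ℂ × (Fin m → ℂ) => scal a p.1 p.2) := by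
  unfold scal
  fun_prop

private theorem deg_le {k : Subfield ℂ} {m : ℕ} {a : MvPolynomial (Fin m) k} {s : Fin m →₀ ℕ}
    (hs : s ∈ a.support) : s.degree ≤ a.totalDegree := by
  have h := le_totalDegree hs
  exact h

private theorem scal_inv {k : Subfield ℂ} {m : ℕ} (a : MvPolynomial (Fin m) k) {T : ℂ}
    (_hT : T ≠ 0) (x : Fin m → ℂ) :
    scal a T⁻¹ (fun j => x j / T) = (T ^ a.totalDegree)⁻¹ * aeval x a := by
  rw [aeval_def, eval₂_eq', Finset.mul_sum]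
  unfold scal
  refine Finset.sum_congr rfl fun s hs => ?_
  have h1 := deg_le hs
  have h2 : ∏ j, (x j / T) ^ s j = (∏ j, x j ^ s j) * (T ^ s.degree)⁻¹ := by
    simp_rw [div_pow]
    rw [Finset.prod_div_distrib, Finset.prod_pow_eq_pow_sum, Finsupp.degree_eq_sum,
      div_eq_mul_inv]
  have h3 : T ^ a.totalDegree = T ^ (a.totalDegree - s.degree) * T ^ s.degree := by
    rw [← pow_add, Nat.sub_add_cancel h1]
  rw [h2, h3, mul_inv, inv_pow]
  ring

private theorem scal_zero {k : Subfield ℂ} {m : ℕ} (a : MvPolynomial (Fin m) k) (z : Fin m → ℂ) :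
    scal a 0 z = aeval z (homogeneousComponent a.totalDegree a) := by
  classical
  rw [homogeneousComponent_apply, map_sum, Finset.sum_filter]
  unfold scal
  refine Finset.sum_congr rfl fun s hs => ?_
  have h1 := deg_le hs
  by_cases h : s.degree = a.totalDegree
  · rw [if_pos h, h, Nat.sub_self, pow_zero, mul_one, aeval_monomial]
    congr 1
    rw [Finsupp.prod_fintype]
    intro i
    rw [pow_zero]
  · rw [if_neg h, zero_pow (by omega), mul_zero, zero_mul]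

private theorem top_ne {k : Subfield ℂ} {m : ℕ} {a : MvPolynomial (Fin m) k} (ha : a ≠ 0) :
    homogeneousComponent a.totalDegree a ≠ 0 := by
  have hne : a.support.Nonempty := support_nonempty.2 ha
  obtain ⟨s, hs, hsd⟩ := Finset.exists_mem_eq_sup a.support hne (fun s => s.sum fun _ e => e)
  intro h
  have h1 := congrArg (coeff s) h
  rw [coeff_homogeneousComponent, coeff_zero] at h1
  have h2 : s.degree = a.totalDegree := by
    rw [totalDegree, hsd]
    rfl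
  rw [if_pos h2] at h1
  exact (mem_support_iff.1 hs) h1

private theorem conv1 {m : ℕ} (k : Subfield ℂ) (β : Fin m → ℝ)
    (hβ : AlgebraicIndependent k (fun j => Complex.I * (β j : ℂ)))
    (a : MvPolynomial (Fin m) k) (ha : a ≠ 0) : ∃ c : ℂ, c ≠ 0 ∧ ∀ ε : ℝ, 0 < ε →
      ∀ᶠ T : ℕ in atTop, ∀ x : Fin m → ℂ,
        (∀ j, ‖x j - Complex.I * (T : ℂ) * (β j : ℂ)‖ ≤ √(T : ℝ)) →
        ‖aeval x a / (c * (T : ℂ) ^ a.totalDegree) - 1‖ ≤ ε := by
  set z₀ : Fin m → ℂ := fun j => Complex.I * (β j : ℂ) with hz₀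
  have hc : scal a 0 z₀ ≠ 0 := by
    rw [scal_zero]
    exact (map_ne_zero_iff _ hβ).2 (top_ne ha)
  refine ⟨scal a 0 z₀, hc, fun ε hε => ?_⟩
  set c := scal a 0 z₀ with hcdef
  have hc0 : 0 < ‖c‖ := norm_pos_iff.2 hc
  have hcont := (scal_cont a).continuousAt (x := ((0 : ℂ), z₀))
  rw [Metric.continuousAt_iff] at hcont
  obtain ⟨δ, hδ, hd⟩ := hcont (ε * ‖c‖) (by positivity)
  have h1 : ∀ᶠ T : ℕ in atTop, 1 / δ < √(T : ℝ) :=
    (Real.tendsto_sqrt_atTop.comp tendsto_natCast_atTop_atTop).eventually_gt_atTop (1 / δ)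
  filter_upwards [h1, eventually_ge_atTop 1] with T hT1 hT2 x hx
  have hT : (1 : ℝ) ≤ T := by exact_mod_cast hT2
  have hT0 : (0 : ℝ) < T := by linarith
  have hTc : (T : ℂ) ≠ 0 := by exact_mod_cast hT0.ne'
  have hs1 : 1 ≤ √(T : ℝ) := Real.one_le_sqrt.2 hT
  have hs2 : √(T : ℝ) * √(T : ℝ) = T := Real.mul_self_sqrt hT0.le
  have hsd : 1 / √(T : ℝ) < δ := by
    rw [div_lt_iff₀ (by linarith)]
    rw [div_lt_iff₀ hδ] at hT1
    linarith
  have hdist : dist (((T : ℂ)⁻¹, fun j => x j / (T : ℂ)) : ℂ × (Fin m → ℂ)) ((0 : ℂ), z₀) < δ := by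
    rw [Prod.dist_eq, max_lt_iff]
    constructor
    · simp only [dist_zero_right, norm_inv, Complex.norm_natCast]
      refine lt_of_le_of_lt ?_ hsd
      rw [one_div]
      apply inv_anti₀ (by linarith)
      nlinarith
    · rw [dist_pi_lt_iff hδ]
      intro j
      rw [dist_eq_norm]
      have h2 : x j / (T : ℂ) - z₀ j = (x j - Complex.I * (T : ℂ) * (β j : ℂ)) / (T : ℂ) := by
        rw [hz₀]
        field_simp
      rw [h2, norm_div, Complex.norm_natCast]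
      refine lt_of_le_of_lt (div_le_div_of_nonneg_right (hx j) hT0.le) ?_
      refine lt_of_le_of_lt (le_of_eq ?_) hsd
      rw [div_eq_div_iff hT0.ne' (by linarith), one_mul]
      exact hs2
  have h3 := hd hdist
  simp only at h3
  rw [scal_inv a hTc x, dist_eq_norm, ← hcdef] at h3
  have h4 : aeval x a / (c * (T : ℂ) ^ a.totalDegree) - 1 =
      (((T : ℂ) ^ a.totalDegree)⁻¹ * aeval x a - c) / c := by
    field_simp
  rw [h4, norm_div, div_le_iff₀ hc0]
  exact h3.le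

private theorem split_eval {k : Subfield ℂ} {m : ℕ} {κ : Type} (N : MvPolynomial (Fin m ⊕ κ) k)
    (x : Fin m → ℂ) (y : κ → ℂ) :
    aeval (Sum.elim x y) N =
      eval₂ (aeval x : MvPolynomial (Fin m) k →ₐ[k] ℂ).toRingHom y
        (sumAlgEquiv k κ (Fin m) (rename Sum.swap N)) := by
  induction N using MvPolynomial.induction_on with
  | C a =>
    rw [rename_C, sumAlgEquiv_C_inl, eval₂_C, aeval_C]
    simp
  | add p q hp hq => rw [map_add, map_add, map_add, eval₂_add, hp, hq]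
  | mul_X p i hp =>
    rw [map_mul, map_mul, map_mul, eval₂_mul, hp, aeval_X, rename_X]
    congr 1
    rcases i with j | l
    · simp [sumAlgEquiv_X_inr]
    · simp [sumAlgEquiv_X_inl]

theorem lim1 {m : ℕ} (k : Subfield ℂ) (β : Fin m → ℝ)
    (hβ : AlgebraicIndependent k (fun j => Complex.I * (β j : ℂ)))
    (N : MvPolynomial (Fin m ⊕ Unit) k) (hN : N ≠ 0)
    (𝒰 : Ultrafilter ℕ) (h𝒰 : (𝒰 : Filter ℕ) ≤ atTop) (u : ℕ → ℂ) (hu : ∀ T, u T ≠ 0) :
    ∃ (ν : ℕ → ℂ) (N' : Polynomial ℂ), (∀ᶠ T : ℕ in (𝒰 : Filter ℕ), ν T ≠ 0) ∧ N' ≠ 0 ∧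
      (∀ C : ℝ, (∀ᶠ T : ℕ in (𝒰 : Filter ℕ), |Real.log ‖u T‖| ≤ C * Real.log T) →
        ∃ K : ℝ, ∀ᶠ T : ℕ in (𝒰 : Filter ℕ), ‖ν T‖ ≤ (T : ℝ) ^ K) ∧
      ∀ R δ : ℝ, 0 < δ → ∀ᶠ T : ℕ in (𝒰 : Filter ℕ), ∀ (x : Fin m → ℂ) (z : ℂ),
        (∀ j, ‖x j - Complex.I * (T : ℂ) * (β j : ℂ)‖ ≤ √(T : ℝ)) → ‖z‖ ≤ R →
        ‖ν T * aeval (Sum.elim x fun _ => u T * z) N - N'.eval z‖ ≤ δ := by
  classical
  set P := sumAlgEquiv k Unit (Fin m) (rename Sum.swap N) with hP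
  have hP0 : P ≠ 0 := by
    rw [hP]
    rw [Ne, map_eq_zero_iff _ (sumAlgEquiv k Unit (Fin m)).injective,
      map_eq_zero_iff _ (rename_injective _ Sum.swap_leftInverse.injective)]
    exact hN
  have hE : P.support.Nonempty := support_nonempty.2 hP0
  have hcv : ∀ e : Unit →₀ ℕ, ∃ c : ℂ, c ≠ 0 ∧ (e ∈ P.support → ∀ ε : ℝ, 0 < ε →
      ∀ᶠ T : ℕ in atTop, ∀ x : Fin m → ℂ,
        (∀ j, ‖x j - Complex.I * (T : ℂ) * (β j : ℂ)‖ ≤ √(T : ℝ)) →
        ‖aeval x (coeff e P) / (c * (T : ℂ) ^ (coeff e P).totalDegree) - 1‖ ≤ ε) := by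
    intro e
    by_cases he : e ∈ P.support
    · obtain ⟨c, h1, h2⟩ := conv1 k β hβ (coeff e P) (mem_support_iff.1 he)
      exact ⟨c, h1, fun _ => h2⟩
    · exact ⟨1, one_ne_zero, fun h => absurd h he⟩
  choose c hc0 hcv using hcv
  -- the monomials
  set M : (Unit →₀ ℕ) → ℕ → ℂ := fun e T =>
    c e * (T : ℂ) ^ (coeff e P).totalDegree * u T ^ e () with hM
  have hM0 : ∀ e T, 1 ≤ T → M e T ≠ 0 := by
    intro e T hT
    have hTc : (T : ℂ) ≠ 0 := by
      have : T ≠ 0 := by omega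
      exact_mod_cast this
    exact mul_ne_zero (mul_ne_zero (hc0 e) (pow_ne_zero _ hTc)) (pow_ne_zero _ (hu T))
  have h1 : ∀ᶠ T : ℕ in (𝒰 : Filter ℕ), 1 ≤ T := h𝒰 (eventually_ge_atTop 1)
  -- the dominant monomial
  have hdom : ∃ e₀ ∈ (P.support : Set (Unit →₀ ℕ)), ∀ᶠ T : ℕ in (𝒰 : Filter ℕ),
      ∀ e ∈ P.support, ‖M e T‖ ≤ ‖M e₀ T‖ := by
    rw [← Ultrafilter.eventually_exists_mem_iff (Finset.finite_toSet _)]
    refine Eventually.of_forall fun T => ?_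
    obtain ⟨e, he, he2⟩ := Finset.exists_max_image P.support (fun e => ‖M e T‖) hE
    exact ⟨e, he, he2⟩
  obtain ⟨e₀, he₀, hmax⟩ := hdom
  rw [Finset.mem_coe] at he₀
  -- the limits
  have hlim : ∀ e : Unit →₀ ℕ, ∃ l : ℂ, e ∈ P.support →
      Tendsto (fun T => M e T / M e₀ T) (𝒰 : Filter ℕ) (𝓝 l) := by
    intro e
    by_cases he : e ∈ P.support
    · have hle : ((𝒰.map (fun T => M e T / M e₀ T) : Ultrafilter ℂ) : Filter ℂ) ≤
          𝓟 (Metric.closedBall (0 : ℂ) 1) := by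
        rw [Ultrafilter.coe_map, le_principal_iff, mem_map]
        filter_upwards [hmax, h1] with T hT1 hT2
        have h3 := hT1 e he
        have h4 : 0 < ‖M e₀ T‖ := norm_pos_iff.2 (hM0 e₀ T hT2)
        simp only [Set.mem_preimage, mem_closedBall_zero_iff, norm_div]
        rw [div_le_one h4]
        exact h3
      obtain ⟨l, _, hl⟩ := (isCompact_closedBall (0 : ℂ) 1).ultrafilter_le_nhds _ hle
      exact ⟨l, fun _ => hl⟩
    · exact ⟨0, fun h => absurd h he⟩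
  choose l hl using hlim
  have hl0 : l e₀ = 1 := by
    have h2 : Tendsto (fun T => M e₀ T / M e₀ T) (𝒰 : Filter ℕ) (𝓝 (1 : ℂ)) := by
      apply tendsto_const_nhds.congr'
      filter_upwards [h1] with T hT
      rw [div_self (hM0 e₀ T hT)]
    exact tendsto_nhds_unique (hl e₀ he₀) h2
  set N' : Polynomial ℂ := ∑ e ∈ P.support, Polynomial.monomial (e ()) (l e) with hN'
  have hN'0 : N' ≠ 0 := by
    intro h
    have h2 := congrArg (fun p => Polynomial.coeff p (e₀ ())) h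
    simp only [hN', Polynomial.finsetSum_coeff, Polynomial.coeff_zero,
      Polynomial.coeff_monomial] at h2
    have h3 : ∑ e ∈ P.support, (if e () = e₀ () then l e else 0) =
        ∑ e ∈ P.support, (if e = e₀ then l e else 0) := by
      refine Finset.sum_congr rfl fun e _ => ?_
      have h4 : e () = e₀ () ↔ e = e₀ := by
        constructor
        · intro h5
          ext
          exact h5
        · intro h5
          rw [h5]
      simp only [h4]
    rw [h3, Finset.sum_ite_eq' P.support e₀ (fun e => l e), if_pos he₀, hl0] at h2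
    exact one_ne_zero h2
  refine ⟨fun T => (M e₀ T)⁻¹, N', ?_, hN'0, ?_, ?_⟩
  · filter_upwards [h1] with T hT
    exact inv_ne_zero (hM0 e₀ T hT)
  · intro C hC
    refine ⟨1 + C * (e₀ () : ℝ), ?_⟩
    have hbig : ∀ᶠ T : ℕ in (𝒰 : Filter ℕ), ‖c e₀‖⁻¹ ≤ (T : ℝ) :=
      h𝒰 (tendsto_natCast_atTop_atTop.eventually_ge_atTop (‖c e₀‖⁻¹))
    filter_upwards [hC, hbig, h1] with T hT1 hT2 hT3
    have hT : (1 : ℝ) ≤ T := by exact_mod_cast hT3
    have hT0 : (0 : ℝ) < T := by linarith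
    have hun : 0 < ‖u T‖ := norm_pos_iff.2 (hu T)
    have hcn : 0 < ‖c e₀‖ := norm_pos_iff.2 (hc0 e₀)
    have g1 : ‖u T‖⁻¹ ≤ (T : ℝ) ^ C := by
      rw [← Real.log_le_log_iff (inv_pos.2 hun) (Real.rpow_pos_of_pos hT0 _), Real.log_inv,
        Real.log_rpow hT0]
      have := neg_abs_le (Real.log ‖u T‖)
      linarith
    have g2 : (‖u T‖⁻¹) ^ (e₀ ()) ≤ (T : ℝ) ^ (C * (e₀ () : ℝ)) := by
      rw [Real.rpow_mul hT0.le, Real.rpow_natCast]
      exact pow_le_pow_left₀ (inv_nonneg.2 hun.le) g1 _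
    have g3 : ((T : ℝ) ^ (coeff e₀ P).totalDegree)⁻¹ ≤ 1 :=
      inv_le_one_of_one_le₀ (one_le_pow₀ hT)
    have g4 : ‖(M e₀ T)⁻¹‖ =
        ‖c e₀‖⁻¹ * ((T : ℝ) ^ (coeff e₀ P).totalDegree)⁻¹ * (‖u T‖⁻¹) ^ (e₀ ()) := by
      simp only [hM, norm_inv, norm_mul, norm_pow, Complex.norm_natCast, mul_inv, inv_pow]
    rw [g4, Real.rpow_add hT0, Real.rpow_one]
    apply mul_le_mul _ g2 (by positivity) hT0.le
    calc ‖c e₀‖⁻¹ * ((T : ℝ) ^ (coeff e₀ P).totalDegree)⁻¹ ≤ (T : ℝ) * 1 :=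
          mul_le_mul hT2 g3 (by positivity) hT0.le
      _ = T := mul_one _
  intro R δ hδ
  set B : ℝ := ∑ e ∈ P.support, |R| ^ e () + 1 with hB
  have hBe : ∀ e ∈ P.support, |R| ^ e () ≤ B := by
    intro e he
    have h2 := Finset.single_le_sum (f := fun e : Unit →₀ ℕ => |R| ^ e ())
      (fun e _ => by positivity) he
    linarith
  have hB0 : 0 < B := by
    have : 0 ≤ ∑ e ∈ P.support, |R| ^ e () :=
      Finset.sum_nonneg fun e _ => by positivity
    linarith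
  set ε : ℝ := δ / (2 * ((P.support.card : ℝ) + 1) * B) with hε
  have hε0 : 0 < ε := by positivity
  have ha1 : ∀ᶠ T : ℕ in (𝒰 : Filter ℕ), ∀ e ∈ P.support, ∀ x : Fin m → ℂ,
      (∀ j, ‖x j - Complex.I * (T : ℂ) * (β j : ℂ)‖ ≤ √(T : ℝ)) →
        ‖aeval x (coeff e P) / (c e * (T : ℂ) ^ (coeff e P).totalDegree) - 1‖ ≤ ε := by
    rw [Filter.eventually_all_finset]
    intro e he
    exact h𝒰 (hcv e he ε hε0)
  have ha2 : ∀ᶠ T : ℕ in (𝒰 : Filter ℕ), ∀ e ∈ P.support, ‖M e T / M e₀ T - l e‖ ≤ ε := by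
    rw [Filter.eventually_all_finset]
    intro e he
    have h2 := Metric.tendsto_nhds.1 (hl e he) ε hε0
    filter_upwards [h2] with T hT
    rw [dist_eq_norm] at hT
    exact hT.le
  filter_upwards [ha1, ha2, hmax, h1] with T hA1 hA2 hA3 hT x z hx hz
  have hTc : (T : ℂ) ≠ 0 := by
    have : T ≠ 0 := by omega
    exact_mod_cast this
  have hMT := hM0 e₀ T hT
  have e1 : (M e₀ T)⁻¹ * aeval (Sum.elim x fun _ => u T * z) N - N'.eval z =
      ∑ e ∈ P.support, ((aeval x (coeff e P) / (c e * (T : ℂ) ^ (coeff e P).totalDegree) - 1) *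
        (M e T / M e₀ T) + (M e T / M e₀ T - l e)) * z ^ e () := by
    rw [split_eval, ← hP, eval₂_eq', hN', Polynomial.eval_finsetSum, Finset.mul_sum,
      ← Finset.sum_sub_distrib]
    refine Finset.sum_congr rfl fun e _ => ?_
    rw [Polynomial.eval_monomial]
    simp only [mul_pow, Finset.univ_unique, Finset.prod_singleton, PUnit.default_eq_unit]
    have h3 : M e T = c e * (T : ℂ) ^ (coeff e P).totalDegree * u T ^ e () := rfl
    have h4 : c e * (T : ℂ) ^ (coeff e P).totalDegree ≠ 0 :=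
      mul_ne_zero (hc0 e) (pow_ne_zero _ hTc)
    have h5 : (aeval x : MvPolynomial (Fin m) k →ₐ[k] ℂ).toRingHom (coeff e P) =
      aeval x (coeff e P) := rfl
    rw [h5, h3]
    generalize aeval x (coeff e P) = A at *
    generalize c e * (T : ℂ) ^ (coeff e P).totalDegree = D at *
    generalize u T ^ e () = Bp at *
    generalize z ^ e () = Wp at *
    generalize M e₀ T = M0 at *
    have h6 : A / D * (D * Bp / M0) = A * Bp / M0 := by
      field_simp
    calc M0⁻¹ * (A * (Bp * Wp)) - l e * Wp = (A * Bp / M0 - l e) * Wp := by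
          rw [div_eq_mul_inv]
          ring
      _ = (A / D * (D * Bp / M0) - l e) * Wp := by rw [h6]
      _ = _ := by ring
  rw [e1]
  have hterm : ∀ e ∈ P.support,
      ‖((aeval x (coeff e P) / (c e * (T : ℂ) ^ (coeff e P).totalDegree) - 1) *
        (M e T / M e₀ T) + (M e T / M e₀ T - l e)) * z ^ e ()‖ ≤ 2 * ε * B := by
    intro e he
    have h4 : 0 < ‖M e₀ T‖ := norm_pos_iff.2 hMT
    have h5 : ‖M e T / M e₀ T‖ ≤ 1 := by
      rw [norm_div, div_le_one h4]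
      exact hA3 e he
    have h6 : ‖z ^ e ()‖ ≤ B := by
      rw [norm_pow]
      exact (pow_le_pow_left₀ (norm_nonneg _) (hz.trans (le_abs_self R)) _).trans (hBe e he)
    rw [norm_mul]
    apply mul_le_mul _ h6 (norm_nonneg _) (by positivity)
    refine (norm_add_le _ _).trans ?_
    rw [norm_mul]
    have h7 := mul_le_mul (hA1 e he x hx) h5 (norm_nonneg _) hε0.le
    have h8 := hA2 e he
    linarith
  refine (norm_sum_le _ _).trans ((Finset.sum_le_sum hterm).trans ?_)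
  rw [Finset.sum_const, nsmul_eq_mul, hε]
  have hn : (0 : ℝ) ≤ P.support.card := Nat.cast_nonneg _
  have h9 : (P.support.card : ℝ) * (2 * (δ / (2 * ((P.support.card : ℝ) + 1) * B)) * B) =
      δ * ((P.support.card : ℝ) / ((P.support.card : ℝ) + 1)) := by
    field_simp
  rw [h9]
  apply mul_le_of_le_one_right hδ.le
  rw [div_le_one (by linarith)]
  linarith

theorem exists_good {m n : ℕ} (k : Subfield ℂ) (hk : (k : Set ℂ).Countable) (β : Fin m → ℝ)
    (hβ : AlgebraicIndependent k (fun j => Complex.I * (β j : ℂ)))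
    (𝒰 : Ultrafilter ℕ) (h𝒰 : (𝒰 : Filter ℕ) ≤ atTop) (b : ℕ → Fin n → ℂ)
    (hb : ∀ T j, b T j ≠ 0) :
    ∃ Z : Fin n → Set ℂ, (∀ i, (Z i).Countable) ∧
      ∀ (i : Fin n) (w : ℂ), w ∉ Z i → Good k β 𝒰 (fun T => b T i) w := by
  classical
  have hkc : Countable k := hk.to_subtype
  have hcount : Countable (MvPolynomial (Fin m ⊕ Unit) k) := by
    rw [← Cardinal.mk_le_aleph0_iff]
    refine MvPolynomial.cardinalMk_le_max.trans ?_
    simp
  have hL : ∀ (i : Fin n) (N : MvPolynomial (Fin m ⊕ Unit) k), ∃ (ν : ℕ → ℂ) (N' : Polynomial ℂ),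
      N ≠ 0 → (∀ᶠ T : ℕ in (𝒰 : Filter ℕ), ν T ≠ 0) ∧ N' ≠ 0 ∧
      (∀ C : ℝ, (∀ᶠ T : ℕ in (𝒰 : Filter ℕ), |Real.log ‖b T i‖| ≤ C * Real.log T) →
        ∃ K : ℝ, ∀ᶠ T : ℕ in (𝒰 : Filter ℕ), ‖ν T‖ ≤ (T : ℝ) ^ K) ∧
      ∀ R δ : ℝ, 0 < δ → ∀ᶠ T : ℕ in (𝒰 : Filter ℕ), ∀ (x : Fin m → ℂ) (z : ℂ),
        (∀ j, ‖x j - Complex.I * (T : ℂ) * (β j : ℂ)‖ ≤ √(T : ℝ)) → ‖z‖ ≤ R →
        ‖ν T * aeval (Sum.elim x fun _ => b T i * z) N - N'.eval z‖ ≤ δ := by
    intro i N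
    by_cases hN : N = 0
    · exact ⟨0, 0, fun h => absurd hN h⟩
    · obtain ⟨ν, N', h⟩ := lim1 k β hβ N hN 𝒰 h𝒰 (fun T => b T i) (fun T => hb T i)
      exact ⟨ν, N', fun _ => h⟩
  choose ν N' hL using hL
  refine ⟨fun i => ⋃ N : MvPolynomial (Fin m ⊕ Unit) k, ((N' i N).roots.toFinset : Set ℂ),
    fun i => Set.countable_iUnion fun N => Set.Finite.countable (Finset.finite_toSet _), ?_⟩
  intro i w hw N hN
  obtain ⟨h1, h2, h3, h4⟩ := hL i N hN
  refine ⟨ν i N, N' i N, h1, ?_, h3, h4⟩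
  intro h5
  apply hw
  rw [Set.mem_iUnion]
  refine ⟨N, ?_⟩
  rw [Finset.mem_coe, Multiset.mem_toFinset, Polynomial.mem_roots h2]
  exact h5

end Pool.Agent.EXZ
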