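import Mathlib

/-!
# EXZ / Ov: an order vector `v ≠ 0` exists

PROOF.  `A = ℂ[x, y] / P`, `K = Frac A`. The classes of the `x_i` are algebraically dependent (`F(x) = 0`), and
`trdeg ℂ K ≥ n`, so `K` is not algebraic over `ℂ(x)`. `I` a maximal algebraically independent subset of
`{x_i}`, `B ⊇ I` a transcendence basis in `{x_i} ∪ {y_j}`; `B ≠ I`, `u ∈ B \ I` is a `y_j`. `L = ℂ(B \ {u})`, `u` is transcendental
over `L` and `K / L(u)` is finite. The integral closure `C` of `L[u]` in `K` is a Dedekind domain, `u` is not a unit of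
it; take the valuation of a maximal ideal of `C` with `u`. It is trivial on everything algebraic over `L`.
-/

set_option autoImplicit false

namespace Pool.Agent.EXZ

open MvPolynomial

private lemma ov_alg {R₁ R₂ K : Type} [CommRing R₁] [CommRing R₂] [CommRing K] [Algebra R₁ K]
    [Algebra R₂ K] (f : R₁ →+* R₂) (hf : Function.Injective f)
    (hc : (algebraMap R₂ K).comp f = algebraMap R₁ K) {z : K} (hz : IsAlgebraic R₁ z) :
    IsAlgebraic R₂ z := by
  obtain ⟨p, hp, hz⟩ := hz
  refine ⟨p.map f, (Polynomial.map_ne_zero_iff hf).2 hp, ?_⟩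
  rw [Polynomial.aeval_def, Polynomial.eval₂_map, hc, ← Polynomial.aeval_def, hz]

open scoped IntermediateField.algebraAdjoinAdjoin in
private lemma ov_val {L K : Type} [Field L] [Field K] [Algebra L K] [CharZero L]
    [Algebra.EssFiniteType L K] (u : K) (hu : Transcendental L u)
    (halg : ∀ z : K, IsAlgebraic (Algebra.adjoin L {u}) z) :
    ∃ w : Valuation K (WithZero (Multiplicative ℤ)), w u < 1 ∧
      ∀ z : K, z ≠ 0 → IsAlgebraic L z → w z = 1 := by
  set R := Algebra.adjoin L {u} with hR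
  -- `R` is principal
  have huR : u ∈ R := Algebra.self_mem_adjoin_singleton L u
  have hPIR : IsPrincipalIdealRing R := by
    let ψ : Polynomial L →ₐ[L] R := Polynomial.aeval ⟨u, huR⟩
    refine IsPrincipalIdealRing.of_surjective ψ.toRingHom ?_
    rintro ⟨z, hz⟩
    have hz' := hz
    rw [hR, Algebra.adjoin_singleton_eq_range_aeval] at hz'
    obtain ⟨p, hp⟩ := hz'
    refine ⟨p, Subtype.ext ?_⟩
    change ((Polynomial.aeval (⟨u, huR⟩ : R) p : R) : K) = z
    rw [← hp]
    change R.val (Polynomial.aeval (⟨u, huR⟩ : R) p) = Polynomial.aeval u p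
    rw [← Polynomial.aeval_algHom_apply]
    rfl
  have halgR : Algebra.IsAlgebraic R K := ⟨halg⟩
  set F1 := IntermediateField.adjoin L {u} with hF1
  have h1 : Algebra.IsAlgebraic F1 K := by
    refine ⟨fun z => ?_⟩
    refine ov_alg (algebraMap R F1) (FaithfulSMul.algebraMap_injective R F1) ?_ (halg z)
    exact (IsScalarTower.algebraMap_eq R F1 K).symm
  have h2 : Algebra.EssFiniteType F1 K := .of_comp L F1 K
  have h3 : Module.Finite F1 K := Algebra.finite_of_essFiniteType_of_isAlgebraic
  have h4 : CharZero F1 := charZero_of_injective_algebraMap (algebraMap L F1).injective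
  have h5 : IsDedekindDomain (integralClosure R K) := integralClosure.isDedekindDomain R F1 K
  have h6 : IsFractionRing (integralClosure R K) K :=
    integralClosure.isFractionRing_of_finite_extension F1 K
  -- `u` is not a unit
  set C := integralClosure R K with hC
  have huC : u ∈ C := by
    rw [hC, mem_integralClosure_iff]
    exact isIntegral_algebraMap (R := R) (x := ⟨u, huR⟩)
  have hunit : ¬ IsUnit (⟨u, huC⟩ : C) := by
    intro h
    have h7 : IsUnit (algebraMap R C ⟨u, huR⟩) := h
    have h8 : IsUnit (⟨u, huR⟩ : R) := isUnit_of_map_unit (algebraMap R C) _ h7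
    obtain ⟨⟨z, hz⟩, hz1⟩ := h8.exists_right_inv
    have hz' := hz
    rw [hR, Algebra.adjoin_singleton_eq_range_aeval] at hz'
    obtain ⟨p, hp⟩ := hz'
    have h9 : u * z = 1 := congrArg Subtype.val hz1
    rw [← hp] at h9
    have h10 : Polynomial.aeval u (Polynomial.X * p - 1) = 0 := by
      rw [map_sub, map_mul, Polynomial.aeval_X, map_one]
      exact sub_eq_zero.2 h9
    have h11 : Polynomial.X * p - 1 ≠ 0 := by
      intro h
      have h12 := congrArg (Polynomial.eval 0) h
      simp at h12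
    exact hu ⟨_, h11, h10⟩
  have hu0 : u ≠ 0 := by
    rintro rfl
    exact hu (isAlgebraic_zero)
  obtain ⟨Q, hQ, huQ⟩ := exists_max_ideal_of_mem_nonunits (mem_nonunits_iff.2 hunit)
  have hQ0 : Q ≠ ⊥ := by
    rintro rfl
    exact hu0 (congrArg Subtype.val ((Submodule.mem_bot _).1 huQ))
  let v : IsDedekindDomain.HeightOneSpectrum C := ⟨Q, hQ.isPrime, hQ0⟩
  refine ⟨v.valuation K, ?_, ?_⟩
  · have h7 := (v.valuation_lt_one_iff_mem (K := K) ⟨u, huC⟩).2 huQ
    exact h7
  · have h8 : ∀ z : K, IsAlgebraic L z → v.valuation K z ≤ 1 := by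
      intro z hz
      have h9 : IsIntegral L z := hz.isIntegral
      have h10 : IsIntegral R z := h9.tower_top
      have h11 := v.valuation_le_one (K := K) ⟨z, h10⟩
      exact h11
    intro z hz0 hz
    refine le_antisymm (h8 z hz) ?_
    have h9 := h8 z⁻¹ hz.inv
    rw [map_inv₀] at h9
    have h10 : v.valuation K z ≠ 0 := by
      rw [Valuation.ne_zero_iff]
      exact hz0
    exact (inv_le_one₀ (zero_lt_iff.2 h10)).1 h9

open scoped IntermediateField.algebraAdjoinAdjoin in
private lemma ov_gen {k K : Type} [Field k] [Field K] [Algebra k K] [CharZero k]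
    [Algebra.EssFiniteType k K] (T Y : Set K)
    (halg : Algebra.IsAlgebraic (Algebra.adjoin k (T ∪ Y)) K)
    (hT : ¬ ∀ z : K, IsAlgebraic (Algebra.adjoin k T) z) :
    ∃ (u : K) (w : Valuation K (WithZero (Multiplicative ℤ))), u ∈ Y ∧ w u < 1 ∧
      ∀ z ∈ Algebra.adjoin k T, z ≠ 0 → w z = 1 := by
  classical
  obtain ⟨I, -, hI⟩ := exists_maximal_algebraicIndependent (R := k) (∅ : Set K) T
    (Set.empty_subset _) ((algebraicIndependent_empty_iff ..).mpr
      (FaithfulSMul.algebraMap_injective k K))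
  obtain ⟨B, hIB, hBTY, hB⟩ := exists_isTranscendenceBasis_between (R := k) I (T ∪ Y)
    (hI.prop.2.trans Set.subset_union_left) hI.prop.1
  have hBalg : ∀ z : K, IsAlgebraic (Algebra.adjoin k B) z := by
    intro z
    have h1 := hB.isAlgebraic
    rw [Subtype.range_coe] at h1
    exact h1.isAlgebraic z
  have hle : ∀ {S₁ S₂ : Subalgebra k K}, S₁ ≤ S₂ → ∀ {z : K}, IsAlgebraic S₁ z →
      IsAlgebraic S₂ z := by
    intro S₁ S₂ h z hz
    exact ov_alg (Subalgebra.inclusion h).toRingHom (Subalgebra.inclusion_injective h) rfl hz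
  obtain ⟨u, huB, huI⟩ : ∃ u ∈ B, u ∉ I := by
    by_contra hcon
    push Not at hcon
    apply hT
    intro z
    exact hle (Algebra.adjoin_mono (Set.Subset.trans hcon hI.prop.2)) (hBalg z)
  have hBind : AlgebraicIndepOn k id B := hB.1
  have huY : u ∈ Y := by
    rcases hBTY huB with h | h
    · exfalso
      apply huI
      have h1 : insert u I ⊆ B := Set.insert_subset huB hIB
      have h2 : AlgebraicIndepOn k id (insert u I) := hBind.mono h1
      exact hI.le_of_ge ⟨h2, Set.insert_subset h hI.prop.2⟩ (Set.subset_insert _ _)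
        (Set.mem_insert _ _)
    · exact h
  have hBu : insert u (B \ {u}) = B := by
    rw [Set.insert_sdiff_singleton, Set.insert_eq_of_mem huB]
  have hIu : I ⊆ B \ {u} := fun x hx => ⟨hIB hx, fun h => huI (h ▸ hx)⟩
  set L := IntermediateField.adjoin k (B \ {u}) with hL
  have hBL : ((B \ {u} : Set K)) ⊆ L := IntermediateField.subset_adjoin _ _
  have hS : Algebra.adjoin k (B \ {u}) ≤ L.toSubalgebra :=
    IntermediateField.algebra_adjoin_le_adjoin _ _
  -- `u` is transcendental over `L`
  have hu1 : Transcendental (Algebra.adjoin k (B \ {u})) u := by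
    have h1 := hBind
    rw [← hBu, AlgebraicIndepOn.insert_iff (by simp)] at h1
    have h2 := h1.2
    rw [Set.image_id] at h2
    exact h2
  have hu : Transcendental L u := by
    intro h
    exact hu1 ((IsFractionRing.isAlgebraic_iff (Algebra.adjoin k (B \ {u})) L K).2 h)
  have hess : Algebra.EssFiniteType L K := .of_comp k L K
  have hchar : CharZero L := charZero_of_injective_algebraMap (algebraMap k L).injective
  obtain ⟨w, hw1, hw2⟩ := ov_val (L := L) u hu (fun z => by
    have h1 : Algebra.adjoin k B ≤ (Algebra.adjoin L {u}).restrictScalars k := by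
      rw [Algebra.adjoin_le_iff]
      intro b hb
      change b ∈ Algebra.adjoin L {u}
      by_cases hbu : b = u
      · rw [hbu]
        exact Algebra.self_mem_adjoin_singleton _ _
      · exact (Algebra.adjoin L {u}).algebraMap_mem ⟨b, hBL ⟨hb, hbu⟩⟩
    exact hle h1 (hBalg z))
  refine ⟨u, w, huY, hw1, fun z hz hz0 => hw2 z hz0 ?_⟩
  -- elements of `T` are algebraic over `L`
  have hTL : ∀ x ∈ T, x ∈ (algebraicClosure L K) := by
    intro x hx
    rw [mem_algebraicClosure_iff]
    by_cases hxI : x ∈ I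
    · exact isAlgebraic_algebraMap (⟨x, hBL (hIu hxI)⟩ : L)
    · have h1 : IsAlgebraic (Algebra.adjoin k I) x := by
        by_contra h2
        apply hxI
        have h3 : AlgebraicIndepOn k id (insert x I) := by
          refine hI.prop.1.insert ?_
          rw [Set.image_id]
          exact h2
        exact hI.le_of_ge ⟨h3, Set.insert_subset hx hI.prop.2⟩ (Set.subset_insert _ _)
          (Set.mem_insert _ _)
      have h2 : IsAlgebraic L.toSubalgebra x :=
        hle ((Algebra.adjoin_mono hIu).trans hS) h1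
      exact h2
  have h1 : Algebra.adjoin k T ≤ (algebraicClosure L K).toSubalgebra.restrictScalars k := by
    rw [Algebra.adjoin_le_iff]
    exact hTL
  exact mem_algebraicClosure_iff.1 (h1 hz)

theorem exists_ov {n : ℕ} (P : Ideal (MvPolynomial (Fin n ⊕ Fin n) ℂ)) (hP : P.IsPrime)
    (hY : ∀ j : Fin n, (X (Sum.inr j) : MvPolynomial (Fin n ⊕ Fin n) ℂ) ∉ P)
    (hdim : Algebra.trdeg ℂ (MvPolynomial (Fin n ⊕ Fin n) ℂ ⧸ P) = n)
    (F : MvPolynomial (Fin n) ℂ) (hF0 : F ≠ 0)
    (hF : ∀ f : MvPolynomial (Fin n) ℂ, rename Sum.inl f ∈ P ↔ F ∣ f) :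
    ∃ (w : Valuation (MvPolynomial (Fin n ⊕ Fin n) ℂ) (WithZero (Multiplicative ℤ)))
      (v : Fin n → ℤ), v ≠ 0 ∧ (∀ f, w f = 0 ↔ f ∈ P) ∧
      (∀ f : MvPolynomial (Fin n) ℂ, ¬ F ∣ f → w (rename Sum.inl f) = 1) ∧
      ∀ j, w (X (Sum.inr j)) = WithZero.exp (-(v j)) := by
  classical
  let A := MvPolynomial (Fin n ⊕ Fin n) ℂ ⧸ P
  let K := FractionRing A
  have hAK : Function.Injective (algebraMap A K) := IsFractionRing.injective A K
  let φ : MvPolynomial (Fin n ⊕ Fin n) ℂ →ₐ[ℂ] K :=
    (IsScalarTower.toAlgHom ℂ A K).comp (Ideal.Quotient.mkₐ ℂ P)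
  have hφ : ∀ p, φ p = algebraMap A K (Ideal.Quotient.mk P p) := fun _ => rfl
  have hφ0 : ∀ p, φ p = 0 ↔ p ∈ P := by
    intro p
    rw [hφ, map_eq_zero_iff _ hAK, Ideal.Quotient.eq_zero_iff_mem]
  let x : Fin n → K := fun i => φ (X (Sum.inl i))
  let y : Fin n → K := fun i => φ (X (Sum.inr i))
  have hφz : φ = aeval (Sum.elim x y) := by
    ext i
    rw [aeval_X]
    rcases i with i | i <;> rfl
  have hφx : ∀ f : MvPolynomial (Fin n) ℂ, φ (rename Sum.inl f) = aeval x f := by
    intro f
    rw [hφz, aeval_rename, Sum.elim_comp_inl]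
  have hess : Algebra.EssFiniteType ℂ K := by
    have h1 : Algebra.EssFiniteType A K := .of_isLocalization _ (nonZeroDivisors A)
    have h2 : Algebra.EssFiniteType ℂ A := inferInstance
    exact .comp ℂ A K
  have hadj : Algebra.adjoin ℂ (Set.range x ∪ Set.range y) = φ.range := by
    rw [← Set.Sum.elim_range, Algebra.adjoin_range_eq_range_aeval, ← hφz]
  have halg : Algebra.IsAlgebraic (Algebra.adjoin ℂ (Set.range x ∪ Set.range y)) K := by
    refine ⟨fun z => ?_⟩
    obtain ⟨a, b, hb, rfl⟩ := IsFractionRing.div_surjective (A := A) z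
    have hmem : ∀ a : A, algebraMap A K a ∈ Algebra.adjoin ℂ (Set.range x ∪ Set.range y) := by
      intro a
      obtain ⟨p, rfl⟩ := Ideal.Quotient.mk_surjective a
      rw [hadj]
      exact ⟨p, rfl⟩
    have h1 : ∀ a : A, IsAlgebraic (Algebra.adjoin ℂ (Set.range x ∪ Set.range y))
        (algebraMap A K a) := fun a =>
      isAlgebraic_algebraMap (⟨_, hmem a⟩ : Algebra.adjoin ℂ (Set.range x ∪ Set.range y))
    rw [div_eq_mul_inv]
    exact (h1 a).mul (h1 b).inv
  have hT : ¬ ∀ z : K, IsAlgebraic (Algebra.adjoin ℂ (Set.range x)) z := by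
    intro h
    have h1 : Algebra.IsAlgebraic (Algebra.adjoin ℂ (Set.range x)) K := ⟨h⟩
    have h2 : Cardinal.mk (Fin n) ≤ Algebra.trdeg ℂ K := by
      rw [Cardinal.mk_fin, ← hdim]
      exact trdeg_le_of_injective (IsScalarTower.toAlgHom ℂ A K) hAK
    have h3 := Algebra.IsAlgebraic.isTranscendenceBasis_of_le_trdeg_of_finite ℂ x h2
    have h4 : aeval x F = 0 := by
      rw [← hφx, hφ0, hF]
    exact hF0 ((map_eq_zero_iff _ h3.1).1 h4)
  obtain ⟨u, w, ⟨j, rfl⟩, hw1, hw2⟩ := ov_gen (Set.range x) (Set.range y) halg hT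
  have hwy : ∀ j, w (y j) ≠ 0 := by
    intro j
    rw [Valuation.ne_zero_iff]
    intro h
    exact hY j ((hφ0 _).1 h)
  refine ⟨w.comap φ.toRingHom, fun j => -WithZero.log (w (y j)), ?_, ?_, ?_, ?_⟩
  · intro h
    have h1 := congrFun h j
    simp only [Pi.zero_apply, neg_eq_zero] at h1
    have h2 := WithZero.exp_log (hwy j)
    rw [h1, WithZero.exp_zero] at h2
    rw [← h2] at hw1
    exact lt_irrefl _ hw1
  · intro f
    rw [← hφ0]
    exact Valuation.zero_iff w
  · intro f hf
    change w (φ (rename Sum.inl f)) = 1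
    apply hw2
    · rw [hφx, Algebra.adjoin_range_eq_range_aeval]
      exact ⟨f, rfl⟩
    · intro h
      exact hf ((hF f).1 ((hφ0 _).1 h))
  · intro j
    change w (y j) = WithZero.exp (-(-WithZero.log (w (y j))))
    rw [neg_neg, WithZero.exp_log (hwy j)]

end Pool.Agent.EXZ
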