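import Pool.Agent.EXP.Defs

/-!
# EXZ / Proj: the projection of a curve to some coordinates

PROOF.  `Q' = Q.comap (rename ι)`. `ℂ[Y'] / Q' → ℂ[Y] / Q` is injective, so `trdeg ≤ 1`; `X k0` is transcendental modulo `Q'`: otherwise it
is algebraic over `ℂ` in the domain `ℂ[Y] / Q`, so a constant (`ℂ` algebraically closed: a nonzero polynomial in `X (ι k0)` in the
prime `Q` has a linear factor in `Q`), against `hk0`.
-/

set_option autoImplicit false

namespace Pool.Agent.EXZ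

open MvPolynomial

theorem proj_curve {n N : ℕ} (Q : Ideal (MvPolynomial (Fin n) ℂ)) (hQ : Q.IsPrime)
    (hY : ∀ j : Fin n, (X j : MvPolynomial (Fin n) ℂ) ∉ Q)
    (hdim : Algebra.trdeg ℂ (MvPolynomial (Fin n) ℂ ⧸ Q) = 1) (ι : Fin N → Fin n) (k0 : Fin N)
    (hk0 : ∀ c : ℂ, (X (ι k0) - C c : MvPolynomial (Fin n) ℂ) ∉ Q) :
    ∃ Q' : Ideal (MvPolynomial (Fin N) ℂ), Q'.IsPrime ∧
      (∀ j : Fin N, (X j : MvPolynomial (Fin N) ℂ) ∉ Q') ∧
      Algebra.trdeg ℂ (MvPolynomial (Fin N) ℂ ⧸ Q') = 1 ∧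
      ∀ f : MvPolynomial (Fin N) ℂ, f ∈ Q' ↔ rename ι f ∈ Q := by
  let Ψ : MvPolynomial (Fin N) ℂ →ₐ[ℂ] (MvPolynomial (Fin n) ℂ ⧸ Q) :=
    (Ideal.Quotient.mkₐ ℂ Q).comp (rename ι)
  have hmem : ∀ f : MvPolynomial (Fin N) ℂ, f ∈ RingHom.ker Ψ ↔ rename ι f ∈ Q := by
    intro f
    rw [RingHom.mem_ker]
    exact Ideal.Quotient.eq_zero_iff_mem
  have hQ' : (RingHom.ker Ψ).IsPrime := RingHom.ker_isPrime Ψ
  have hinj : Function.Injective (Ideal.kerLiftAlg Ψ) := Ideal.kerLiftAlg_injective Ψ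
  refine ⟨RingHom.ker Ψ, hQ', fun j hj => ?_, le_antisymm ?_ ?_, hmem⟩
  · rw [hmem, rename_X] at hj
    exact hY _ hj
  · rw [← hdim]
    exact _root_.trdeg_le_of_injective (Ideal.kerLiftAlg Ψ) hinj
  · rw [Cardinal.one_le_iff_pos]
    have htr : Transcendental ℂ (Ideal.Quotient.mk (RingHom.ker Ψ) (X k0)) := by
      intro halg
      have hint : IsIntegral ℂ (Ideal.Quotient.mk (RingHom.ker Ψ) (X k0)) := halg.isIntegral
      have h1 := IsAlgClosed.degree_eq_one_of_irreducible ℂ (minpoly.irreducible hint)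
      obtain ⟨c, hc⟩ := minpoly.mem_range_of_degree_eq_one ℂ _ h1
      have h2 : Ideal.Quotient.mk (RingHom.ker Ψ) (X k0 - C c : MvPolynomial (Fin N) ℂ) = 0 := by
        rw [map_sub, ← hc]
        exact sub_self _
      rw [Ideal.Quotient.eq_zero_iff_mem, hmem, map_sub, rename_X, rename_C] at h2
      exact hk0 c h2
    have : Algebra.Transcendental ℂ (MvPolynomial (Fin N) ℂ ⧸ RingHom.ker Ψ) := ⟨⟨_, htr⟩⟩
    exact _root_.trdeg_pos _ _

end Pool.Agent.EXZ
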