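import Pool.Agent.EXZ.Lim1
import Pool.Agent.EXZ.GoodA
import Pool.Agent.EXZ.PairG
import Pool.Agent.EXZ.BddO
import Pool.Agent.EXZ.Proj
import Pool.Agent.EXZ.Lift
import Pool.Agent.EXG.Bdd
import Pool.Agent.EXG.NiceA2
import Pool.Agent.EXG.PrimA
import Pool.Agent.EXG.PrimB
import Pool.Agent.EXP.Level

/-!
# EXZ / SelZ: the chosen points of the frozen fibres, `c` supported in the coordinates `ι`

PROOF.  As `EXG.sel_pt`. For `𝒰`-almost all `T`: `Q_T` of `hfib`, `Q'_T` of `proj_curve`; `EXP.level` for `Q'_T`, `lam = c ∘ ι`, `κ`: `b'' T : Fin N → ℂ`.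
`EXG.bdd` (`n = N`, `P (ι i) (ι j)`; the relations hold on the projection: `hPV` on the zeros of `Q_T`, so the polynomial
`P((x', Y_(ι i), Y_(ι j)))` is in `Q_T` (Nullstellensatz), so vanishes on `Tz Q'_T`). `exists_good` for `b''`: `Z`. `EXG.exists_s` with
`R T η = (b'' T e^η ∈ Tz Q'_T)`: `l : Fin N`, `η''`, `ηi''`, `exp (ηi'' l) ∉ Z l`: `Good k β 𝒰 (b'' · l) (exp (ηi'' l))`. `i = ι l`.
`(a', b_i)` is independent (otherwise `exists_pair1` gives `N ≠ 0` with `N(x', y_i) = 0` on all points of `V`; `lift`.. use: a point `w` of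
`Tz Q_T` exists over all but finitely many points of the projected curve; simpler: `N(x'_T, Y_l)` is in `Q'_T` (it vanishes on the
zeros of `Q_T`), so it vanishes at `b'' T e^η''`, against `good_ne`). `exists_prim`: `pr`. `Dl` at `(x'_T, b''_l e^(η''_l))` is not zero
(`good_ne`). `lift_pt`: `w_T`. Put `b' T j = b'' T l'` for `j = ι l'`, `b' T j = w_T j` for the other `j`; `η T j = η''_{l'}` resp. `0`.
Growth of `w_T j` for the other `j`: `good_low`, `bdd_other` (pair relation `P i j`). Last two clauses: `good_ne`, `pair_good`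
(`w j = exp (ηi j)`). Sums: `c j = 0` outside the range of `ι`.
-/

set_option autoImplicit false

namespace Pool.Agent.EXZ

open MvPolynomial Pool.Agent.EXL Pool.Agent.EXI Pool.Agent.EXG Topology Filter

private lemma sz_ns {n : ℕ} (Q : Ideal (MvPolynomial (Fin n) ℂ)) (hQ : Q.IsPrime)
    (G : MvPolynomial (Fin n) ℂ) (h : ∀ w : Fin n → ℂ, (∀ g ∈ Q, eval w g = 0) → eval w G = 0) :
    G ∈ Q := by
  have h1 := MvPolynomial.IsPrime.vanishingIdeal_zeroLocus (K := ℂ) Q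
  rw [← h1, mem_vanishingIdeal_iff]
  intro w hw
  rw [mem_zeroLocus_iff] at hw
  have h2 := h w fun g hg => by
    have := hw g hg
    rwa [aeval_eq_eval] at this
  rwa [aeval_eq_eval]

/-- `w` is a point of the projected fibre over `x` -/
private def Rp (k : Subfield ℂ) {m N : ℕ} (a b x : Fin (m + 1) → ℂ) (ι : Fin N → Fin (m + 1))
    (w : Fin N → ℂ) : Prop :=
  (∀ l, w l ≠ 0) ∧ ∃ Q : Ideal (MvPolynomial (Fin (m + 1)) ℂ), Q.IsPrime ∧
    (∀ w : Fin (m + 1) → ℂ, (∀ g ∈ Q, eval w g = 0) → Spec k (Sum.elim a b) (Sum.elim x w)) ∧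
    ∀ f : MvPolynomial (Fin N) ℂ, rename ι f ∈ Q → eval w f = 0

private lemma rp_rel {k : Subfield ℂ} {m N : ℕ} {a b x : Fin (m + 1) → ℂ}
    {ι : Fin N → Fin (m + 1)} {w : Fin N → ℂ} (hw : Rp k a b x ι w) {τ : Type}
    (s : τ → Fin N) (p : MvPolynomial (Fin m ⊕ τ) k)
    (hp : ∀ x y : Fin (m + 1) → ℂ, Spec k (Sum.elim a b) (Sum.elim x y) →
      aeval (Sum.elim (fun j : Fin m => x j.succ) fun o => y (ι (s o))) p = 0) :
    aeval (Sum.elim (fun j : Fin m => x j.succ) fun o => w (s o)) p = 0 := by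
  obtain ⟨-, Q, hQ, hQs, hQw⟩ := hw
  have hev : ∀ {n : ℕ} (v : Fin n → ℂ) (r : τ → Fin n), eval v ((aeval (Sum.elim
      (fun j : Fin m => C (x j.succ)) fun o => X (r o)) : MvPolynomial (Fin m ⊕ τ) k →ₐ[k]
        MvPolynomial (Fin n) ℂ) p) = aeval (Sum.elim (fun j : Fin m => x j.succ)
          fun o => v (r o)) p := by
    intro n v r
    have h1 : (eval v).comp (aeval (Sum.elim
        (fun j : Fin m => C (x j.succ)) fun o => X (r o)) : MvPolynomial (Fin m ⊕ τ) k →ₐ[k]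
          MvPolynomial (Fin n) ℂ).toRingHom = (aeval (Sum.elim (fun j : Fin m => x j.succ)
            fun o => v (r o)) : MvPolynomial (Fin m ⊕ τ) k →ₐ[k] ℂ).toRingHom := by
      apply MvPolynomial.ringHom_ext
      · intro c
        show (eval v) (aeval _ (C c)) = aeval _ (C c)
        rw [aeval_C, aeval_C]
        show eval v (C (c : ℂ)) = (c : ℂ)
        exact eval_C _
      · intro o
        show (eval v) (aeval _ (X o)) = aeval _ (X o)
        rw [aeval_X, aeval_X]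
        rcases o with o | o
        · exact eval_C _
        · exact eval_X _
    exact congrArg (fun g : MvPolynomial (Fin m ⊕ τ) k →+* ℂ => g p) h1
  set f : MvPolynomial (Fin N) ℂ := (aeval (Sum.elim
      (fun j : Fin m => C (x j.succ)) fun o => X (s o)) : MvPolynomial (Fin m ⊕ τ) k →ₐ[k]
        MvPolynomial (Fin N) ℂ) p with hf
  have h1 : eval w f = 0 := by
    refine hQw f (sz_ns Q hQ _ fun v hv => ?_)
    rw [eval_rename, hf, hev]
    exact hp x v (hQs v hv)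
  rw [← hev w s]
  exact h1

private lemma sz_sum {n N : ℕ} (ι : Fin N → Fin n) (hι : Function.Injective ι) {R : Type}
    [AddCommMonoid R] (g : Fin n → R) (h0 : ∀ j, j ∉ Set.range ι → g j = 0) :
    ∑ j, g j = ∑ l, g (ι l) := by
  classical
  rw [← Finset.sum_image (s := Finset.univ) (g := ι) (f := g) fun a _ b _ h => hι h]
  symm
  refine Finset.sum_subset (Finset.subset_univ _) fun j _ hj => h0 j ?_
  rintro ⟨l, rfl⟩
  exact hj (Finset.mem_image_of_mem _ (Finset.mem_univ l))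

private lemma sz_choice {α : Type} (P : ℕ → α → Prop) (Q : α → Prop) (d : α) (hd : Q d)
    (hPQ : ∀ T w, P T w → Q w) : ∃ f : ℕ → α, ∀ T, Q (f T) ∧ ((∃ w, P T w) → P T (f T)) := by
  have h : ∀ T, ∃ v, Q v ∧ ((∃ w, P T w) → P T v) := by
    intro T
    by_cases h : ∃ w, P T w
    · obtain ⟨w, hw⟩ := h
      exact ⟨w, hPQ T w hw, fun _ => hw⟩
    · exact ⟨d, hd, fun h' => absurd h' h⟩
  choose f hf using h
  exact ⟨f, hf⟩

/-- a polynomial in `(x', z)` as a polynomial in the other index type -/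
private noncomputable def conv (k : Subfield ℂ) {m : ℕ} (p : MvPolynomial (Option (Fin m)) k) :
    MvPolynomial (Fin m ⊕ Unit) k :=
  rename (fun o : Option (Fin m) => o.elim (Sum.inr ()) Sum.inl) p

private lemma conv_ne (k : Subfield ℂ) {m : ℕ} (p : MvPolynomial (Option (Fin m)) k)
    (hp : p ≠ 0) : conv k p ≠ 0 := by
  intro h
  refine hp (rename_injective (fun o : Option (Fin m) => o.elim (Sum.inr ()) Sum.inl) ?_
    (h.trans (map_zero _).symm))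
  intro o o' h
  cases o with
  | none =>
    cases o' with
    | none => rfl
    | some j => exact absurd h (by simp)
  | some i =>
    cases o' with
    | none => exact absurd h (by simp)
    | some j =>
      have : i = j := by simpa using h
      rw [this]

private lemma conv_eval (k : Subfield ℂ) {m : ℕ} (p : MvPolynomial (Option (Fin m)) k)
    (x : Fin m → ℂ) (z : ℂ) :
    aeval (Sum.elim x fun _ => z) (conv k p) = aeval (cons z x : Option (Fin m) → ℂ) p := by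
  unfold conv
  rw [aeval_rename]
  congr 1
  congr 1
  funext o
  cases o <;> rfl

theorem sel_ptZ (k : Subfield ℂ) (hk : (k : Set ℂ).Countable) {m N : ℕ} (a b : Fin (m + 1) → ℂ)
    (hb : ∀ j, b j ≠ 0) (htd : td (k : Set ℂ) (Sum.elim a b) = m + 1)
    (P : Fin (m + 1) → Fin (m + 1) → MvPolynomial (Fin m ⊕ Fin 2) k)
    (hP : ∀ i j, i ≠ j → P i j ≠ 0)
    (hPV : ∀ i j, i ≠ j → ∀ x y : Fin (m + 1) → ℂ, Spec k (Sum.elim a b) (Sum.elim x y) →
      aeval (Sum.elim (fun l : Fin m => x l.succ) ![y i, y j]) (P i j) = 0)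
    (ι : Fin N → Fin (m + 1)) (hι : Function.Injective ι) (k0 : Fin N)
    (c : Fin (m + 1) → ℝ) (hcι : ∀ v : Fin N → ℤ, v ≠ 0 → ∑ l, c (ι l) * v l ≠ 0)
    (hc0 : ∀ j, j ∉ Set.range ι → c j = 0) (κ : ℝ)
    (β : Fin m → ℝ) (hβ : AlgebraicIndependent k (fun j => Complex.I * (β j : ℂ)))
    (𝒰 : Ultrafilter ℕ) (h𝒰 : (𝒰 : Filter ℕ) ≤ atTop) (x : ℕ → Fin (m + 1) → ℂ)
    (hx : ∀ᶠ T : ℕ in (𝒰 : Filter ℕ), ∀ j : Fin m,
      x T j.succ = Complex.I * (T : ℂ) * (β j : ℂ))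
    (hfib : ∀ᶠ T : ℕ in (𝒰 : Filter ℕ), ∃ Q : Ideal (MvPolynomial (Fin (m + 1)) ℂ), Q.IsPrime ∧
      (∀ j : Fin (m + 1), (X j : MvPolynomial (Fin (m + 1)) ℂ) ∉ Q) ∧
      Algebra.trdeg ℂ (MvPolynomial (Fin (m + 1)) ℂ ⧸ Q) = 1 ∧
      (∀ e : ℂ, (X (ι k0) - C e : MvPolynomial (Fin (m + 1)) ℂ) ∉ Q) ∧
      ∀ w : Fin (m + 1) → ℂ, (∀ g ∈ Q, eval w g = 0) →
        Spec k (Sum.elim a b) (Sum.elim (x T) w)) :
    ∃ (b' : ℕ → Fin (m + 1) → ℂ) (l : Fin N) (θ : ℝ) (η : ℕ → Fin (m + 1) → ℂ)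
      (ηi : Fin (m + 1) → ℂ) (C : ℝ),
      (∀ T j, b' T j ≠ 0) ∧
      (∀ᶠ T : ℕ in (𝒰 : Filter ℕ),
        Spec k (Sum.elim a b) (Sum.elim (x T) fun j => b' T j * Complex.exp (η T j)) ∧
        ‖η T‖ ≤ 1 / 4 ∧ (∑ j, (c j : ℂ) * η T j).re = 0 ∧
        ∑ j, c j * Real.log ‖b' T j‖ = κ ∧ ∀ j, |Real.log ‖b' T j‖| ≤ C * Real.log T) ∧
      ‖ηi‖ ≤ 1 / 4 ∧ ∑ j, (c j : ℂ) * ηi j = Complex.I * θ ∧
      Tendsto η (𝒰 : Filter ℕ) (𝓝 ηi) ∧
      (∀ N : MvPolynomial (Fin m ⊕ Unit) k, N ≠ 0 → ∃ r : ℝ, 0 < r ∧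
        ∀ᶠ T : ℕ in (𝒰 : Filter ℕ), ∀ (x : Fin m → ℂ) (z : ℂ),
          (∀ j, ‖x j - Complex.I * (T : ℂ) * (β j : ℂ)‖ ≤ √(T : ℝ)) →
          ‖z - Complex.exp (ηi (ι l))‖ ≤ r → aeval (Sum.elim x fun _ => b' T (ι l) * z) N ≠ 0) ∧
      (∀ δ : ℝ, 0 < δ → ∃ δ' r : ℝ, 0 < δ' ∧ δ' < δ ∧ 0 < r ∧
        ∀ᶠ T : ℕ in (𝒰 : Filter ℕ), ∀ j, j ≠ ι l → ∀ (x : Fin m → ℂ) (z ζ : ℂ),
          (∀ l, ‖x l - Complex.I * (T : ℂ) * (β l : ℂ)‖ ≤ √(T : ℝ)) →
          ‖z - Complex.exp (ηi (ι l))‖ ≤ r → ‖ζ - Complex.exp (ηi j)‖ = δ' →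
          aeval (Sum.elim x ![b' T (ι l) * z, b' T j * ζ]) (P (ι l) j) ≠ 0) := by
  classical
  have hlam : ∀ v : Fin N → ℤ, ∑ l, c (ι l) * v l = 0 → v = 0 := fun v hv => by
    by_contra h
    exact hcι v h hv
  have h1 : ∀ᶠ T : ℕ in (𝒰 : Filter ℕ), ∃ w : Fin N → ℂ, Rp k a b (x T) ι w ∧
      ∑ l, c (ι l) * Real.log ‖w l‖ = κ ∧
      ∀ s : ℝ, 0 < s → ∃ η : Fin N → ℂ, ‖η‖ = s ∧
        Rp k a b (x T) ι (fun l => w l * Complex.exp (η l)) ∧
        (∑ l, (c (ι l) : ℂ) * η l).re = 0 := by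
    filter_upwards [hfib] with T hT
    obtain ⟨Q, hQ, hY, hdim, hk0, hsp⟩ := hT
    obtain ⟨Q', hQ', hY', hdim', hQQ⟩ := proj_curve Q hQ hY hdim ι k0 hk0
    obtain ⟨w, hw, hκ, hlev⟩ := EXP.level Q' hQ' hY' hdim' (fun l => c (ι l)) hlam κ
    have hR : ∀ w ∈ EXP.Tz Q', Rp k a b (x T) ι w := fun w hw =>
      ⟨hw.2, Q, hQ, hsp, fun f hf => hw.1 f ((hQQ f).2 hf)⟩
    refine ⟨w, hR w hw, hκ, fun s hs => ?_⟩
    obtain ⟨η, h1, h2, h3⟩ := hlev s hs
    exact ⟨η, h1, hR _ h2, h3⟩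
  obtain ⟨bb, hbb⟩ : ∃ bb : ℕ → Fin N → ℂ, ∀ T, (∀ l, bb T l ≠ 0) ∧
      ((∃ w : Fin N → ℂ, Rp k a b (x T) ι w ∧ ∑ l, c (ι l) * Real.log ‖w l‖ = κ ∧
      ∀ s : ℝ, 0 < s → ∃ η : Fin N → ℂ, ‖η‖ = s ∧
        Rp k a b (x T) ι (fun l => w l * Complex.exp (η l)) ∧
        (∑ l, (c (ι l) : ℂ) * η l).re = 0) → Rp k a b (x T) ι (bb T) ∧
        ∑ l, c (ι l) * Real.log ‖bb T l‖ = κ ∧
        ∀ s : ℝ, 0 < s → ∃ η : Fin N → ℂ, ‖η‖ = s ∧
          Rp k a b (x T) ι (fun l => bb T l * Complex.exp (η l)) ∧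
          (∑ l, (c (ι l) : ℂ) * η l).re = 0) := by
    exact sz_choice (fun T w => Rp k a b (x T) ι w ∧
      ∑ l, c (ι l) * Real.log ‖w l‖ = κ ∧ ∀ s : ℝ, 0 < s → ∃ η : Fin N → ℂ, ‖η‖ = s ∧
        Rp k a b (x T) ι (fun l => w l * Complex.exp (η l)) ∧
        (∑ l, (c (ι l) : ℂ) * η l).re = 0) (fun w => ∀ l, w l ≠ 0) (fun _ => 1)
        (fun _ => one_ne_zero) fun T w hw => hw.1.1
  have hb0 : ∀ T l, bb T l ≠ 0 := fun T => (hbb T).1
  have h2 : ∀ᶠ T : ℕ in (𝒰 : Filter ℕ), Rp k a b (x T) ι (bb T) ∧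
      ∑ l, c (ι l) * Real.log ‖bb T l‖ = κ ∧
      ∀ s : ℝ, 0 < s → ∃ η : Fin N → ℂ, ‖η‖ = s ∧
        Rp k a b (x T) ι (fun l => bb T l * Complex.exp (η l)) ∧
        (∑ l, (c (ι l) : ℂ) * η l).re = 0 := h1.mono fun T hT => (hbb T).2 hT
  have hxI : ∀ᶠ T : ℕ in (𝒰 : Filter ℕ), (fun l : Fin m => x T l.succ) =
      fun l => Complex.I * (T : ℂ) * (β l : ℂ) := hx.mono fun T hT => funext hT
  obtain ⟨C1, hC1⟩ := bdd k β hβ (fun l => c (ι l)) (fun v hv => hcι v hv)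
    (fun l l' => P (ι l) (ι l')) (fun l l' h => hP _ _ fun h' => h (hι h')) 𝒰 h𝒰 bb hb0 (by
    filter_upwards [h2, hxI] with T hT hxT l l' hl
    have h3 := rp_rel hT.1 ![l, l'] (P (ι l) (ι l')) (fun x y hxy => by
      have h4 := hPV (ι l) (ι l') (fun h' => hl (hι h')) x y hxy
      have h5 : (fun o => y (ι ((![l, l'] : Fin 2 → Fin N) o))) = ![y (ι l), y (ι l')] := by
        funext o
        fin_cases o <;> rfl
      rw [h5]
      exact h4)
    have h5 : (fun o => bb T ((![l, l'] : Fin 2 → Fin N) o)) = ![bb T l, bb T l'] := by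
      funext o
      fin_cases o <;> rfl
    rw [h5, hxT] at h3
    exact h3) κ (h2.mono fun T hT => hT.2.1)
  obtain ⟨Z, hZ, hgood⟩ := exists_good k hk β hβ 𝒰 h𝒰 bb hb0
  obtain ⟨l, θ, η, ηi, hη, hηi, hθ, hlim, hnZ⟩ := exists_s (fun l => c (ι l)) 𝒰 Z hZ
    (fun T η => Rp k a b (x T) ι (fun l => bb T l * Complex.exp (η l)))
    (h2.mono fun T hT => hT.2.2)
  have hg := hgood l _ hnZ
  have hliml : Tendsto (fun T => Complex.exp (η T l)) (𝒰 : Filter ℕ)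
      (𝓝 (Complex.exp (ηi l))) :=
    (Complex.continuous_exp.tendsto _).comp ((tendsto_pi_nhds.1 hlim) l)
  have hnear : ∀ r : ℝ, 0 < r → ∀ᶠ T : ℕ in (𝒰 : Filter ℕ),
      ‖Complex.exp (η T l) - Complex.exp (ηi l)‖ ≤ r := by
    intro r hr
    have h3 := hliml.eventually (Metric.closedBall_mem_nhds _ hr)
    refine h3.mono fun T hT => ?_
    exact (dist_eq_norm _ _).symm.le.trans hT
  -- nonvanishing at the points
  have hnv : ∀ p : MvPolynomial (Option (Fin m)) k, p ≠ 0 → ∀ᶠ T : ℕ in (𝒰 : Filter ℕ),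
      aeval (cons (bb T l * Complex.exp (η T l)) (fun j : Fin m => x T j.succ) :
        Option (Fin m) → ℂ) p ≠ 0 := by
    intro p hp
    obtain ⟨r, hr, h3⟩ := good_ne k β 𝒰 (fun T => bb T l) _ hg (conv k p) (conv_ne k p hp)
    filter_upwards [h3, hnear r hr, hxI] with T h4 h5 h6
    have h7 := h4 (fun j : Fin m => x T j.succ) (Complex.exp (η T l)) (fun j => by
      have h8 : x T j.succ = Complex.I * (T : ℂ) * (β j : ℂ) := congrFun h6 j
      rw [h8, sub_self, norm_zero]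
      positivity) h5
    rw [conv_eval] at h7
    exact h7
  have hind : AlgebraicIndependent k (bs (ι l) a b) := by
    by_contra hni
    obtain ⟨N0, hN0, hN1⟩ := exists_pair1 k a b (ι l) hni
    obtain ⟨T, h3, h4⟩ := ((hnv N0 hN0).and hη).exists
    refine h3 ?_
    have h5 := rp_rel h4.1 (fun _ : Unit => l) (conv k N0) (fun x y hxy => by
      rw [conv_eval]
      exact hN1 x y hxy)
    rw [conv_eval] at h5
    exact h5
  obtain ⟨pr⟩ := exists_prim k a b hb htd (ι l) hind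
  have hlift : ∀ᶠ T : ℕ in (𝒰 : Filter ℕ), ∃ w : Fin (m + 1) → ℂ,
      (∀ l, w (ι l) = bb T l * Complex.exp (η T l)) ∧ (∀ j, w j ≠ 0) ∧
      Spec k (Sum.elim a b) (Sum.elim (x T) w) := by
    filter_upwards [hnv pr.Dl pr.ne, hη] with T h3 h4
    obtain ⟨-, Q, hQ, hQs, hQw⟩ := h4.1
    exact lift_pt pr Q hQ (x T) hQs ι l rfl _ hQw h3
  obtain ⟨W, hW⟩ : ∃ W : ℕ → Fin (m + 1) → ℂ, ∀ T, (∀ j, W T j ≠ 0) ∧
      ((∃ w : Fin (m + 1) → ℂ, (∀ l, w (ι l) = bb T l * Complex.exp (η T l)) ∧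
        (∀ j, w j ≠ 0) ∧ Spec k (Sum.elim a b) (Sum.elim (x T) w)) →
        (∀ l, W T (ι l) = bb T l * Complex.exp (η T l)) ∧
        Spec k (Sum.elim a b) (Sum.elim (x T) (W T))) := by
    obtain ⟨W, hW⟩ := sz_choice (fun T (w : Fin (m + 1) → ℂ) =>
      (∀ l, w (ι l) = bb T l * Complex.exp (η T l)) ∧ (∀ j, w j ≠ 0) ∧
      Spec k (Sum.elim a b) (Sum.elim (x T) w)) (fun w => ∀ j, w j ≠ 0) (fun _ => 1)
      (fun _ => one_ne_zero) fun T w hw => hw.2.1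
    exact ⟨W, fun T => ⟨(hW T).1, fun h => ⟨((hW T).2 h).1, ((hW T).2 h).2.2⟩⟩⟩
  have hWev := hlift.mono fun T hT => (hW T).2 hT
  set b' : ℕ → Fin (m + 1) → ℂ := fun T => Function.extend ι (bb T) (W T) with hb'
  set η' : ℕ → Fin (m + 1) → ℂ := fun T => Function.extend ι (η T) 0 with hη'
  set ηi' : Fin (m + 1) → ℂ := Function.extend ι ηi 0 with hηi'
  have eb1 : ∀ T l, b' T (ι l) = bb T l := fun T l => hι.extend_apply _ _ _
  have eb2 : ∀ T j, j ∉ Set.range ι → b' T j = W T j := fun T j hj =>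
    Function.extend_apply' _ _ _ fun h => hj h
  have ee1 : ∀ T l, η' T (ι l) = η T l := fun T l => hι.extend_apply _ _ _
  have ee2 : ∀ T j, j ∉ Set.range ι → η' T j = 0 := fun T j hj =>
    Function.extend_apply' _ _ _ fun h => hj h
  have ei1 : ∀ l, ηi' (ι l) = ηi l := fun l => hι.extend_apply _ _ _
  have ei2 : ∀ j, j ∉ Set.range ι → ηi' j = 0 := fun j hj =>
    Function.extend_apply' _ _ _ fun h => hj h
  have hb'0 : ∀ T j, b' T j ≠ 0 := by
    intro T j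
    by_cases hj : j ∈ Set.range ι
    · obtain ⟨l, rfl⟩ := hj
      rw [eb1]
      exact hb0 T l
    · rw [eb2 T j hj]
      exact (hW T).1 j
  have hWe : ∀ᶠ T : ℕ in (𝒰 : Filter ℕ), (fun j => b' T j * Complex.exp (η' T j)) = W T := by
    filter_upwards [hWev] with T hT
    funext j
    by_cases hj : j ∈ Set.range ι
    · obtain ⟨l, rfl⟩ := hj
      rw [eb1, ee1, hT.1]
    · rw [eb2 T j hj, ee2 T j hj, Complex.exp_zero, mul_one]
  have hnorm : ∀ (f : Fin N → ℂ), ‖f‖ ≤ 1 / 4 →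
      ‖(Function.extend ι f 0 : Fin (m + 1) → ℂ)‖ ≤ 1 / 4 := by
    intro f hf
    rw [pi_norm_le_iff_of_nonneg (by norm_num)]
    intro j
    by_cases hj : j ∈ Set.range ι
    · obtain ⟨l, rfl⟩ := hj
      rw [hι.extend_apply]
      exact (norm_le_pi_norm f l).trans hf
    · rw [Function.extend_apply' _ _ _ fun h => hj h, Pi.zero_apply, norm_zero]
      norm_num
  have hsum : ∀ (f : Fin (m + 1) → ℂ), ∑ j, (c j : ℂ) * f j = ∑ l, (c (ι l) : ℂ) * f (ι l) :=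
    fun f => sz_sum ι hι _ fun j hj => by rw [hc0 j hj, Complex.ofReal_zero, zero_mul]
  have hsumr : ∀ (f : Fin (m + 1) → ℝ), ∑ j, c j * f j = ∑ l, c (ι l) * f (ι l) :=
    fun f => sz_sum ι hι _ fun j hj => by rw [hc0 j hj, zero_mul]
  -- growth
  have hgrow : ∀ j, ∃ C : ℝ, ∀ᶠ T : ℕ in (𝒰 : Filter ℕ),
      |Real.log ‖b' T j‖| ≤ C * Real.log T := by
    intro j
    by_cases hj : j ∈ Set.range ι
    · obtain ⟨l, rfl⟩ := hj
      refine ⟨C1, hC1.mono fun T hT => ?_⟩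
      rw [eb1]
      exact hT l
    · have hlow : ∀ p : MvPolynomial (Fin m ⊕ Unit) k, p ≠ 0 → ∃ K : ℝ,
          ∀ᶠ T : ℕ in (𝒰 : Filter ℕ), (T : ℝ) ^ (-K) ≤
            ‖aeval (Sum.elim (fun l => Complex.I * (T : ℂ) * (β l : ℂ))
              fun _ => bb T l * Complex.exp (η T l)) p‖ := fun p hp =>
        good_low k β 𝒰 h𝒰 (fun T => bb T l) _ hg C1 (hC1.mono fun T hT => hT l)
          (fun T => Complex.exp (η T l)) hliml p hp
      have hy : ∀ᶠ T : ℕ in (𝒰 : Filter ℕ),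
          ‖bb T l * Complex.exp (η T l)‖ ≤ (T : ℝ) ^ (C1 + 1) := by
        have h3 : ∀ᶠ T : ℕ in (𝒰 : Filter ℕ), 2 ≤ T := h𝒰 (eventually_ge_atTop 2)
        filter_upwards [hC1, hη, h3] with T h4 h5 h6
        have hT2 : (2 : ℝ) ≤ T := by exact_mod_cast h6
        have hT0 : (0 : ℝ) < T := by linarith
        have h7 : ‖bb T l‖ ≤ (T : ℝ) ^ C1 := by
          have h8 : Real.log ‖bb T l‖ ≤ C1 * Real.log T := (le_abs_self _).trans (h4 l)
          have h9 : 0 < ‖bb T l‖ := norm_pos_iff.2 (hb0 T l)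
          rw [← Real.exp_log h9, Real.rpow_def_of_pos hT0, mul_comm]
          exact Real.exp_le_exp.2 h8
        have h8 : ‖Complex.exp (η T l)‖ ≤ T := by
          rw [Complex.norm_exp]
          have h9 : (η T l).re ≤ 1 / 4 :=
            (Complex.re_le_norm _).trans ((norm_le_pi_norm (η T) l).trans h5.2.1)
          have h10 : Real.exp (1 / 4) ≤ 2 := by
            have h11 : Real.exp (1 / 4) ≤ Real.exp (Real.log 2) := by
              refine Real.exp_le_exp.2 ?_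
              have := Real.log_two_gt_d9
              linarith
            rwa [Real.exp_log two_pos] at h11
          exact (Real.exp_le_exp.2 h9).trans (h10.trans hT2)
        rw [norm_mul, Real.rpow_add hT0, Real.rpow_one]
        exact mul_le_mul h7 h8 (norm_nonneg _) (Real.rpow_nonneg hT0.le _)
      obtain ⟨C2, hC2⟩ := bdd_other k β 𝒰 h𝒰 (fun T => bb T l * Complex.exp (η T l))
        (fun T => W T j) (Eventually.of_forall fun T => (hW T).1 j) hlow (C1 + 1) hy (P (ι l) j)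
        (hP _ _ fun h => hj ⟨l, h⟩) (by
        filter_upwards [hWev, hxI] with T h3 h4
        have h5 := hPV (ι l) j (fun h => hj ⟨l, h⟩) (x T) (W T) h3.2
        rw [h4, h3.1] at h5
        exact h5)
      refine ⟨C2, hC2.mono fun T hT => ?_⟩
      rw [eb2 T j hj]
      exact hT
  choose Cj hCj using hgrow
  refine ⟨b', l, θ, η', ηi', ∑ j, |Cj j|, hb'0, ?_, hnorm ηi hηi, ?_, ?_, ?_, ?_⟩
  · have h3 : ∀ᶠ T : ℕ in (𝒰 : Filter ℕ), 1 ≤ T := h𝒰 (eventually_ge_atTop 1)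
    filter_upwards [hWev, hWe, hη, h2, eventually_all.2 hCj, h3] with T g1 g2 g3 g4 g5 g6
    refine ⟨?_, hnorm (η T) g3.2.1, ?_, ?_, ?_⟩
    · rw [g2]
      exact g1.2
    · rw [hsum]
      simp only [ee1]
      exact g3.2.2
    · rw [hsumr]
      simp only [eb1]
      exact g4.2.1
    · intro j
      refine (g5 j).trans ?_
      have h7 : 0 ≤ Real.log (T : ℝ) := Real.log_nonneg (by exact_mod_cast g6)
      refine mul_le_mul_of_nonneg_right ?_ h7
      exact (le_abs_self _).trans (Finset.single_le_sum (f := fun j => |Cj j|)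
        (fun i _ => abs_nonneg _) (Finset.mem_univ j))
  · rw [hsum]
    simp only [ei1]
    exact hθ
  · rw [tendsto_pi_nhds]
    intro j
    by_cases hj : j ∈ Set.range ι
    · obtain ⟨l, rfl⟩ := hj
      simp only [ee1, ei1]
      exact (tendsto_pi_nhds.1 hlim) l
    · simp only [ee2 _ j hj, ei2 j hj]
      exact tendsto_const_nhds
  · intro p hp
    obtain ⟨r, hr, h3⟩ := good_ne k β 𝒰 (fun T => bb T l) _ hg p hp
    refine ⟨r, hr, h3.mono fun T hT x z hx hz => ?_⟩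
    rw [ei1] at hz
    rw [eb1]
    exact hT x z hx hz
  · intro δ hδ
    have hg' : Good k β 𝒰 (fun T => b' T (ι l)) (Complex.exp (ηi' (ι l))) := by
      simp only [eb1, ei1]
      exact hg
    exact pair_good k β hβ 𝒰 h𝒰 b' hb'0 (fun j => Complex.exp (ηi' j)) (ι l) hg'
      (fun j => P (ι l) j) (fun j hj => hP _ _ (Ne.symm hj)) δ hδ

end Pool.Agent.EXZ
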